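import Pool.Agent.Lib.helper66.Raw

/-!
# The tableau of a stack machine as a 3-CNF
-/

open Function

namespace Pool.Agent.H66

/-! ## 3-CNF formulas -/

/-- A literal: its sign and its variable. -/
abbrev Lit := Bool × ℕ

/-- A clause with three literals. -/
abbrev Cl := Lit × (Lit × Lit)

/-- An assignment satisfies a literal. -/
def LitSat (τ : ℕ → Bool) (l : Lit) : Prop := τ l.2 = l.1

/-- An assignment satisfies a clause. -/
def ClSat (τ : ℕ → Bool) (c : Cl) : Prop := LitSat τ c.1 ∨ LitSat τ c.2.1 ∨ LitSat τ c.2.2

/-- A 3-CNF formula is satisfiable. -/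
def Sat3 (φ : List Cl) : Prop := ∃ τ : ℕ → Bool, ∀ c ∈ φ, ClSat τ c

/-- The clause `u ∧ v → w`. -/
def imp2 (u v w : ℕ) : Cl := ((false, u), ((false, v), (true, w)))

theorem imp2_sat {τ : ℕ → Bool} {u v w : ℕ} :
    ClSat τ (imp2 u v w) ↔ (τ u = true → τ v = true → τ w = true) := by
  simp only [ClSat, LitSat, imp2]
  cases τ u <;> cases τ v <;> cases τ w <;> simp

/-! ## Stack machines -/

/-- Actions on one stack. -/
inductive Act (A : Type) : Type
  | keep : Act A
  | push (a : A) : Act A
  | pop : Act A

/-- The effect of an action. -/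
def Act.app {A : Type} (l : List A) : Act A → List A
  | .keep => l
  | .push a => a :: l
  | .pop => l.tail

/-- A deterministic stack machine: in each step it reads the top of one stack. -/
structure SM (C K A : Type) where
  /-- the stack that is read -/
  rd : C → K
  /-- the next control state -/
  nx : C → Option A → C
  /-- the action on each stack -/
  ac : C → K → Act A

variable {C K A : Type}

/-- One step. -/
def SM.step (M : SM C K A) (s : C × (K → List A)) : C × (K → List A) :=
  (M.nx s.1 (s.2 (M.rd s.1)).head?, fun k => (M.ac s.1 k).app (s.2 k))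

/-! ## Templates -/

/-- Literal templates: sign, time offset, column factor, column offset, kind. -/
abbrev LT := Bool × (ℕ × (ℕ × (ℕ × ℕ)))

/-- The number of a variable. -/
def vnum (b W t j e : ℕ) : ℕ := (t * (W + 1) + j) * b + e

/-- Instantiation of a literal template. -/
def instL (b W t j : ℕ) (l : LT) : Lit :=
  (l.1, vnum b W (t + l.2.1) (l.2.2.1 * j + l.2.2.2.1) l.2.2.2.2)

/-- Instantiation of a clause template. -/
def instC (b W t j : ℕ) (c : LT × (LT × LT)) : Cl :=
  (instL b W t j c.1, (instL b W t j c.2.1, instL b W t j c.2.2))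

/-- Instantiation of a list of clause templates. -/
def inst (tm : List (LT × (LT × LT))) (b W t j : ℕ) : List Cl := tm.map (instC b W t j)

theorem PolyTime.vnum {γ : Type} [Enc γ] {b W t j e : γ → ℕ} (hb : PolyTime b)
    (hW : PolyTime W) (ht : PolyTime t) (hj : PolyTime j) (he : PolyTime e) :
    PolyTime fun c => vnum (b c) (W c) (t c) (j c) (e c) :=
  PolyTime.add (PolyTime.mul (PolyTime.add (PolyTime.mul ht (PolyTime.succ.comp hW)) hj) hb) he

theorem PolyTime.instL {γ : Type} [Enc γ] {b W t j : γ → ℕ} {l : γ → LT} (hb : PolyTime b)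
    (hW : PolyTime W) (ht : PolyTime t) (hj : PolyTime j) (hl : PolyTime l) :
    PolyTime fun c => H66.instL (b c) (W c) (t c) (j c) (l c) := by
  have l1 : PolyTime fun c => (l c).1 := PolyTime.fst.comp hl
  have l2 : PolyTime fun c => (l c).2 := PolyTime.snd.comp hl
  have l21 : PolyTime fun c => (l c).2.1 := PolyTime.fst.comp l2
  have l22 : PolyTime fun c => (l c).2.2 := PolyTime.snd.comp l2
  have l221 : PolyTime fun c => (l c).2.2.1 := PolyTime.fst.comp l22
  have l222 : PolyTime fun c => (l c).2.2.2 := PolyTime.snd.comp l22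
  have l2221 : PolyTime fun c => (l c).2.2.2.1 := PolyTime.fst.comp l222
  have l2222 : PolyTime fun c => (l c).2.2.2.2 := PolyTime.snd.comp l222
  exact l1.pair (PolyTime.vnum hb hW (PolyTime.add ht l21)
    (PolyTime.add (PolyTime.mul l221 hj) l2221) l2222)

theorem PolyTime.inst {γ : Type} [Enc γ] (tm : List (LT × (LT × LT))) {b W t j : γ → ℕ}
    (hb : PolyTime b) (hW : PolyTime W) (ht : PolyTime t) (hj : PolyTime j) :
    PolyTime fun c => H66.inst tm (b c) (W c) (t c) (j c) := by
  have hb' : PolyTime fun p : γ × (LT × (LT × LT)) => b p.1 := hb.comp PolyTime.fst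
  have hW' : PolyTime fun p : γ × (LT × (LT × LT)) => W p.1 := hW.comp PolyTime.fst
  have ht' : PolyTime fun p : γ × (LT × (LT × LT)) => t p.1 := ht.comp PolyTime.fst
  have hj' : PolyTime fun p : γ × (LT × (LT × LT)) => j p.1 := hj.comp PolyTime.fst
  have q2 : PolyTime fun p : γ × (LT × (LT × LT)) => p.2 := PolyTime.snd
  have h : PolyTime fun p : γ × (LT × (LT × LT)) =>
      instC (b p.1) (W p.1) (t p.1) (j p.1) p.2 :=
    (PolyTime.instL hb' hW' ht' hj' (PolyTime.fst.comp q2)).pair
      ((PolyTime.instL hb' hW' ht' hj' (PolyTime.fst.comp (PolyTime.snd.comp q2))).pair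
        (PolyTime.instL hb' hW' ht' hj' (PolyTime.snd.comp (PolyTime.snd.comp q2))))
  exact PolyTime.map (f := fun c tpl => instC (b c) (W c) (t c) (j c) tpl)
    (PolyTime.const tm) h

/-! ## The tableau -/

section tableau

variable [Fintype C] [Fintype K] [DecidableEq K] [Fintype A]

/-- The kinds of variables. -/
abbrev Kind (C K A : Type) := C ⊕ (K × Option A)

/-- The number of kinds. -/
noncomputable def nk (C K A : Type) [Fintype C] [Fintype K] [Fintype A] : ℕ :=
  Fintype.card (Kind C K A)

/-- The number of a kind. -/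
noncomputable def ek (β : Kind C K A) : ℕ := (Fintype.equivFin (Kind C K A) β).val

omit [DecidableEq K] in
theorem ek_lt (β : Kind C K A) : ek β < nk C K A := (Fintype.equivFin (Kind C K A) β).isLt

omit [DecidableEq K] in
theorem ek_inj {β β' : Kind C K A} (h : ek β = ek β') : β = β' :=
  (Fintype.equivFin (Kind C K A)).injective (Fin.ext h)

/-- Templates of the transition rules. -/
noncomputable def transT (M : SM C K A) : List (LT × (LT × LT)) :=
  ((Finset.univ : Finset C).toList.flatMap fun c =>
    (Finset.univ : Finset (Option A)).toList.flatMap fun a =>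
      [((false, (0, (0, (0, ek (Sum.inl c : Kind C K A))))),
        ((false, (0, (0, (0, ek (Sum.inr (M.rd c, a) : Kind C K A))))),
          (true, (1, (0, (0, ek (Sum.inl (M.nx c a) : Kind C K A)))))))]) ++
  ((Finset.univ : Finset C).toList.flatMap fun c =>
    (Finset.univ : Finset K).toList.flatMap fun k =>
      (Finset.univ : Finset (Option A)).toList.flatMap fun a =>
        match M.ac c k with
        | .keep => [((false, (0, (0, (0, ek (Sum.inl c : Kind C K A))))),
            ((false, (0, (1, (0, ek (Sum.inr (k, a) : Kind C K A))))),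
              (true, (1, (1, (0, ek (Sum.inr (k, a) : Kind C K A)))))))]
        | .pop => [((false, (0, (0, (0, ek (Sum.inl c : Kind C K A))))),
            ((false, (0, (1, (1, ek (Sum.inr (k, a) : Kind C K A))))),
              (true, (1, (1, (0, ek (Sum.inr (k, a) : Kind C K A)))))))]
        | .push a₀ => [((false, (0, (0, (0, ek (Sum.inl c : Kind C K A))))),
            ((false, (0, (1, (0, ek (Sum.inr (k, a) : Kind C K A))))),
              (true, (1, (1, (1, ek (Sum.inr (k, a) : Kind C K A))))))),
            ((false, (0, (0, (0, ek (Sum.inl c : Kind C K A))))),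
            ((false, (0, (0, (0, ek (Sum.inl c : Kind C K A))))),
              (true, (1, (0, (0, ek (Sum.inr (k, some a₀) : Kind C K A)))))))])

/-- The unit template. -/
noncomputable def unitT (β : Kind C K A) : List (LT × (LT × LT)) :=
  [((true, (0, (1, (0, ek β)))), ((true, (0, (1, (0, ek β)))), (true, (0, (1, (0, ek β))))))]

/-- Blank cells of the stacks other than the input stack. -/
noncomputable def blankT (C K A : Type) [Fintype C] [Fintype K] [DecidableEq K] [Fintype A]
    (k₀ : K) : List (LT × (LT × LT)) :=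
  (Finset.univ : Finset K).toList.flatMap fun k =>
    if k = k₀ then [] else unitT (Sum.inr (k, none) : Kind C K A)

/-- The cells of the certificate. -/
noncomputable def certT (C : Type) [Fintype C] (k₀ : K) (e : Option Bool → A) :
    List (LT × (LT × LT)) :=
  [((true, (0, (1, (0, ek (Sum.inr (k₀, none) : Kind C K A))))),
    ((true, (0, (1, (0, ek (Sum.inr (k₀, some (e (some true))) : Kind C K A))))),
      (true, (0, (1, (0, ek (Sum.inr (k₀, some (e (some false))) : Kind C K A))))))),
   ((false, (0, (1, (0, ek (Sum.inr (k₀, none) : Kind C K A))))),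
    ((false, (0, (1, (0, ek (Sum.inr (k₀, none) : Kind C K A))))),
      (true, (0, (1, (1, ek (Sum.inr (k₀, none) : Kind C K A)))))))]

/-- The templates of the acceptance condition. -/
noncomputable def finT (C K A : Type) [Fintype C] [Fintype K] [Fintype A] (k₁ : K)
    (acc : C → Option A → Bool) : List (LT × (LT × LT)) :=
  (Finset.univ : Finset C).toList.flatMap fun c =>
    (Finset.univ : Finset (Option A)).toList.flatMap fun a =>
      if acc c a then [] else
      [((false, (0, (0, (0, ek (Sum.inl c : Kind C K A))))),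
        ((false, (0, (0, (0, ek (Sum.inr (k₁, a) : Kind C K A))))),
          (false, (0, (0, (0, ek (Sum.inl c : Kind C K A)))))))]

/-- The tableau as a 3-CNF. Here `T` is the number of steps, `Q` the bound on the length of the
certificate, and `W` the number of the last column. -/
noncomputable def tab (M : SM C K A) (c₀ : C) (k₀ k₁ : K) (e : Option Bool → A)
    (acc : C → Option A → Bool) (T Q W : ℕ) (x : List Bool) : List Cl :=
  inst (unitT (Sum.inl c₀ : Kind C K A)) (nk C K A) W 0 0 ++
  ((List.range (W + 1)).flatMap fun j => inst (blankT C K A k₀) (nk C K A) W 0 j) ++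
  ((List.range x.length).flatMap fun j =>
    if x.getD j false then
      inst (unitT (Sum.inr (k₀, some (e (some true))) : Kind C K A)) (nk C K A) W 0 j
    else inst (unitT (Sum.inr (k₀, some (e (some false))) : Kind C K A)) (nk C K A) W 0 j) ++
  inst (unitT (Sum.inr (k₀, some (e none)) : Kind C K A)) (nk C K A) W 0 x.length ++
  ((List.range Q).flatMap fun i =>
    inst (certT C k₀ e) (nk C K A) W 0 (x.length + 1 + i)) ++
  ((List.range (W + 1 - (x.length + 1 + Q))).flatMap fun i =>
    inst (unitT (Sum.inr (k₀, none) : Kind C K A)) (nk C K A) W 0 (x.length + 1 + Q + i)) ++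
  ((List.range T).flatMap fun t => (List.range W).flatMap fun j =>
    inst (transT M) (nk C K A) W t j) ++
  inst (finT C K A k₁ acc) (nk C K A) W T 0

theorem polyTime_tab (M : SM C K A) (c₀ : C) (k₀ k₁ : K) (e : Option Bool → A)
    (acc : C → Option A → Bool) {T Q W : List Bool → ℕ} (hT : PolyTime T) (hQ : PolyTime Q)
    (hW : PolyTime W) :
    PolyTime fun x : List Bool => tab M c₀ k₀ k₁ e acc (T x) (Q x) (W x) x := by
  have hl : PolyTime fun x : List Bool => x.length := PolyTime.length PolyTime.id
  have c0 : ∀ (γ : Type) [Enc γ] (n : ℕ), PolyTime fun _ : γ => n :=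
    fun γ _ n => PolyTime.const n
  have hW1 : PolyTime fun x : List Bool => W x + 1 := PolyTime.succ.comp hW
  have f1 : ∀ {g : List Bool → ℕ}, PolyTime g → PolyTime fun p : List Bool × ℕ => g p.1 :=
    fun h => h.comp PolyTime.fst
  have s1 : PolyTime fun p : List Bool × ℕ => p.2 := PolyTime.snd
  have hn1 : PolyTime fun x : List Bool => x.length + 1 := PolyTime.succ.comp hl
  unfold tab
  refine PolyTime.append (PolyTime.append (PolyTime.append (PolyTime.append (PolyTime.append
    (PolyTime.append (PolyTime.append ?_ ?_) ?_) ?_) ?_) ?_) ?_) ?_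
  · exact PolyTime.inst _ (c0 _ _) hW (c0 _ _) (c0 _ _)
  · exact PolyTime.flatMap (f := fun (x : List Bool) (j : ℕ) =>
      inst (blankT C K A k₀) (nk C K A) (W x) 0 j) (PolyTime.range hW1)
      (PolyTime.inst _ (c0 _ _) (f1 hW) (c0 _ _) s1)
  · refine PolyTime.flatMap (f := fun (x : List Bool) (j : ℕ) =>
      if x.getD j false then
        inst (unitT (Sum.inr (k₀, some (e (some true))) : Kind C K A)) (nk C K A) (W x) 0 j
      else inst (unitT (Sum.inr (k₀, some (e (some false))) : Kind C K A)) (nk C K A) (W x) 0 j)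
      (PolyTime.range hl) (PolyTime.ite ?_ ?_ ?_)
    · exact PolyTime.getD s1 PolyTime.fst false
    · exact PolyTime.inst _ (c0 _ _) (f1 hW) (c0 _ _) s1
    · exact PolyTime.inst _ (c0 _ _) (f1 hW) (c0 _ _) s1
  · exact PolyTime.inst _ (c0 _ _) hW (c0 _ _) hl
  · exact PolyTime.flatMap (f := fun (x : List Bool) (i : ℕ) =>
      inst (certT C k₀ e) (nk C K A) (W x) 0 (x.length + 1 + i)) (PolyTime.range hQ)
      (PolyTime.inst _ (c0 _ _) (f1 hW) (c0 _ _) (PolyTime.add (f1 hn1) s1))
  · exact PolyTime.flatMap (f := fun (x : List Bool) (i : ℕ) =>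
      inst (unitT (Sum.inr (k₀, none) : Kind C K A)) (nk C K A) (W x) 0 (x.length + 1 + Q x + i))
      (PolyTime.range (PolyTime.sub hW1 (PolyTime.add hn1 hQ)))
      (PolyTime.inst _ (c0 _ _) (f1 hW) (c0 _ _)
        (PolyTime.add (f1 (PolyTime.add hn1 hQ)) s1))
  · refine PolyTime.flatMap (f := fun (x : List Bool) (t : ℕ) =>
      (List.range (W x)).flatMap fun j => inst (transT M) (nk C K A) (W x) t j)
      (PolyTime.range hT) ?_
    refine PolyTime.flatMap (γ := List Bool × ℕ) (f := fun (p : List Bool × ℕ) (j : ℕ) =>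
      inst (transT M) (nk C K A) (W p.1) p.2 j) (PolyTime.range (f1 hW)) ?_
    exact PolyTime.inst _ (c0 _ _) ((f1 hW).comp PolyTime.fst) (s1.comp PolyTime.fst)
      PolyTime.snd
  · exact PolyTime.inst _ (c0 _ _) hW hT (c0 _ _)

/-! ### Satisfaction of the tableau -/

theorem forall_mem_flatMap' {α β : Type} {l : List α} {f : α → List β} {P : β → Prop} :
    (∀ b ∈ l.flatMap f, P b) ↔ ∀ a ∈ l, ∀ b ∈ f a, P b := by
  simp only [List.mem_flatMap]
  constructor
  · intro h a ha b hb
    exact h b ⟨a, ha, hb⟩
  · rintro h b ⟨a, ha, hb⟩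
    exact h a ha b hb

theorem inst_sat {τ : ℕ → Bool} {tm : List (LT × (LT × LT))} {b W t j : ℕ} :
    (∀ cl ∈ inst tm b W t j, ClSat τ cl) ↔ ∀ tp ∈ tm, ClSat τ (instC b W t j tp) := by
  unfold inst
  exact List.forall_mem_map

/-- The truth value of a variable. -/
def tv (τ : ℕ → Bool) (b W t j e : ℕ) : Bool := τ (vnum b W t j e)

omit [DecidableEq K] in
theorem unitT_sat {τ : ℕ → Bool} {b W t j : ℕ} {β : Kind C K A} :
    (∀ tp ∈ unitT β, ClSat τ (instC b W t j tp)) ↔ tv τ b W t j (ek β) = true := by
  simp only [unitT, List.mem_singleton, forall_eq, instC, instL, ClSat, LitSat, tv, Nat.add_zero,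
    Nat.one_mul, or_self]

theorem blankT_sat {τ : ℕ → Bool} {b W t j : ℕ} {k₀ : K} :
    (∀ tp ∈ blankT C K A k₀, ClSat τ (instC b W t j tp)) ↔
      ∀ k, k ≠ k₀ → tv τ b W t j (ek (Sum.inr (k, none) : Kind C K A)) = true := by
  unfold blankT
  rw [forall_mem_flatMap']
  constructor
  · intro h k hk
    have := h k (by simp)
    rw [if_neg hk] at this
    exact unitT_sat.1 this
  · intro h k _
    by_cases hk : k = k₀
    · simp [hk]
    · rw [if_neg hk]
      exact unitT_sat.2 (h k hk)

omit [DecidableEq K] in
theorem certT_sat {τ : ℕ → Bool} {b W t j : ℕ} {k₀ : K} {e : Option Bool → A} :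
    (∀ tp ∈ certT C k₀ e, ClSat τ (instC b W t j tp)) ↔
      ((tv τ b W t j (ek (Sum.inr (k₀, none) : Kind C K A)) = true ∨
        tv τ b W t j (ek (Sum.inr (k₀, some (e (some true))) : Kind C K A)) = true ∨
        tv τ b W t j (ek (Sum.inr (k₀, some (e (some false))) : Kind C K A)) = true) ∧
      (tv τ b W t j (ek (Sum.inr (k₀, none) : Kind C K A)) = true →
        tv τ b W t (j + 1) (ek (Sum.inr (k₀, none) : Kind C K A)) = true)) := by
  unfold certT
  simp only [List.mem_cons, List.not_mem_nil, or_false, forall_eq_or_imp, forall_eq, instC, instL,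
    ClSat, LitSat, tv, Nat.add_zero, Nat.one_mul]
  refine and_congr Iff.rfl ?_
  cases τ (vnum b W t j (ek (Sum.inr (k₀, none) : Kind C K A))) <;> simp

omit [DecidableEq K] in
theorem finT_sat {τ : ℕ → Bool} {b W t : ℕ} {k₁ : K} {acc : C → Option A → Bool} :
    (∀ tp ∈ finT C K A k₁ acc, ClSat τ (instC b W t 0 tp)) ↔
      ∀ c a, acc c a = false → tv τ b W t 0 (ek (Sum.inl c : Kind C K A)) = true →
        tv τ b W t 0 (ek (Sum.inr (k₁, a) : Kind C K A)) = false := by
  unfold finT
  rw [forall_mem_flatMap']
  simp only [forall_mem_flatMap']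
  have key : ∀ c a, (∀ tp ∈ (if acc c a then [] else
      [((false, (0, (0, (0, ek (Sum.inl c : Kind C K A))))),
        ((false, (0, (0, (0, ek (Sum.inr (k₁, a) : Kind C K A))))),
          (false, (0, (0, (0, ek (Sum.inl c : Kind C K A)))))))] : List (LT × (LT × LT))),
        ClSat τ (instC b W t 0 tp)) ↔
      (acc c a = false → tv τ b W t 0 (ek (Sum.inl c : Kind C K A)) = true →
        tv τ b W t 0 (ek (Sum.inr (k₁, a) : Kind C K A)) = false) := by
    intro c a
    cases h : acc c a with
    | true => simp
    | false =>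
      simp only [Bool.false_eq_true, if_false, List.mem_singleton, forall_eq, instC, instL, ClSat,
        LitSat, tv, Nat.add_zero, Nat.zero_mul, true_implies]
      cases τ (vnum b W t 0 (ek (Sum.inl c : Kind C K A))) <;>
        cases τ (vnum b W t 0 (ek (Sum.inr (k₁, a) : Kind C K A))) <;> simp
  constructor
  · intro h c a
    exact (key c a).1 (h c (by simp) a (by simp))
  · intro h c _ a _
    exact (key c a).2 (h c a)

omit [DecidableEq K] in
theorem transT_sat {τ : ℕ → Bool} {b W t j : ℕ} {M : SM C K A} :
    (∀ tp ∈ transT M, ClSat τ (instC b W t j tp)) ↔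
      (∀ c a, tv τ b W t 0 (ek (Sum.inl c : Kind C K A)) = true →
        tv τ b W t 0 (ek (Sum.inr (M.rd c, a) : Kind C K A)) = true →
        tv τ b W (t + 1) 0 (ek (Sum.inl (M.nx c a) : Kind C K A)) = true) ∧
      (∀ c k, tv τ b W t 0 (ek (Sum.inl c : Kind C K A)) = true → ∀ a,
        match M.ac c k with
        | .keep => tv τ b W t j (ek (Sum.inr (k, a) : Kind C K A)) = true →
            tv τ b W (t + 1) j (ek (Sum.inr (k, a) : Kind C K A)) = true
        | .pop => tv τ b W t (j + 1) (ek (Sum.inr (k, a) : Kind C K A)) = true →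
            tv τ b W (t + 1) j (ek (Sum.inr (k, a) : Kind C K A)) = true
        | .push a₀ => (tv τ b W t j (ek (Sum.inr (k, a) : Kind C K A)) = true →
            tv τ b W (t + 1) (j + 1) (ek (Sum.inr (k, a) : Kind C K A)) = true) ∧
            tv τ b W (t + 1) 0 (ek (Sum.inr (k, some a₀) : Kind C K A)) = true) := by
  unfold transT
  rw [List.forall_mem_append]
  refine and_congr ?_ ?_
  · rw [forall_mem_flatMap']
    simp only [forall_mem_flatMap', List.mem_singleton, forall_eq]
    have key : ∀ c a, ClSat τ (instC b W t j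
        ((false, (0, (0, (0, ek (Sum.inl c : Kind C K A))))),
        ((false, (0, (0, (0, ek (Sum.inr (M.rd c, a) : Kind C K A))))),
          (true, (1, (0, (0, ek (Sum.inl (M.nx c a) : Kind C K A)))))))) ↔
        (tv τ b W t 0 (ek (Sum.inl c : Kind C K A)) = true →
        tv τ b W t 0 (ek (Sum.inr (M.rd c, a) : Kind C K A)) = true →
        tv τ b W (t + 1) 0 (ek (Sum.inl (M.nx c a) : Kind C K A)) = true) := by
      intro c a
      simp only [instC, instL, tv, Nat.add_zero, Nat.zero_mul]
      exact imp2_sat
    constructor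
    · intro h c a
      exact (key c a).1 (h c (by simp) a (by simp))
    · intro h c _ a _
      exact (key c a).2 (h c a)
  · rw [forall_mem_flatMap']
    simp only [forall_mem_flatMap']
    constructor
    · intro h c k hc a
      have := h c (by simp) k (by simp) a (by simp)
      revert this
      cases M.ac c k with
      | keep =>
        simp only [List.mem_singleton, forall_eq]
        intro h
        simp only [instC, instL, Nat.add_zero, Nat.zero_mul, Nat.one_mul] at h
        exact imp2_sat.1 h hc
      | pop =>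
        simp only [List.mem_singleton, forall_eq]
        intro h
        simp only [instC, instL, Nat.add_zero, Nat.zero_mul, Nat.one_mul] at h
        exact imp2_sat.1 h hc
      | push a₀ =>
        simp only [List.mem_cons, List.not_mem_nil, or_false, forall_eq_or_imp, forall_eq]
        intro h
        simp only [instC, instL, Nat.add_zero, Nat.zero_mul, Nat.one_mul] at h
        exact ⟨(imp2_sat (τ := τ)).1 h.1 hc, (imp2_sat (τ := τ)).1 h.2 hc hc⟩
    · intro h c _ k _ a _
      have := h c k
      revert this
      cases M.ac c k with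
      | keep =>
        intro h
        simp only [List.mem_singleton, forall_eq]
        simp only [instC, instL, Nat.add_zero, Nat.zero_mul, Nat.one_mul]
        exact imp2_sat.2 fun hc => h hc a
      | pop =>
        intro h
        simp only [List.mem_singleton, forall_eq]
        simp only [instC, instL, Nat.add_zero, Nat.zero_mul, Nat.one_mul]
        exact imp2_sat.2 fun hc => h hc a
      | push a₀ =>
        intro h
        simp only [List.mem_cons, List.not_mem_nil, or_false, forall_eq_or_imp, forall_eq]
        simp only [instC, instL, Nat.add_zero, Nat.zero_mul, Nat.one_mul]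
        exact ⟨(imp2_sat (τ := τ)).2 fun hc => (h hc a).1,
          (imp2_sat (τ := τ)).2 fun hc _ => (h hc a).2⟩

theorem tab_sat {τ : ℕ → Bool} {M : SM C K A} {c₀ : C} {k₀ k₁ : K} {e : Option Bool → A}
    {acc : C → Option A → Bool} {T Q W : ℕ} {x : List Bool} :
    (∀ cl ∈ tab M c₀ k₀ k₁ e acc T Q W x, ClSat τ cl) ↔
      tv τ (nk C K A) W 0 0 (ek (Sum.inl c₀ : Kind C K A)) = true ∧
      (∀ j < W + 1, ∀ k, k ≠ k₀ →
        tv τ (nk C K A) W 0 j (ek (Sum.inr (k, none) : Kind C K A)) = true) ∧
      (∀ j < x.length,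
        tv τ (nk C K A) W 0 j (ek (Sum.inr (k₀, some (e (some (x.getD j false)))) : Kind C K A))
          = true) ∧
      tv τ (nk C K A) W 0 x.length (ek (Sum.inr (k₀, some (e none)) : Kind C K A)) = true ∧
      (∀ i < Q, (tv τ (nk C K A) W 0 (x.length + 1 + i)
          (ek (Sum.inr (k₀, none) : Kind C K A)) = true ∨
        tv τ (nk C K A) W 0 (x.length + 1 + i)
          (ek (Sum.inr (k₀, some (e (some true))) : Kind C K A)) = true ∨
        tv τ (nk C K A) W 0 (x.length + 1 + i)
          (ek (Sum.inr (k₀, some (e (some false))) : Kind C K A)) = true) ∧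
        (tv τ (nk C K A) W 0 (x.length + 1 + i) (ek (Sum.inr (k₀, none) : Kind C K A)) = true →
          tv τ (nk C K A) W 0 (x.length + 1 + i + 1)
            (ek (Sum.inr (k₀, none) : Kind C K A)) = true)) ∧
      (∀ i < W + 1 - (x.length + 1 + Q), tv τ (nk C K A) W 0 (x.length + 1 + Q + i)
        (ek (Sum.inr (k₀, none) : Kind C K A)) = true) ∧
      (∀ t < T, ∀ j < W,
        (∀ c a, tv τ (nk C K A) W t 0 (ek (Sum.inl c : Kind C K A)) = true →
          tv τ (nk C K A) W t 0 (ek (Sum.inr (M.rd c, a) : Kind C K A)) = true →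
          tv τ (nk C K A) W (t + 1) 0 (ek (Sum.inl (M.nx c a) : Kind C K A)) = true) ∧
        (∀ c k, tv τ (nk C K A) W t 0 (ek (Sum.inl c : Kind C K A)) = true → ∀ a,
          match M.ac c k with
          | .keep => tv τ (nk C K A) W t j (ek (Sum.inr (k, a) : Kind C K A)) = true →
              tv τ (nk C K A) W (t + 1) j (ek (Sum.inr (k, a) : Kind C K A)) = true
          | .pop => tv τ (nk C K A) W t (j + 1) (ek (Sum.inr (k, a) : Kind C K A)) = true →
              tv τ (nk C K A) W (t + 1) j (ek (Sum.inr (k, a) : Kind C K A)) = true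
          | .push a₀ => (tv τ (nk C K A) W t j (ek (Sum.inr (k, a) : Kind C K A)) = true →
              tv τ (nk C K A) W (t + 1) (j + 1) (ek (Sum.inr (k, a) : Kind C K A)) = true) ∧
              tv τ (nk C K A) W (t + 1) 0 (ek (Sum.inr (k, some a₀) : Kind C K A)) = true)) ∧
      (∀ c a, acc c a = false → tv τ (nk C K A) W T 0 (ek (Sum.inl c : Kind C K A)) = true →
        tv τ (nk C K A) W T 0 (ek (Sum.inr (k₁, a) : Kind C K A)) = false) := by
  unfold tab
  simp only [List.forall_mem_append, forall_mem_flatMap', List.mem_range, and_assoc]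
  refine and_congr (inst_sat.trans unitT_sat) (and_congr ?_ (and_congr ?_ (and_congr
    (inst_sat.trans unitT_sat) (and_congr ?_ (and_congr ?_ (and_congr ?_
    (inst_sat.trans finT_sat)))))))
  · exact forall₂_congr fun j _ => inst_sat.trans blankT_sat
  · refine forall₂_congr fun j _ => ?_
    cases x.getD j false
    · simp only [Bool.false_eq_true, if_false]
      exact inst_sat.trans unitT_sat
    · simp only [if_true]
      exact inst_sat.trans unitT_sat
  · exact forall₂_congr fun i _ => inst_sat.trans certT_sat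
  · exact forall₂_congr fun i _ => inst_sat.trans unitT_sat
  · exact forall₄_congr fun t _ j _ => inst_sat.trans transT_sat

end tableau

end Pool.Agent.H66
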