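import Mathlib

/-!
# The class NP, with Mathlib's TM2 machines
-/

namespace Pool.Agent.H66

/-- The code of an input `x` together with a certificate `y`: the bits of `x`, a separator, the
bits of `y`. -/
def pairCode (p : List Bool × List Bool) : List (Option Bool) :=
  p.1.map some ++ none :: p.2.map some

/-- A language over the alphabet of bits is in NP if it has a verifier that runs in polynomial
time on a (multi-stack) Turing machine and certificates of polynomially bounded length. -/
def InNP (L : Set (List Bool)) : Prop :=
  ∃ (q : Polynomial ℕ) (V : List Bool × List Bool → Bool),
    Nonempty (Turing.TM2ComputableInPolyTime pairCode Computability.encodeBool V) ∧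
    ∀ x, x ∈ L ↔ ∃ y : List Bool, y.length ≤ q.eval x.length ∧ V (x, y) = true

end Pool.Agent.H66
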