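import Pool.Agent.Lib.helper66.TabCorrect
import Pool.Agent.Lib.helper66.NPDefs

/-!
# The theorem of Cook and Levin
-/

open Function Turing StateTransition

namespace Pool.Agent.H66

section micro

variable {K : Type} [DecidableEq K] {Γ : K → Type} {Λ σ : Type}

/-- Actions on a stack with a given alphabet. -/
inductive ActG (G : Type) : Type
  | keep : ActG G
  | push (a : G) : ActG G
  | pop : ActG G

/-- The effect of an action. -/
def ActG.app {G : Type} (l : List G) : ActG G → List G
  | .keep => l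
  | .push a => a :: l
  | .pop => l.tail

/-- The stack that is read in a micro step. -/
def rdR (k₀ : K) : Option (TM2.Stmt Γ Λ σ) × σ → K
  | (some (.peek k _ _), _) => k
  | (some (.pop k _ _), _) => k
  | (some (.push _ _ _), _) => k₀
  | (some (.load _ _), _) => k₀
  | (some (.branch _ _ _), _) => k₀
  | (some (.goto _), _) => k₀
  | (some .halt, _) => k₀
  | (none, _) => k₀

/-- The control state after a micro step. -/
def nxR (M : Λ → TM2.Stmt Γ Λ σ) (k₀ : K) :
    (c : Option (TM2.Stmt Γ Λ σ) × σ) → Option (Γ (rdR k₀ c)) → Option (TM2.Stmt Γ Λ σ) × σ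
  | (some (.peek _ f q), v), o => (some q, f v o)
  | (some (.pop _ f q), v), o => (some q, f v o)
  | (some (.push _ _ q), v), _ => (some q, v)
  | (some (.load a q), v), _ => (some q, a v)
  | (some (.branch f q₁ q₂), v), _ => (some (cond (f v) q₁ q₂), v)
  | (some (.goto f), v), _ => (some (M (f v)), v)
  | (some .halt, v), _ => (none, v)
  | (none, v), _ => (none, v)

/-- The action on a stack in a micro step. -/
def acR : Option (TM2.Stmt Γ Λ σ) × σ → (k : K) → ActG (Γ k)
  | (some (.pop k' _ _), _), k => if k = k' then .pop else .keep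
  | (some (.push k' f _), v), k => if h : k = k' then .push (h ▸ f v) else .keep
  | (some (.peek _ _ _), _), _ => .keep
  | (some (.load _ _), _), _ => .keep
  | (some (.branch _ _ _), _), _ => .keep
  | (some (.goto _), _), _ => .keep
  | (some .halt, _), _ => .keep
  | (none, _), _ => .keep

/-- A micro step. -/
def mstep (M : Λ → TM2.Stmt Γ Λ σ) (k₀ : K)
    (s : (Option (TM2.Stmt Γ Λ σ) × σ) × (∀ k, List (Γ k))) :
    (Option (TM2.Stmt Γ Λ σ) × σ) × (∀ k, List (Γ k)) :=
  (nxR M k₀ s.1 (s.2 (rdR k₀ s.1)).head?, fun k => (acR s.1 k).app (s.2 k))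

/-- The micro configuration of a configuration. -/
def img (M : Λ → TM2.Stmt Γ Λ σ) (c : TM2.Cfg Γ Λ σ) :
    (Option (TM2.Stmt Γ Λ σ) × σ) × (∀ k, List (Γ k)) :=
  ((c.l.map M, c.var), c.stk)

/-- A bound on the number of micro steps of a statement. -/
def msize : TM2.Stmt Γ Λ σ → ℕ
  | .push _ _ q => msize q + 1
  | .peek _ _ q => msize q + 1
  | .pop _ _ q => msize q + 1
  | .load _ q => msize q + 1
  | .branch _ q₁ q₂ => msize q₁ + msize q₂ + 1
  | .goto _ => 1
  | .halt => 1

theorem mstep_stepAux (M : Λ → TM2.Stmt Γ Λ σ) (k₀ : K) (q : TM2.Stmt Γ Λ σ) :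
    ∀ (v : σ) (S : ∀ k, List (Γ k)), ∃ n ≤ msize q,
      (mstep M k₀)^[n] ((some q, v), S) = img M (TM2.stepAux q v S) := by
  induction q with
  | push k f q ih =>
    intro v S
    obtain ⟨n, hn, h⟩ := ih v (update S k (f v :: S k))
    refine ⟨n + 1, Nat.succ_le_succ hn, ?_⟩
    rw [iterate_succ_apply, TM2.stepAux, ← h]
    congr 1
    unfold mstep
    simp only [nxR, acR]
    congr 1
    funext k'
    by_cases hk : k' = k
    · subst hk; simp [ActG.app]
    · simp [hk, ActG.app]
  | peek k f q ih =>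
    intro v S
    obtain ⟨n, hn, h⟩ := ih (f v (S k).head?) S
    refine ⟨n + 1, Nat.succ_le_succ hn, ?_⟩
    rw [iterate_succ_apply, TM2.stepAux, ← h]
    rfl
  | pop k f q ih =>
    intro v S
    obtain ⟨n, hn, h⟩ := ih (f v (S k).head?) (update S k (S k).tail)
    refine ⟨n + 1, Nat.succ_le_succ hn, ?_⟩
    rw [iterate_succ_apply, TM2.stepAux, ← h]
    congr 1
    unfold mstep
    simp only [nxR, acR, rdR]
    congr 1
    funext k'
    by_cases hk : k' = k
    · subst hk; simp [ActG.app]
    · simp [hk, ActG.app]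
  | load a q ih =>
    intro v S
    obtain ⟨n, hn, h⟩ := ih (a v) S
    refine ⟨n + 1, Nat.succ_le_succ hn, ?_⟩
    rw [iterate_succ_apply, TM2.stepAux, ← h]
    rfl
  | branch f q₁ q₂ ih₁ ih₂ =>
    intro v S
    cases hf : f v with
    | true =>
      obtain ⟨n, hn, h⟩ := ih₁ v S
      refine ⟨n + 1, by simp only [msize]; omega, ?_⟩
      rw [iterate_succ_apply, TM2.stepAux, hf, cond_true, ← h]
      congr 1
      unfold mstep
      simp [nxR, acR, ActG.app, hf]
    | false =>
      obtain ⟨n, hn, h⟩ := ih₂ v S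
      refine ⟨n + 1, by simp only [msize]; omega, ?_⟩
      rw [iterate_succ_apply, TM2.stepAux, hf, cond_false, ← h]
      congr 1
      unfold mstep
      simp [nxR, acR, ActG.app, hf]
  | goto f =>
    intro v S
    exact ⟨1, le_rfl, rfl⟩
  | halt =>
    intro v S
    exact ⟨1, le_rfl, rfl⟩

theorem mstep_halted (M : Λ → TM2.Stmt Γ Λ σ) (k₀ : K) (v : σ) (S : ∀ k, List (Γ k)) (n : ℕ) :
    (mstep M k₀)^[n] ((none, v), S) = ((none, v), S) := by
  induction n with
  | zero => rfl
  | succ n ih => rw [iterate_succ_apply]; exact ih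

theorem mstep_run (M : Λ → TM2.Stmt Γ Λ σ) (k₀ : K) (D : ℕ) (hD : ∀ l, msize (M l) ≤ D) :
    ∀ (s : ℕ) (c d : TM2.Cfg Γ Λ σ), (flip bind (TM2.step M))^[s] (some c) = some d →
      ∃ n ≤ D * s, (mstep M k₀)^[n] (img M c) = img M d
  | 0, c, d, h => by
      refine ⟨0, Nat.zero_le _, ?_⟩
      have : c = d := by simpa using h
      rw [this]; rfl
  | s + 1, c, d, h => by
      rw [iterate_succ_apply] at h
      have e1 : flip bind (TM2.step M) (some c) = TM2.step M c := by simp [flip]
      rw [e1] at h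
      obtain ⟨l, v, S⟩ := c
      cases l with
      | none =>
        exfalso
        have : ∀ n : ℕ, (flip bind (TM2.step M))^[n] none = none := by
          intro n
          induction n with
          | zero => rfl
          | succ n ih => rw [iterate_succ_apply]; simpa [flip] using ih
        rw [TM2.step, this] at h
        simp at h
      | some l =>
        rw [TM2.step] at h
        obtain ⟨n, hn, h1⟩ := mstep_run M k₀ D hD s _ d h
        obtain ⟨m, hm, h2⟩ := mstep_stepAux M k₀ (M l) v S
        refine ⟨n + m, ?_, ?_⟩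
        · have := hD l
          have e2 : D * (s + 1) = D * s + D := by ring
          omega
        · rw [iterate_add_apply]
          have e3 : img M ⟨some l, v, S⟩ = ((some (M l), v), S) := rfl
          rw [e3, h2, h1]

end micro

section finite

variable {K : Type} [DecidableEq K] {Γ : K → Type} {Λ σ : Type} [Fintype Λ] [Fintype σ]

/-- The symbols pushed by a statement. -/
def pushSet : TM2.Stmt Γ Λ σ → Set (Σ k, Γ k)
  | .push k f _ => Set.range fun v => (⟨k, f v⟩ : Σ k, Γ k)
  | _ => ∅

/-- The symbols that can occur on the stacks. -/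
def usedS (M : Λ → TM2.Stmt Γ Λ σ) (k₀ : K) : Set (Σ k, Γ k) :=
  {x | x.1 = k₀} ∪ ⋃ l : Λ, ⋃ s ∈ TM2.stmts₁ (M l), pushSet s

omit [DecidableEq K] in
theorem usedS_finite (M : Λ → TM2.Stmt Γ Λ σ) (k₀ : K) [Finite (Γ k₀)] :
    (usedS M k₀).Finite := by
  classical
  refine Set.Finite.union ?_ (Set.finite_iUnion fun l => Set.Finite.biUnion
    (Finset.finite_toSet _) fun s _ => ?_)
  · have : {x : Σ k, Γ k | x.1 = k₀} = Set.range fun a : Γ k₀ => (⟨k₀, a⟩ : Σ k, Γ k) := by
      ext ⟨k, a⟩
      simp only [Set.mem_ofPred_eq, Set.mem_range]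
      constructor
      · intro h
        subst h
        exact ⟨a, rfl⟩
      · rintro ⟨b, hb⟩
        exact (congrArg Sigma.fst hb).symm
    rw [this]
    exact Set.finite_range _
  · cases s with
    | push k f q => exact Set.finite_range _
    | _ => exact Set.finite_empty

/-- The control states of the stack machine. -/
abbrev CC (M : Λ → TM2.Stmt Γ Λ σ) : Type :=
  {o : Option (TM2.Stmt Γ Λ σ) // o ∈ TM2.stmts M Finset.univ} × σ

/-- The alphabet of the stack machine. -/
abbrev AA (M : Λ → TM2.Stmt Γ Λ σ) (k₀ : K) : Type := Option (usedS M k₀)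

open Classical in
/-- The representation of a symbol. -/
noncomputable def inj (M : Λ → TM2.Stmt Γ Λ σ) (k₀ : K) (k : K) (x : Γ k) : AA M k₀ :=
  if h : (⟨k, x⟩ : Σ k, Γ k) ∈ usedS M k₀ then some ⟨_, h⟩ else none

/-- The symbol represented. -/
def out (M : Λ → TM2.Stmt Γ Λ σ) (k₀ : K) (k : K) : AA M k₀ → Option (Γ k)
  | none => none
  | some ⟨⟨k', x⟩, _⟩ => if h : k' = k then some (h ▸ x) else none

omit [Fintype Λ] [Fintype σ] in
theorem out_inj (M : Λ → TM2.Stmt Γ Λ σ) (k₀ : K) (k : K) (x : Γ k)
    (hx : (⟨k, x⟩ : Σ k, Γ k) ∈ usedS M k₀) : out M k₀ k (inj M k₀ k x) = some x := by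
  unfold inj
  rw [dif_pos hx]
  simp [out]

omit [DecidableEq K] in
omit [Fintype Λ] [Fintype σ] in
theorem inj_eq {M : Λ → TM2.Stmt Γ Λ σ} {k₀ : K} {k : K} {x x' : Γ k}
    (hx : (⟨k, x⟩ : Σ k, Γ k) ∈ usedS M k₀) (h : inj M k₀ k x = inj M k₀ k x') : x = x' := by
  unfold inj at h
  rw [dif_pos hx] at h
  by_cases hx' : (⟨k, x'⟩ : Σ k, Γ k) ∈ usedS M k₀
  · rw [dif_pos hx'] at h
    simpa using h
  · rw [dif_neg hx'] at h
    simp at h

open Classical in
/-- The stack machine of a TM2 machine. -/
noncomputable def toSM (M : Λ → TM2.Stmt Γ Λ σ) (k₀ : K) : SM (CC M) K (AA M k₀) where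
  rd c := rdR k₀ (c.1.val, c.2)
  nx c o :=
    if h : (nxR M k₀ (c.1.val, c.2) (o.bind (out M k₀ _))).1 ∈ TM2.stmts M Finset.univ then
      (⟨_, h⟩, (nxR M k₀ (c.1.val, c.2) (o.bind (out M k₀ _))).2)
    else c
  ac c k := match acR (c.1.val, c.2) k with
    | .keep => .keep
    | .push a => .push (inj M k₀ k a)
    | .pop => .pop

/-- The simulation relation. -/
def Rel (M : Λ → TM2.Stmt Γ Λ σ) (k₀ : K)
    (s : (Option (TM2.Stmt Γ Λ σ) × σ) × (∀ k, List (Γ k)))
    (s' : CC M × (K → List (AA M k₀))) : Prop :=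
  s.1 = (s'.1.1.val, s'.1.2) ∧ (∀ k, s'.2 k = (s.2 k).map (inj M k₀ k)) ∧
    ∀ k, ∀ x ∈ s.2 k, (⟨k, x⟩ : Σ k, Γ k) ∈ usedS M k₀

omit [DecidableEq K] [Fintype σ] in
theorem mem_stmts {M : Λ → TM2.Stmt Γ Λ σ} {q : TM2.Stmt Γ Λ σ} :
    some q ∈ TM2.stmts M Finset.univ ↔ ∃ l, q ∈ TM2.stmts₁ (M l) := by
  unfold TM2.stmts
  simp [Finset.mem_insertNone]

omit [DecidableEq K] [Fintype σ] in
theorem none_mem_stmts (M : Λ → TM2.Stmt Γ Λ σ) :
    none ∈ TM2.stmts M Finset.univ := by
  unfold TM2.stmts
  exact Finset.none_mem_insertNone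

omit [DecidableEq K] [Fintype σ] in
theorem nxR_mem {M : Λ → TM2.Stmt Γ Λ σ} {k₀ : K} (c : Option (TM2.Stmt Γ Λ σ) × σ)
    (hc : c.1 ∈ TM2.stmts M Finset.univ) (o : Option (Γ (rdR k₀ c))) :
    (nxR M k₀ c o).1 ∈ TM2.stmts M Finset.univ := by
  classical
  obtain ⟨q, v⟩ := c
  cases q with
  | none => exact none_mem_stmts M
  | some q =>
    cases q with
    | push k f q =>
      refine TM2.stmts_trans ?_ hc
      simp only [TM2.stmts₁, Finset.mem_insert]
      exact Or.inr TM2.stmts₁_self
    | peek k f q =>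
      refine TM2.stmts_trans ?_ hc
      simp only [TM2.stmts₁, Finset.mem_insert]
      exact Or.inr TM2.stmts₁_self
    | pop k f q =>
      refine TM2.stmts_trans ?_ hc
      simp only [TM2.stmts₁, Finset.mem_insert]
      exact Or.inr TM2.stmts₁_self
    | load a q =>
      refine TM2.stmts_trans ?_ hc
      simp only [TM2.stmts₁, Finset.mem_insert]
      exact Or.inr TM2.stmts₁_self
    | branch f q₁ q₂ =>
      refine TM2.stmts_trans ?_ hc
      simp only [TM2.stmts₁, Finset.mem_insert, Finset.mem_union]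
      cases f v with
      | true => exact Or.inr (Or.inl TM2.stmts₁_self)
      | false => exact Or.inr (Or.inr TM2.stmts₁_self)
    | goto f => exact mem_stmts.2 ⟨_, TM2.stmts₁_self⟩
    | halt => exact none_mem_stmts M

omit [Fintype σ] in
theorem acR_push_mem {M : Λ → TM2.Stmt Γ Λ σ} {k₀ : K} (c : Option (TM2.Stmt Γ Λ σ) × σ)
    (hc : c.1 ∈ TM2.stmts M Finset.univ) (k : K) (a : Γ k) (h : acR c k = .push a) :
    (⟨k, a⟩ : Σ k, Γ k) ∈ usedS M k₀ := by
  obtain ⟨q, v⟩ := c
  cases q with
  | none => simp [acR] at h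
  | some q =>
    cases q with
    | push k' f q =>
      obtain ⟨l, hl⟩ := mem_stmts.1 hc
      simp only [acR] at h
      by_cases hk : k = k'
      · subst hk
        simp only [dite_true] at h
        have h' : f v = a := by injection h
        subst h'
        refine Or.inr ?_
        simp only [Set.mem_iUnion]
        exact ⟨l, _, hl, ⟨v, rfl⟩⟩
      · simp [hk] at h
    | peek k f q => simp [acR] at h
    | pop k' f q =>
      simp only [acR] at h
      by_cases hk : k = k'
      · simp [hk] at h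
      · simp [hk] at h
    | load a q => simp [acR] at h
    | branch f q₁ q₂ => simp [acR] at h
    | goto f => simp [acR] at h
    | halt => simp [acR] at h

omit [Fintype σ] in
theorem Rel.step {M : Λ → TM2.Stmt Γ Λ σ} {k₀ : K}
    {s : (Option (TM2.Stmt Γ Λ σ) × σ) × (∀ k, List (Γ k))}
    {s' : CC M × (K → List (AA M k₀))} (h : Rel M k₀ s s') :
    Rel M k₀ (mstep M k₀ s) ((toSM M k₀).step s') := by
  obtain ⟨c, S⟩ := s
  obtain ⟨c', S'⟩ := s'
  obtain ⟨h1, h2, h3⟩ := h
  simp only at h1 h2 h3
  subst h1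
  have hread : (S' (rdR k₀ (c'.1.val, c'.2))).head?.bind (out M k₀ _) =
      (S (rdR k₀ (c'.1.val, c'.2))).head? := by
    rw [h2, List.head?_map]
    cases hS : S (rdR k₀ (c'.1.val, c'.2)) with
    | nil => rfl
    | cons a l =>
      simp only [List.head?_cons, Option.map_some, Option.bind_some]
      exact out_inj M k₀ _ a (h3 _ a (by rw [hS]; exact List.mem_cons_self))
  have hmem := nxR_mem (M := M) (k₀ := k₀) (c'.1.val, c'.2) c'.1.2
    ((S (rdR k₀ (c'.1.val, c'.2))).head?)
  refine ⟨?_, ?_, ?_⟩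
  · show nxR M k₀ (c'.1.val, c'.2) _ = _
    unfold SM.step
    simp only [toSM]
    rw [hread, dif_pos hmem]
  · intro k
    show ((toSM M k₀).ac c' k).app (S' k) = ((acR (c'.1.val, c'.2) k).app (S k)).map (inj M k₀ k)
    simp only [toSM]
    cases acR (c'.1.val, c'.2) k with
    | keep => simp only [Act.app, ActG.app]; exact h2 k
    | push a => simp only [Act.app, ActG.app, List.map_cons]; rw [h2 k]
    | pop => simp only [Act.app, ActG.app]; rw [h2 k, List.map_tail]
  · intro k x hx
    have hx' : x ∈ (acR (c'.1.val, c'.2) k).app (S k) := hx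
    cases hac : acR (c'.1.val, c'.2) k with
    | keep => rw [hac] at hx'; exact h3 k x hx'
    | push a =>
      rw [hac] at hx'
      simp only [ActG.app, List.mem_cons] at hx'
      rcases hx' with hx' | hx'
      · subst hx'
        exact acR_push_mem _ c'.1.2 k _ hac
      · exact h3 k x hx'
    | pop => rw [hac] at hx'; exact h3 k x (List.mem_of_mem_tail hx')

theorem Rel.iterate {M : Λ → TM2.Stmt Γ Λ σ} {k₀ : K}
    {s : (Option (TM2.Stmt Γ Λ σ) × σ) × (∀ k, List (Γ k))}
    {s' : CC M × (K → List (AA M k₀))} (h : Rel M k₀ s s') (n : ℕ) :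
    Rel M k₀ ((mstep M k₀)^[n] s) (((toSM M k₀).step)^[n] s') := by
  induction n with
  | zero => exact h
  | succ n ih =>
    rw [iterate_succ_apply', iterate_succ_apply']
    exact ih.step

end finite

/-- The theorem of Cook and Levin: every language in NP reduces to the satisfiability of 3-CNF
formulas by a polynomial-time function. -/
theorem cook_levin {L : Set (List Bool)} (hL : InNP L) :
    ∃ f : List Bool → List Cl, PolyTime f ∧ ∀ x, x ∈ L ↔ Sat3 (f x) := by
  classical
  obtain ⟨q, V, ⟨cmp⟩, hV⟩ := hL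
  let tm := cmp.tm
  let _ : DecidableEq tm.K := tm.kDecidableEq
  let _ : Fintype tm.K := tm.kFin
  let _ : Fintype tm.Λ := tm.ΛFin
  let _ : Fintype tm.σ := tm.σFin
  let _ : Fintype (tm.Γ tm.k₀) := tm.Γk₀Fin
  have _ : Finite (usedS tm.m tm.k₀) := (usedS_finite tm.m tm.k₀).to_subtype
  let _ : Fintype (usedS tm.m tm.k₀) := Fintype.ofFinite _
  obtain ⟨D, hD⟩ : ∃ D, ∀ l, msize (tm.m l) ≤ D :=
    ⟨∑ l, msize (tm.m l), fun l => Finset.single_le_sum (f := fun l => msize (tm.m l))
      (fun _ _ => Nat.zero_le _) (Finset.mem_univ l)⟩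
  let c₀ : CC tm.m := (⟨some (tm.m tm.main), mem_stmts.2 ⟨_, TM2.stmts₁_self⟩⟩, tm.initialState)
  let e : Option Bool → AA tm.m tm.k₀ := fun o => inj tm.m tm.k₀ tm.k₀ (cmp.inputAlphabet.symm o)
  let good : AA tm.m tm.k₀ := inj tm.m tm.k₀ tm.k₁ (cmp.outputAlphabet.symm true)
  let acc : CC tm.m → Option (AA tm.m tm.k₀) → Bool := fun _ o => decide (o = some good)
  let Q : List Bool → ℕ := fun x => q.eval x.length
  let T : List Bool → ℕ := fun x => D * cmp.time.eval (x.length + 1 + Q x)
  let W : List Bool → ℕ := fun x => T x + (x.length + 1 + Q x)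
  have hl : PolyTime fun x : List Bool => x.length := PolyTime.length PolyTime.id
  have hQ : PolyTime Q := PolyTime.polyEval q hl
  have hn : PolyTime fun x : List Bool => x.length + 1 + Q x :=
    PolyTime.add (PolyTime.succ.comp hl) hQ
  have hT : PolyTime T := PolyTime.mul (PolyTime.const D) (PolyTime.polyEval cmp.time hn)
  have hW : PolyTime W := PolyTime.add hT hn
  refine ⟨fun x => tab (toSM tm.m tm.k₀) c₀ tm.k₀ tm.k₁ e acc (T x) (Q x) (W x) x,
    polyTime_tab _ _ _ _ _ _ hT hQ hW, fun x => ?_⟩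
  rw [hV x, tab_correct _ _ _ _ _ _ _ _ _ _ (Nat.le_add_left _ _) (Nat.le_add_right _ _)]
  refine exists_congr fun y => and_congr_right fun hy => ?_
  -- the run of the machine
  have hrun := cmp.outputsFun (x, y)
  obtain ⟨⟨steps, hsteps⟩, hle⟩ := hrun
  simp only at hle
  obtain ⟨n, hn', hmr⟩ := mstep_run tm.m tm.k₀ D hD steps _ _ hsteps
  have hlen : (pairCode (x, y)).length ≤ x.length + 1 + Q x := by
    simp only [pairCode, List.length_append, List.length_map, List.length_cons]
    show x.length + (y.length + 1) ≤ x.length + 1 + q.eval x.length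
    omega
  have hnT : n ≤ T x := by
    refine hn'.trans (Nat.mul_le_mul_left D (hle.trans ?_))
    exact poly_mono cmp.time hlen
  obtain ⟨r, hr⟩ := Nat.exists_eq_add_of_le hnT
  have hfinal : (mstep tm.m tm.k₀)^[T x] (img tm.m (initList tm
      ((pairCode (x, y)).map cmp.inputAlphabet.invFun))) =
      img tm.m (haltList tm ((Computability.encodeBool (V (x, y))).map
        cmp.outputAlphabet.invFun)) := by
    rw [hr, Nat.add_comm, iterate_add_apply, hmr]
    exact mstep_halted _ _ _ _ _
  have hrel0 : Rel tm.m tm.k₀ (img tm.m (initList tm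
      ((pairCode (x, y)).map cmp.inputAlphabet.invFun))) (ini c₀ tm.k₀ e x y) := by
    refine ⟨rfl, ?_, ?_⟩
    · intro k
      by_cases hk : k = tm.k₀
      · subst hk
        have h1 : (img tm.m (initList tm
            ((pairCode (x, y)).map cmp.inputAlphabet.invFun))).2 tm.k₀ =
            (pairCode (x, y)).map cmp.inputAlphabet.invFun := by
          show (initList tm _).stk tm.k₀ = _
          unfold initList
          simp
        rw [h1, List.map_map]
        simp only [ini, if_true, pairCode, List.map_append, List.map_map, List.map_cons]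
        rfl
      · have h1 : (img tm.m (initList tm
            ((pairCode (x, y)).map cmp.inputAlphabet.invFun))).2 k = [] := by
          show (initList tm _).stk k = _
          unfold initList
          exact dif_neg hk
        rw [h1]
        simp [ini, hk]
    · intro k z hz
      by_cases hk : k = tm.k₀
      · exact Or.inl hk
      · have h1 : (img tm.m (initList tm
            ((pairCode (x, y)).map cmp.inputAlphabet.invFun))).2 k = [] := by
          show (initList tm _).stk k = _
          unfold initList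
          exact dif_neg hk
        rw [h1] at hz
        simp at hz
  have hrelT := hrel0.iterate (T x)
  rw [hfinal] at hrelT
  obtain ⟨_, hr2, hr3⟩ := hrelT
  have hstk : (img tm.m (haltList tm ((Computability.encodeBool (V (x, y))).map
      cmp.outputAlphabet.invFun))).2 tm.k₁ = [cmp.outputAlphabet.symm (V (x, y))] := by
    show (haltList tm _).stk tm.k₁ = _
    unfold haltList
    simp [Computability.encodeBool]
  have h4 := hr2 tm.k₁
  rw [hstk] at h4
  rw [h4]
  simp only [List.map_cons, List.map_nil, List.head?_cons, acc]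
  constructor
  · intro hVt
    rw [hVt]
    exact decide_eq_true rfl
  · intro h
    have h5 := of_decide_eq_true h
    have h6 : inj tm.m tm.k₀ tm.k₁ (cmp.outputAlphabet.symm (V (x, y))) = good := by
      simpa using h5
    have h7 := inj_eq (hr3 tm.k₁ _ (by rw [hstk]; exact List.mem_cons_self)) h6
    exact cmp.outputAlphabet.symm.injective h7

end Pool.Agent.H66
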