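import Pool.Agent.Lib.helper66.Compile

/-!
# Stores, data encodings, and the class of polynomial-time functions
-/

open Turing StateTransition Function

namespace Pool.Agent.H66

/-! ## Polynomially bounded functions -/

theorem poly_mono (q : Polynomial ℕ) : Monotone fun n : ℕ => q.eval n := by
  induction q using Polynomial.induction_on' with
  | add p q hp hq =>
    intro a b hab
    simp only [Polynomial.eval_add]
    exact Nat.add_le_add (hp hab) (hq hab)
  | monomial k c =>
    intro a b hab
    simp only [Polynomial.eval_monomial]
    exact Nat.mul_le_mul_left _ (Nat.pow_le_pow_left hab k)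

/-- Monotone functions bounded by a polynomial. -/
def PB (g : ℕ → ℕ) : Prop := Monotone g ∧ ∃ q : Polynomial ℕ, ∀ n, g n ≤ q.eval n

theorem PB.poly (q : Polynomial ℕ) : PB fun n => q.eval n := ⟨poly_mono q, q, fun _ => le_rfl⟩

theorem PB.const (c : ℕ) : PB fun _ => c :=
  ⟨monotone_const, Polynomial.C c, fun n => by simp⟩

theorem PB.id : PB fun n => n := ⟨monotone_id, Polynomial.X, fun n => by simp⟩

theorem PB.add {g h : ℕ → ℕ} (hg : PB g) (hh : PB h) : PB fun n => g n + h n := by
  obtain ⟨hg1, p, hp⟩ := hg
  obtain ⟨hh1, q, hq⟩ := hh
  refine ⟨hg1.add hh1, p + q, fun n => ?_⟩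
  simp only [Polynomial.eval_add]
  exact Nat.add_le_add (hp n) (hq n)

theorem PB.mul {g h : ℕ → ℕ} (hg : PB g) (hh : PB h) : PB fun n => g n * h n := by
  obtain ⟨hg1, p, hp⟩ := hg
  obtain ⟨hh1, q, hq⟩ := hh
  refine ⟨fun a b hab => Nat.mul_le_mul (hg1 hab) (hh1 hab), p * q, fun n => ?_⟩
  simp only [Polynomial.eval_mul]
  exact Nat.mul_le_mul (hp n) (hq n)

theorem PB.comp {g h : ℕ → ℕ} (hg : PB g) (hh : PB h) : PB fun n => g (h n) := by
  obtain ⟨hg1, p, hp⟩ := hg
  obtain ⟨hh1, q, hq⟩ := hh
  refine ⟨fun a b hab => hg1 (hh1 hab), p.comp q, fun n => ?_⟩
  simp only [Polynomial.eval_comp]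
  exact (hp _).trans (poly_mono p (hq n))

theorem PB.pow {g : ℕ → ℕ} (hg : PB g) (k : ℕ) : PB fun n => g n ^ k := by
  induction k with
  | zero => simpa using PB.const 1
  | succ k ih => simpa [pow_succ] using ih.mul hg

/-! ## Stores -/

/-- The store which agrees with `S` below `b`, has contents `l` from `b` on, and is empty after
that. -/
def st (S : ℕ → List Bool) (b : ℕ) (l : List (List Bool)) : ℕ → List Bool :=
  fun k => if k < b then S k else l.getD (k - b) []

theorem st_get (S : ℕ → List Bool) (b : ℕ) (l : List (List Bool)) (i : ℕ) :
    st S b l (b + i) = l.getD i [] := by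
  simp [st]

theorem st_get0 (S : ℕ → List Bool) (b : ℕ) (l : List (List Bool)) :
    st S b l b = l.getD 0 [] := by
  simp [st]

theorem st_update (S : ℕ → List Bool) (b : ℕ) (l : List (List Bool)) (i : ℕ)
    (hi : i < l.length) (v : List Bool) :
    update (st S b l) (b + i) v = st S b (l.set i v) := by
  funext k
  by_cases hk : k = b + i
  · subst hk
    simp [st, hi]
  · rw [update_of_ne hk]
    unfold st
    by_cases hkb : k < b
    · simp [hkb]
    · have : ¬ (i = k - b) := by omega
      simp [hkb, this]

theorem st_update0 (S : ℕ → List Bool) (b : ℕ) (x : List Bool) (l : List (List Bool))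
    (v : List Bool) :
    update (st S b (x :: l)) b v = st S b (v :: l) := by
  have := st_update S b (x :: l) 0 (by simp) v
  simpa using this

theorem st_pad (S : ℕ → List Bool) (b : ℕ) (l : List (List Bool)) (n : ℕ) :
    st S b (l ++ List.replicate n []) = st S b l := by
  funext k
  unfold st
  by_cases hkb : k < b
  · simp [hkb]
  · simp only [hkb, if_false]
    by_cases h : k - b < l.length
    · rw [List.getD_append _ _ _ _ h]
    · rw [List.getD_append_right _ _ _ _ (not_lt.mp h)]
      rw [List.getD_eq_default l _ (not_lt.mp h)]
      by_cases h' : k - b - l.length < n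
      · simp [List.getD_eq_getElem?_getD, h']
      · simp [List.getD_eq_getElem?_getD, h']

theorem st_split (S : ℕ → List Bool) (b : ℕ) (l l' : List (List Bool)) :
    st S b (l ++ l') = st (st S b l) (b + l.length) l' := by
  funext k
  unfold st
  by_cases h1 : k < b + l.length
  · rw [if_pos h1]
    by_cases hkb : k < b
    · simp [hkb]
    · simp only [hkb, if_false]
      rw [List.getD_append _ _ _ _ (by omega)]
  · have hkb : ¬ k < b := by omega
    rw [if_neg h1, if_neg hkb, List.getD_append_right _ _ _ _ (by omega)]
    congr 1
    omega

theorem st_eq_of_lt {S S' : ℕ → List Bool} {b : ℕ} (h : ∀ k < b, S k = S' k)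
    (l : List (List Bool)) : st S b l = st S' b l := by
  funext k
  unfold st
  by_cases hkb : k < b
  · simp [hkb, h k hkb]
  · simp [hkb]

/-! ## Elementary programs -/

theorem Run.cast {p p' : Prog ℕ} {S S' S'' : ℕ → List Bool} {t t' : ℕ} (h : Run p S S' t)
    (hp : p = p') (hS : S' = S'') (ht : t = t') : Run p' S S'' t' := by
  subst hp; subst hS; subst ht; exact h

/-- Move (and reverse) register `i` onto register `j`. -/
def mv (i j : ℕ) : Prog ℕ :=
  .loop i Option.isSome (.cond i (fun o => o == some true)
    (.seq (.pop i) (.push j true)) (.seq (.pop i) (.push j false)))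

theorem mv_run {i j : ℕ} (hij : i ≠ j) : ∀ (x : List Bool) (S : ℕ → List Bool), S i = x →
    Run (mv i j) S (update (update S j (x.reverse ++ S j)) i []) (4 * x.length + 1)
  | [], S, h => by
      have : update (update S j ([].reverse ++ S j)) i [] = S := by
        funext k
        by_cases hk : k = i
        · subst hk; simp [h]
        · simp [hk]
      rw [this]
      exact Run.loopF (by simp [h])
  | a :: x, S, h => by
      have hS1 : Run (.cond i (fun o => o == some true)
          (.seq (.pop i) (.push j true)) (.seq (.pop i) (.push j false))) S
          (update (update S i x) j (a :: S j)) (1 + 1 + 1) := by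
        have hp : Run (.pop i) S (update S i x) 1 := by
          have := Run.pop i S
          simpa [h] using this
        have hj : (update S i x) j = S j := update_of_ne hij.symm _ _
        cases a with
        | true =>
          refine Run.condT (by simp [h]) (Run.seq hp ?_)
          have := Run.push j true (update S i x)
          rwa [hj] at this
        | false =>
          refine Run.condF (by simp [h]) (Run.seq hp ?_)
          have := Run.push j false (update S i x)
          rwa [hj] at this
      have hi : (update (update S i x) j (a :: S j)) i = x := by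
        rw [update_of_ne hij, update_self]
      have hrec := mv_run hij x _ hi
      have := Run.loopT (c := Option.isSome) (by simp [h]) hS1 hrec
      have e1 : 4 * x.length + 1 + (1 + 1 + 1) + 1 = 4 * (a :: x).length + 1 := by
        simp only [List.length_cons]; omega
      refine this.cast rfl ?_ e1
      funext k
      by_cases hki : k = i
      · subst hki; simp
      · by_cases hkj : k = j
        · subst hkj; simp [hki]
        · simp [hki, hkj]

/-- Empty register `i`. -/
def clr (i : ℕ) : Prog ℕ := .loop i Option.isSome (.pop i)

theorem clr_run {i : ℕ} : ∀ (x : List Bool) (S : ℕ → List Bool), S i = x →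
    Run (clr i) S (update S i []) (2 * x.length + 1)
  | [], S, h => by
      have : update S i [] = S := by
        funext k
        by_cases hk : k = i
        · subst hk; simp [h]
        · simp [hk]
      rw [this]
      exact Run.loopF (by simp [h])
  | a :: x, S, h => by
      have hp : Run (.pop i) S (update S i x) 1 := by
        have := Run.pop i S
        simpa [h] using this
      have hrec := clr_run (i := i) x (update S i x) (by simp)
      have := Run.loopT (c := Option.isSome) (by simp [h]) hp hrec
      have e1 : 2 * x.length + 1 + 1 + 1 = 2 * (a :: x).length + 1 := by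
        simp only [List.length_cons]; omega
      exact this.cast rfl (by simp) e1

/-- Move (and reverse) register `i` onto both registers `j` and `k`. -/
def dup (i j k : ℕ) : Prog ℕ :=
  .loop i Option.isSome (.cond i (fun o => o == some true)
    (.seq (.pop i) (.seq (.push j true) (.push k true)))
    (.seq (.pop i) (.seq (.push j false) (.push k false))))

theorem dup_run {i j k : ℕ} (hij : i ≠ j) (hik : i ≠ k) (hjk : j ≠ k) :
    ∀ (x : List Bool) (S : ℕ → List Bool), S i = x →
    Run (dup i j k) S (update (update (update S k (x.reverse ++ S k)) j (x.reverse ++ S j)) i [])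
      (5 * x.length + 1)
  | [], S, h => by
      have : update (update (update S k ([].reverse ++ S k)) j ([].reverse ++ S j)) i [] = S := by
        funext l
        by_cases hl : l = i
        · subst hl; simp [h]
        · simp [hl]
      rw [this]
      exact Run.loopF (by simp [h])
  | a :: x, S, h => by
      have hS1 : Run (.cond i (fun o => o == some true)
          (.seq (.pop i) (.seq (.push j true) (.push k true)))
          (.seq (.pop i) (.seq (.push j false) (.push k false)))) S
          (update (update (update S i x) j (a :: S j)) k (a :: S k)) (1 + (1 + 1) + 1) := by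
        have hp : Run (.pop i) S (update S i x) 1 := by
          have := Run.pop i S
          simpa [h] using this
        have hj : (update S i x) j = S j := update_of_ne hij.symm _ _
        have hk : (update (update S i x) j (a :: S j)) k = S k := by
          rw [update_of_ne hjk.symm, update_of_ne hik.symm]
        have h2 : Run (.push j a) (update S i x) (update (update S i x) j (a :: S j)) 1 := by
          have := Run.push j a (update S i x)
          rwa [hj] at this
        have h3 : Run (.push k a) (update (update S i x) j (a :: S j))
            (update (update (update S i x) j (a :: S j)) k (a :: S k)) 1 := by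
          have := Run.push k a (update (update S i x) j (a :: S j))
          rwa [hk] at this
        cases a with
        | true => exact Run.condT (by simp [h]) (Run.seq hp (Run.seq h2 h3))
        | false => exact Run.condF (by simp [h]) (Run.seq hp (Run.seq h2 h3))
      have hi : (update (update (update S i x) j (a :: S j)) k (a :: S k)) i = x := by
        rw [update_of_ne hik, update_of_ne hij, update_self]
      have hrec := dup_run hij hik hjk x _ hi
      have := Run.loopT (c := Option.isSome) (by simp [h]) hS1 hrec
      have e1 : 5 * x.length + 1 + (1 + (1 + 1) + 1) + 1 = 5 * (a :: x).length + 1 := by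
        simp only [List.length_cons]; omega
      refine this.cast rfl ?_ e1
      funext l
      by_cases hli : l = i
      · subst hli; simp
      · by_cases hlj : l = j
        · subst hlj; simp [hli, hjk]
        · by_cases hlk : l = k
          · subst hlk; simp [hli, hlj]
          · simp [hli, hlj, hlk]

/-! ## Versions for the stores `st` -/

theorem push_st (S : ℕ → List Bool) (b i : ℕ) (a : Bool) (l : List (List Bool))
    (hi : i < l.length) :
    Run (.push (b + i) a) (st S b l) (st S b (l.set i (a :: l.getD i []))) 1 := by
  have := Run.push (b + i) a (st S b l)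
  rwa [st_get, st_update _ _ _ _ hi] at this

theorem pop_st (S : ℕ → List Bool) (b i : ℕ) (l : List (List Bool)) (hi : i < l.length) :
    Run (.pop (b + i)) (st S b l) (st S b (l.set i (l.getD i []).tail)) 1 := by
  have := Run.pop (b + i) (st S b l)
  rwa [st_get, st_update _ _ _ _ hi] at this

theorem mv_st (S : ℕ → List Bool) (b i j : ℕ) (l : List (List Bool)) (hi : i < l.length)
    (hj : j < l.length) (hij : i ≠ j) :
    Run (mv (b + i) (b + j)) (st S b l)
      (st S b ((l.set j ((l.getD i []).reverse ++ l.getD j [])).set i []))
      (4 * (l.getD i []).length + 1) := by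
  have := mv_run (i := b + i) (j := b + j) (by omega) _ (st S b l) rfl
  rw [st_get, st_get, st_update _ _ _ _ hj, st_update _ _ _ _ (by simpa using hi)] at this
  exact this

theorem clr_st (S : ℕ → List Bool) (b i : ℕ) (l : List (List Bool)) (hi : i < l.length) :
    Run (clr (b + i)) (st S b l) (st S b (l.set i [])) (2 * (l.getD i []).length + 1) := by
  have := clr_run (i := b + i) _ (st S b l) rfl
  rw [st_get, st_update _ _ _ _ hi] at this
  exact this

theorem dup_st (S : ℕ → List Bool) (b i j k : ℕ) (l : List (List Bool)) (hi : i < l.length)
    (hj : j < l.length) (hk : k < l.length) (hij : i ≠ j) (hik : i ≠ k) (hjk : j ≠ k) :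
    Run (dup (b + i) (b + j) (b + k)) (st S b l)
      (st S b (((l.set k ((l.getD i []).reverse ++ l.getD k [])).set j
        ((l.getD i []).reverse ++ l.getD j [])).set i []))
      (5 * (l.getD i []).length + 1) := by
  have := dup_run (i := b + i) (j := b + j) (k := b + k) (by omega) (by omega) (by omega) _
    (st S b l) rfl
  rw [st_get, st_get, st_get, st_update _ _ _ _ hk, st_update _ _ _ _ (by simpa using hj),
    st_update _ _ _ _ (by simpa using hi)] at this
  exact this

/-! ## Data -/

/-- Binary trees, the universal data type. -/
inductive T : Type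
  | nil : T
  | node (l r : T) : T

/-- The code of a tree: its nodes in preorder, an inner node giving `true` and a leaf `false`. -/
def T.enc : T → List Bool
  | .nil => [false]
  | .node l r => true :: (l.enc ++ r.enc)

/-- Types whose elements are represented by trees. -/
class Enc (α : Type) where
  /-- the tree that represents an element -/
  toT : α → T

/-- The code of an element. -/
def enc {α : Type} [Enc α] (a : α) : List Bool := (Enc.toT a).enc

instance : Enc T := ⟨fun t => t⟩
instance : Enc Unit := ⟨fun _ => .nil⟩
instance : Enc Bool := ⟨fun b => if b then .node .nil .nil else .nil⟩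
instance {α β : Type} [Enc α] [Enc β] : Enc (α × β) := ⟨fun p => .node (Enc.toT p.1) (Enc.toT p.2)⟩

/-- Lists as right combs. -/
def listToT {α : Type} [Enc α] : List α → T
  | [] => .nil
  | a :: l => .node (Enc.toT a) (listToT l)

instance {α : Type} [Enc α] : Enc (List α) := ⟨listToT⟩

/-- Numbers in unary. -/
def natToT : ℕ → T
  | 0 => .nil
  | n + 1 => .node .nil (natToT n)

instance : Enc ℕ := ⟨natToT⟩

/-- Options. -/
def optToT {α : Type} [Enc α] : Option α → T
  | none => .nil
  | some a => .node (Enc.toT a) .nil

instance {α : Type} [Enc α] : Enc (Option α) := ⟨optToT⟩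

section
variable {α β : Type} [Enc α] [Enc β]

@[simp] theorem enc_T (t : T) : enc t = t.enc := rfl
@[simp] theorem enc_unit (u : Unit) : enc u = [false] := rfl
@[simp] theorem enc_true : enc true = [true, false, false] := rfl
@[simp] theorem enc_false : enc false = [false] := rfl
theorem enc_pair (a : α) (b : β) : enc (a, b) = true :: (enc a ++ enc b) := rfl
theorem enc_prod (p : α × β) : enc p = true :: (enc p.1 ++ enc p.2) := rfl
@[simp] theorem enc_nil : enc ([] : List α) = [false] := rfl
@[simp] theorem enc_cons (a : α) (l : List α) : enc (a :: l) = true :: (enc a ++ enc l) := rfl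
@[simp] theorem enc_zero : enc (0 : ℕ) = [false] := rfl
@[simp] theorem enc_succ (n : ℕ) : enc (n + 1) = true :: false :: enc n := rfl
@[simp] theorem enc_none : enc (none : Option α) = [false] := rfl
@[simp] theorem enc_some (a : α) : enc (some a) = true :: (enc a ++ [false]) := rfl

theorem T.enc_ne_nil : ∀ t : T, t.enc ≠ []
  | .nil => by simp [T.enc]
  | .node _ _ => by simp [T.enc]

theorem enc_length_pos (a : α) : 1 ≤ (enc a).length :=
  List.length_pos_of_ne_nil (T.enc_ne_nil _)

theorem enc_nat_length : ∀ n : ℕ, (enc n).length = 2 * n + 1
  | 0 => rfl
  | n + 1 => by rw [enc_succ]; simp [enc_nat_length n]; omega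

end

/-! ## The class of polynomial-time functions -/

/-- Polynomial-time functions between encoded types: there is a while program which, placed at
any base register, replaces the code of the argument by the code of the value, using only
registers above the base, in time bounded by a polynomial in the length of the code. -/
def PolyTime {α β : Type} [Enc α] [Enc β] (f : α → β) : Prop :=
  ∃ (P : ℕ → Prog ℕ) (N : ℕ) (g : ℕ → ℕ), PB g ∧
    (∀ b, (P b).Uses {k | k < b + N}) ∧
    ∀ (b : ℕ) (S : ℕ → List Bool) (a : α), ∃ t, t ≤ g (enc a).length ∧
      Run (P b) (st S b [enc a]) (st S b [enc (f a)]) t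

theorem Run.length_le {p : Prog ℕ} {S S' : ℕ → List Bool} {t : ℕ} (h : Run p S S' t) (k : ℕ) :
    (S' k).length ≤ (S k).length + t := by
  induction h with
  | skip S => omega
  | push r a S =>
    by_cases hk : k = r
    · subst hk; simp
    · simp [update_of_ne hk]
  | pop r S =>
    by_cases hk : k = r
    · subst hk; simp; omega
    · simp [update_of_ne hk]
  | seq _ _ ih₁ ih₂ => omega
  | condT _ _ ih => omega
  | condF _ _ ih => omega
  | loopF _ => omega
  | loopT _ _ _ ih ih' => omega

theorem PolyTime.size {α β : Type} [Enc α] [Enc β] {f : α → β} (hf : PolyTime f) :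
    ∃ g, PB g ∧ ∀ a, (enc (f a)).length ≤ g (enc a).length := by
  obtain ⟨P, N, g, hg, _, h⟩ := hf
  refine ⟨fun n => n + g n, PB.id.add hg, fun a => ?_⟩
  obtain ⟨t, ht, hrun⟩ := h 0 (fun _ => []) a
  have := hrun.length_le 0
  simp only [st_get0] at this
  simp only [List.getD_cons_zero] at this
  show (enc (f a)).length ≤ (enc a).length + g (enc a).length
  omega

/-- The final theorem of this part: polynomial-time functions are computed by TM2 machines in
polynomial time. -/
theorem PolyTime.tm2 {α β : Type} [Enc α] [Enc β] {f : α → β} (hf : PolyTime f) :
    Nonempty (TM2ComputableInPolyTime (enc : α → List Bool) (enc : β → List Bool) f) := by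
  obtain ⟨P, N, g, ⟨_, q, hq⟩, hU, h⟩ := hf
  refine tm2_of_run N (P 0) ((hU 0).mono fun k hk => ?_) enc enc f q fun a => ?_
  · simp only [Set.mem_ofPred_eq, zero_add] at hk ⊢
    omega
  · obtain ⟨t, ht, hrun⟩ := h 0 (fun _ => []) a
    refine ⟨t, ht.trans (hq _), ?_⟩
    have key : ∀ x : List Bool, st (fun _ => []) 0 [x] = update (fun _ => []) 0 x := by
      intro x
      funext k
      rcases Nat.eq_zero_or_pos k with hk | hk
      · subst hk
        simp [st]
      · rw [update_of_ne (by omega)]
        simp only [st, Nat.not_lt_zero, if_false]
        rw [List.getD_eq_default]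
        simp only [List.length_singleton]
        omega
    rwa [key, key] at hrun

end Pool.Agent.H66
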