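import Pool.Agent.Lib.helper66.Basic

/-!
# Closure properties of the class of polynomial-time functions
-/

open Turing StateTransition Function

namespace Pool.Agent.H66

section
variable {α β γ δ : Type} [Enc α] [Enc β] [Enc γ] [Enc δ]

theorem PolyTime.of_eq {f g : α → β} (hf : PolyTime f) (h : ∀ a, f a = g a) : PolyTime g := by
  have : f = g := funext h
  rwa [← this]

theorem PolyTime.comp {f : α → β} {g : β → γ} (hg : PolyTime g) (hf : PolyTime f) :
    PolyTime fun a => g (f a) := by
  obtain ⟨sf, hsf, hsf'⟩ := hf.size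
  obtain ⟨P, N, u, hu, hU, h⟩ := hf
  obtain ⟨P', N', u', hu', hU', h'⟩ := hg
  refine ⟨fun b => .seq (P b) (P' b), N + N', fun n => u n + u' (sf n), ?_, ?_, ?_⟩
  · exact hu.add (hu'.comp hsf)
  · intro b
    exact ⟨(hU b).mono fun k hk => by simp only [Set.mem_ofPred_eq] at hk ⊢; omega,
      (hU' b).mono fun k hk => by simp only [Set.mem_ofPred_eq] at hk ⊢; omega⟩
  · intro b S a
    obtain ⟨t, ht, hr⟩ := h b S a
    obtain ⟨t', ht', hr'⟩ := h' b S (f a)
    exact ⟨t + t', Nat.add_le_add ht (ht'.trans (hu'.1 (hsf' a))), hr.seq hr'⟩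

theorem PolyTime.id : PolyTime fun a : α => a :=
  ⟨fun _ => .skip, 0, fun _ => 1, PB.const 1, fun _ => trivial, fun _ _ _ => ⟨1, le_rfl, .skip _⟩⟩

/-- A type whose codes agree with those of another. -/
theorem PolyTime.of_enc_eq {f : α → β} (h : ∀ a, enc (f a) = enc a) : PolyTime f :=
  ⟨fun _ => .skip, 0, fun _ => 1, PB.const 1, fun _ => trivial, fun _ S a =>
    ⟨1, le_rfl, by rw [h]; exact .skip _⟩⟩

/-- Push a word. -/
def pushAll (i : ℕ) : List Bool → Prog ℕ
  | [] => .skip
  | a :: l => .seq (pushAll i l) (.push i a)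

theorem pushAll_run (i : ℕ) : ∀ (w : List Bool) (S : ℕ → List Bool),
    Run (pushAll i w) S (update S i (w ++ S i)) (w.length + 1)
  | [], S => by simpa [pushAll] using Run.skip S
  | a :: w, S => by
      have h1 := pushAll_run i w S
      have h2 := Run.push i a (update S i (w ++ S i))
      exact (h1.seq h2).cast rfl (by simp) (by simp)

theorem pushAll_uses (i : ℕ) (s : Set ℕ) (hi : i ∈ s) : ∀ w : List Bool, (pushAll i w).Uses s
  | [] => trivial
  | _ :: w => ⟨pushAll_uses i s hi w, hi⟩

theorem pushAll_st (S : ℕ → List Bool) (b i : ℕ) (w : List Bool) (l : List (List Bool))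
    (hi : i < l.length) :
    Run (pushAll (b + i) w) (st S b l) (st S b (l.set i (w ++ l.getD i []))) (w.length + 1) := by
  have := pushAll_run (b + i) w (st S b l)
  rwa [st_get, st_update _ _ _ _ hi] at this

theorem PolyTime.const (c : β) : PolyTime fun _ : α => c := by
  refine ⟨fun b => .seq (clr (b + 0)) (pushAll (b + 0) (enc c)), 1,
    fun n => 2 * n + 1 + ((enc c).length + 1), ?_, ?_, ?_⟩
  · exact (((PB.const 2).mul PB.id).add (PB.const 1)).add (PB.const _)
  · intro b
    have hb : b + 0 ∈ {k | k < b + 1} := by simp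
    exact ⟨⟨hb, hb⟩, pushAll_uses _ _ hb _⟩
  · intro b S a
    have h1 : Run (clr (b + 0)) (st S b [enc a]) (st S b [[]]) (2 * (enc a).length + 1) :=
      (clr_st S b 0 [enc a] (by simp)).cast rfl (by simp) (by simp)
    have h2 : Run (pushAll (b + 0) (enc c)) (st S b [[]]) (st S b [enc c])
        ((enc c).length + 1) :=
      (pushAll_st S b 0 (enc c) [[]] (by simp)).cast rfl (by simp) rfl
    exact ⟨_, le_rfl, h1.seq h2⟩

/-- Sub-calls above one register. -/
theorem call1 {P : ℕ → Prog ℕ} {f : α → β} {g : ℕ → ℕ}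
    (h : ∀ (b : ℕ) (S : ℕ → List Bool) (a : α), ∃ t, t ≤ g (enc a).length ∧
      Run (P b) (st S b [enc a]) (st S b [enc (f a)]) t)
    (b : ℕ) (S : ℕ → List Bool) (x : List Bool) (a : α) : ∃ t, t ≤ g (enc a).length ∧
      Run (P (b + 1)) (st S b [x, enc a]) (st S b [x, enc (f a)]) t := by
  have := h (b + 1) (st S b [x]) a
  have e : ∀ y, st (st S b [x]) (b + 1) [y] = st S b [x, y] :=
    fun y => (st_split S b [x] [y]).symm
  rwa [e, e] at this

theorem st_pad1 (S : ℕ → List Bool) (b : ℕ) (x : List Bool) :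
    st S b [x, [], [], []] = st S b [x] := st_pad S b [x] 3

theorem st_pad2 (S : ℕ → List Bool) (b : ℕ) (x y : List Bool) :
    st S b [x, y, [], []] = st S b [x, y] := st_pad S b [x, y] 2

/-- Copy register `b` to register `b + 1`. -/
def cpy (b : ℕ) : Prog ℕ := .seq (mv (b + 0) (b + 2)) (dup (b + 2) (b + 0) (b + 1))

theorem cpy_run (S : ℕ → List Bool) (b : ℕ) (x : List Bool) :
    Run (cpy b) (st S b [x]) (st S b [x, x]) (9 * x.length + 2) := by
  have h1 : Run (mv (b + 0) (b + 2)) (st S b [x, [], [], []]) (st S b [[], [], x.reverse, []])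
      (4 * x.length + 1) :=
    (mv_st S b 0 2 [x, [], [], []] (by simp) (by simp) (by simp)).cast rfl (by simp) (by simp)
  have h2 : Run (dup (b + 2) (b + 0) (b + 1)) (st S b [[], [], x.reverse, []])
      (st S b [x, x, [], []]) (5 * x.length + 1) :=
    (dup_st S b 2 0 1 [[], [], x.reverse, []] (by simp) (by simp) (by simp) (by simp) (by simp)
      (by simp)).cast rfl (by simp) (by simp)
  rw [st_pad1] at h1
  rw [st_pad2] at h2
  exact (h1.seq h2).cast rfl rfl (by omega)

theorem cpy_uses (b : ℕ) (s : Set ℕ) (h0 : b + 0 ∈ s) (h1 : b + 1 ∈ s) (h2 : b + 2 ∈ s) :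
    (cpy b).Uses s := ⟨⟨h0, h0, ⟨h0, h2⟩, ⟨h0, h2⟩⟩, ⟨h2, h2, ⟨h2, h0, h1⟩, ⟨h2, h0, h1⟩⟩⟩

theorem mv_uses (i j : ℕ) (s : Set ℕ) (hi : i ∈ s) (hj : j ∈ s) : (mv i j).Uses s :=
  ⟨hi, hi, ⟨hi, hj⟩, ⟨hi, hj⟩⟩

theorem clr_uses (i : ℕ) (s : Set ℕ) (hi : i ∈ s) : (clr i).Uses s := ⟨hi, hi⟩

/-- Swap registers `b` and `b + 1`. -/
def swp (b : ℕ) : Prog ℕ :=
  .seq (mv (b + 1) (b + 2)) (.seq (mv (b + 0) (b + 3)) (.seq (mv (b + 2) (b + 0))
    (mv (b + 3) (b + 1))))

theorem swp_run (S : ℕ → List Bool) (b : ℕ) (x y : List Bool) :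
    Run (swp b) (st S b [x, y]) (st S b [y, x]) (8 * x.length + 8 * y.length + 4) := by
  have h1 : Run (mv (b + 1) (b + 2)) (st S b [x, y, [], []]) (st S b [x, [], y.reverse, []])
      (4 * y.length + 1) :=
    (mv_st S b 1 2 [x, y, [], []] (by simp) (by simp) (by simp)).cast rfl (by simp) (by simp)
  have h2 : Run (mv (b + 0) (b + 3)) (st S b [x, [], y.reverse, []])
      (st S b [[], [], y.reverse, x.reverse]) (4 * x.length + 1) :=
    (mv_st S b 0 3 [x, [], y.reverse, []] (by simp) (by simp) (by simp)).cast rfl (by simp)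
      (by simp)
  have h3 : Run (mv (b + 2) (b + 0)) (st S b [[], [], y.reverse, x.reverse])
      (st S b [y, [], [], x.reverse]) (4 * y.length + 1) :=
    (mv_st S b 2 0 [[], [], y.reverse, x.reverse] (by simp) (by simp) (by simp)).cast rfl
      (by simp) (by simp)
  have h4 : Run (mv (b + 3) (b + 1)) (st S b [y, [], [], x.reverse])
      (st S b [y, x, [], []]) (4 * x.length + 1) :=
    (mv_st S b 3 1 [y, [], [], x.reverse] (by simp) (by simp) (by simp)).cast rfl
      (by simp) (by simp)
  rw [st_pad2] at h1 h4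
  exact (h1.seq (h2.seq (h3.seq h4))).cast rfl rfl (by omega)

theorem swp_uses (b : ℕ) (s : Set ℕ) (h0 : b + 0 ∈ s) (h1 : b + 1 ∈ s) (h2 : b + 2 ∈ s)
    (h3 : b + 3 ∈ s) : (swp b).Uses s :=
  ⟨mv_uses _ _ _ h1 h2, mv_uses _ _ _ h0 h3, mv_uses _ _ _ h2 h0, mv_uses _ _ _ h3 h1⟩

/-- Replace the contents of the registers `b` and `b + 1` by their concatenation. -/
def cat (b : ℕ) : Prog ℕ :=
  .seq (mv (b + 0) (b + 2)) (.seq (mv (b + 1) (b + 3)) (.seq (mv (b + 3) (b + 0))
    (mv (b + 2) (b + 0))))

theorem cat_run (S : ℕ → List Bool) (b : ℕ) (x y : List Bool) :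
    Run (cat b) (st S b [x, y]) (st S b [x ++ y]) (8 * x.length + 8 * y.length + 4) := by
  have h1 : Run (mv (b + 0) (b + 2)) (st S b [x, y, [], []]) (st S b [[], y, x.reverse, []])
      (4 * x.length + 1) :=
    (mv_st S b 0 2 [x, y, [], []] (by simp) (by simp) (by simp)).cast rfl (by simp) (by simp)
  have h2 : Run (mv (b + 1) (b + 3)) (st S b [[], y, x.reverse, []])
      (st S b [[], [], x.reverse, y.reverse]) (4 * y.length + 1) :=
    (mv_st S b 1 3 [[], y, x.reverse, []] (by simp) (by simp) (by simp)).cast rfl (by simp)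
      (by simp)
  have h3 : Run (mv (b + 3) (b + 0)) (st S b [[], [], x.reverse, y.reverse])
      (st S b [y, [], x.reverse, []]) (4 * y.length + 1) :=
    (mv_st S b 3 0 [[], [], x.reverse, y.reverse] (by simp) (by simp) (by simp)).cast rfl
      (by simp) (by simp)
  have h4 : Run (mv (b + 2) (b + 0)) (st S b [y, [], x.reverse, []])
      (st S b [x ++ y, [], [], []]) (4 * x.length + 1) :=
    (mv_st S b 2 0 [y, [], x.reverse, []] (by simp) (by simp) (by simp)).cast rfl
      (by simp) (by simp)
  rw [st_pad2] at h1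
  rw [st_pad1] at h4
  exact (h1.seq (h2.seq (h3.seq h4))).cast rfl rfl (by omega)

theorem cat_uses (b : ℕ) (s : Set ℕ) (h0 : b + 0 ∈ s) (h1 : b + 1 ∈ s) (h2 : b + 2 ∈ s)
    (h3 : b + 3 ∈ s) : (cat b).Uses s :=
  ⟨mv_uses _ _ _ h0 h2, mv_uses _ _ _ h1 h3, mv_uses _ _ _ h3 h0, mv_uses _ _ _ h2 h0⟩

theorem PolyTime.pair {f : α → β} {g : α → γ} (hf : PolyTime f) (hg : PolyTime g) :
    PolyTime fun a => (f a, g a) := by
  obtain ⟨sf, hsf, hsf'⟩ := hf.size
  obtain ⟨sg, hsg, hsg'⟩ := hg.size
  obtain ⟨P, N, u, hu, hU, h⟩ := hf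
  obtain ⟨P', N', u', hu', hU', h'⟩ := hg
  refine ⟨fun b => .seq (cpy b) (.seq (P (b + 1)) (.seq (swp b) (.seq (P' (b + 1))
    (.seq (cat b) (.push (b + 0) true))))), N + N' + 4,
    fun n => (17 * n + 11) + u n + u' n + 16 * sf n + 8 * sg n, ?_, ?_, ?_⟩
  · repeat first
      | exact PB.const _
      | exact PB.id
      | assumption
      | apply PB.add
      | apply PB.mul
  · intro b
    have h0 : b + 0 ∈ {k | k < b + (N + N' + 4)} := by simp only [Set.mem_ofPred_eq]; omega
    have h1 : b + 1 ∈ {k | k < b + (N + N' + 4)} := by simp only [Set.mem_ofPred_eq]; omega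
    have h2 : b + 2 ∈ {k | k < b + (N + N' + 4)} := by simp only [Set.mem_ofPred_eq]; omega
    have h3 : b + 3 ∈ {k | k < b + (N + N' + 4)} := by simp only [Set.mem_ofPred_eq]; omega
    exact ⟨cpy_uses _ _ h0 h1 h2,
      (hU (b + 1)).mono fun k hk => by simp only [Set.mem_ofPred_eq] at hk ⊢; omega,
      swp_uses _ _ h0 h1 h2 h3,
      (hU' (b + 1)).mono fun k hk => by simp only [Set.mem_ofPred_eq] at hk ⊢; omega,
      cat_uses _ _ h0 h1 h2 h3, h0⟩
  · intro b S a
    have r1 := cpy_run S b (enc a)
    obtain ⟨t, ht, r2⟩ := call1 h b S (enc a) a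
    have r3 := swp_run S b (enc a) (enc (f a))
    obtain ⟨t', ht', r4⟩ := call1 h' b S (enc (f a)) a
    have r5 := cat_run S b (enc (f a)) (enc (g a))
    have r6 : Run (.push (b + 0) true) (st S b [enc (f a) ++ enc (g a)])
        (st S b [enc (f a, g a)]) 1 :=
      (push_st S b 0 true [enc (f a) ++ enc (g a)] (by simp)).cast rfl
        (by simp [enc_pair]) rfl
    refine ⟨_, ?_, r1.seq (r2.seq (r3.seq (r4.seq (r5.seq r6))))⟩
    have e1 := hsf' a
    have e2 := hsg' a
    simp only
    omega

/-- A conditional. -/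
theorem PolyTime.ite {c : α → Bool} {f g : α → β} (hc : PolyTime c) (hf : PolyTime f)
    (hg : PolyTime g) : PolyTime fun a => if c a then f a else g a := by
  obtain ⟨P0, N0, u0, hu0, hU0, h0⟩ := hc
  obtain ⟨P, N, u, hu, hU, h⟩ := hf
  obtain ⟨P', N', u', hu', hU', h'⟩ := hg
  refine ⟨fun b => .seq (cpy b) (.seq (P0 (b + 1)) (.cond (b + 1) (fun o => o == some true)
    (.seq (clr (b + 1)) (P b)) (.seq (clr (b + 1)) (P' b)))), N0 + N + N' + 4,
    fun n => (9 * n + 11) + u0 n + u n + u' n, ?_, ?_, ?_⟩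
  · repeat first
      | exact PB.const _
      | exact PB.id
      | assumption
      | apply PB.add
      | apply PB.mul
  · intro b
    have m0 : b + 0 ∈ {k | k < b + (N0 + N + N' + 4)} := by simp only [Set.mem_ofPred_eq]; omega
    have m1 : b + 1 ∈ {k | k < b + (N0 + N + N' + 4)} := by simp only [Set.mem_ofPred_eq]; omega
    have m2 : b + 2 ∈ {k | k < b + (N0 + N + N' + 4)} := by simp only [Set.mem_ofPred_eq]; omega
    exact ⟨cpy_uses _ _ m0 m1 m2,
      (hU0 (b + 1)).mono fun k hk => by simp only [Set.mem_ofPred_eq] at hk ⊢; omega,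
      m1, ⟨clr_uses _ _ m1,
      (hU b).mono fun k hk => by simp only [Set.mem_ofPred_eq] at hk ⊢; omega⟩,
      clr_uses _ _ m1,
      (hU' b).mono fun k hk => by simp only [Set.mem_ofPred_eq] at hk ⊢; omega⟩
  · intro b S a
    have r1 := cpy_run S b (enc a)
    obtain ⟨t0, ht0, r2⟩ := call1 h0 b S (enc a) a
    have hpad : st S b [enc a, []] = st S b [enc a] := st_pad S b [enc a] 1
    have r3 : Run (clr (b + 1)) (st S b [enc a, enc (c a)]) (st S b [enc a])
        (2 * (enc (c a)).length + 1) :=
      (clr_st S b 1 [enc a, enc (c a)] (by simp)).cast rfl (by simp [hpad]) (by simp)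
    have hget : (st S b [enc a, enc (c a)]) (b + 1) = enc (c a) := by
      rw [st_get]; rfl
    show ∃ t, _ ∧ Run _ _ (st S b [enc (if c a = true then f a else g a)]) t
    cases hca : c a with
    | true =>
      rw [if_pos rfl]
      obtain ⟨t, ht, r4⟩ := h b S a
      rw [hca] at r3 hget r2
      refine ⟨_, ?_, r1.seq (r2.seq (Run.condT (by rw [hget]; rfl) (r3.seq r4)))⟩
      simp only [enc_true, List.length_cons, List.length_nil]; omega
    | false =>
      rw [if_neg (by simp)]
      obtain ⟨t, ht, r4⟩ := h' b S a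
      rw [hca] at r3 hget r2
      refine ⟨_, ?_, r1.seq (r2.seq (Run.condF (by rw [hget]; rfl) (r3.seq r4)))⟩
      simp only [enc_false, List.length_cons, List.length_nil]; omega

/-! ### Projections -/

/-- The loop which moves one tree. -/
def splitLoop (b : ℕ) : Prog ℕ :=
  .loop (b + 2) Option.isSome (.cond (b + 0) (fun o => o == some true)
    (.seq (.pop (b + 0)) (.seq (.push (b + 1) true) (.push (b + 2) true)))
    (.seq (.pop (b + 0)) (.seq (.push (b + 1) false) (.pop (b + 2)))))

theorem splitLoop_run (S : ℕ → List Bool) (b : ℕ) : ∀ (t : T) (rest acc cs : List Bool)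
    (S' : ℕ → List Bool) (n : ℕ),
    Run (splitLoop b) (st S b [rest, t.enc.reverse ++ acc, cs]) S' n →
    Run (splitLoop b) (st S b [t.enc ++ rest, acc, true :: cs]) S' (n + 5 * t.enc.length)
  | .nil, rest, acc, cs, S', n, h => by
      have r1 : Run (.pop (b + 0)) (st S b [T.nil.enc ++ rest, acc, true :: cs])
          (st S b [rest, acc, true :: cs]) 1 :=
        (pop_st S b 0 _ (by simp)).cast rfl (by simp [T.enc]) rfl
      have r2 : Run (.push (b + 1) false) (st S b [rest, acc, true :: cs])
          (st S b [rest, T.nil.enc.reverse ++ acc, true :: cs]) 1 :=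
        (push_st S b 1 false _ (by simp)).cast rfl (by simp [T.enc]) rfl
      have r3 : Run (.pop (b + 2)) (st S b [rest, T.nil.enc.reverse ++ acc, true :: cs])
          (st S b [rest, T.nil.enc.reverse ++ acc, cs]) 1 :=
        (pop_st S b 2 _ (by simp)).cast rfl (by simp [T.enc]) rfl
      have r4 := Run.condF (r := b + 0) (c := fun o => o == some true)
        (p := .seq (.pop (b + 0)) (.seq (.push (b + 1) true) (.push (b + 2) true)))
        (by rw [st_get]; simp [T.enc]) (r1.seq (r2.seq r3))
      have := Run.loopT (r := b + 2) (c := Option.isSome) (by rw [st_get]; simp) r4 h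
      exact this.cast rfl rfl (by simp [T.enc])
  | .node l r, rest, acc, cs, S', n, h => by
      have r1 : Run (.pop (b + 0)) (st S b [(T.node l r).enc ++ rest, acc, true :: cs])
          (st S b [l.enc ++ (r.enc ++ rest), acc, true :: cs]) 1 :=
        (pop_st S b 0 _ (by simp)).cast rfl (by simp [T.enc]) rfl
      have r2 : Run (.push (b + 1) true) (st S b [l.enc ++ (r.enc ++ rest), acc, true :: cs])
          (st S b [l.enc ++ (r.enc ++ rest), true :: acc, true :: cs]) 1 :=
        (push_st S b 1 true _ (by simp)).cast rfl (by simp) rfl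
      have r3 : Run (.push (b + 2) true)
          (st S b [l.enc ++ (r.enc ++ rest), true :: acc, true :: cs])
          (st S b [l.enc ++ (r.enc ++ rest), true :: acc, true :: true :: cs]) 1 :=
        (push_st S b 2 true _ (by simp)).cast rfl (by simp) rfl
      have r4 := Run.condT (r := b + 0) (c := fun o => o == some true)
        (q := .seq (.pop (b + 0)) (.seq (.push (b + 1) false) (.pop (b + 2))))
        (by rw [st_get]; simp [T.enc]) (r1.seq (r2.seq r3))
      have e : (T.node l r).enc.reverse ++ acc = r.enc.reverse ++ (l.enc.reverse ++ (true :: acc)) := by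
        simp [T.enc]
      rw [e] at h
      have h1 := splitLoop_run S b r rest (l.enc.reverse ++ (true :: acc)) cs S' n h
      have h2 := splitLoop_run S b l (r.enc ++ rest) (true :: acc) (true :: cs) S' _ h1
      have := Run.loopT (r := b + 2) (c := Option.isSome) (by rw [st_get]; simp) r4 h2
      exact this.cast rfl rfl (by simp [T.enc]; omega)

/-- Split the code of an inner node into the (reversed) code of its left child and the code of
its right child. -/
def split (b : ℕ) : Prog ℕ :=
  .seq (.pop (b + 0)) (.seq (.push (b + 2) true) (splitLoop b))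

theorem split_run (S : ℕ → List Bool) (b : ℕ) (l r : T) :
    Run (split b) (st S b [(T.node l r).enc]) (st S b [r.enc, l.enc.reverse])
      (5 * l.enc.length + 3) := by
  have r1 : Run (.pop (b + 0)) (st S b [(T.node l r).enc, [], []])
      (st S b [l.enc ++ r.enc, [], []]) 1 :=
    (pop_st S b 0 _ (by simp)).cast rfl (by simp [T.enc]) rfl
  have r2 : Run (.push (b + 2) true) (st S b [l.enc ++ r.enc, [], []])
      (st S b [l.enc ++ r.enc, [], [true]]) 1 :=
    (push_st S b 2 true _ (by simp)).cast rfl (by simp) rfl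
  have r3 := splitLoop_run S b l r.enc [] [] (st S b [r.enc, l.enc.reverse ++ [], []]) 1
    (Run.loopF (by rw [st_get]; simp))
  have e1 : st S b [(T.node l r).enc, [], []] = st S b [(T.node l r).enc] :=
    st_pad S b [_] 2
  have e2 : st S b [r.enc, l.enc.reverse ++ [], []] = st S b [r.enc, l.enc.reverse] := by
    rw [List.append_nil]; exact st_pad S b [_, _] 1
  rw [e1] at r1
  rw [e2] at r3
  exact (r1.seq (r2.seq r3)).cast rfl rfl (by omega)

theorem split_uses (b : ℕ) (s : Set ℕ) (h0 : b + 0 ∈ s) (h1 : b + 1 ∈ s) (h2 : b + 2 ∈ s) :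
    (split b).Uses s := ⟨h0, h2, h2, h0, ⟨h0, h1, h2⟩, h0, h1, h2⟩

/-- Keep the left child. -/
def leftP (b : ℕ) : Prog ℕ := .seq (split b) (.seq (clr (b + 0)) (mv (b + 1) (b + 0)))

theorem leftP_run (S : ℕ → List Bool) (b : ℕ) (l r : T) :
    Run (leftP b) (st S b [(T.node l r).enc]) (st S b [l.enc])
      (9 * l.enc.length + 2 * r.enc.length + 5) := by
  have r1 := split_run S b l r
  have r2 : Run (clr (b + 0)) (st S b [r.enc, l.enc.reverse]) (st S b [[], l.enc.reverse])
      (2 * r.enc.length + 1) := (clr_st S b 0 _ (by simp)).cast rfl (by simp) (by simp)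
  have e1 : st S b [l.enc, []] = st S b [l.enc] := st_pad S b [_] 1
  have r3 : Run (mv (b + 1) (b + 0)) (st S b [[], l.enc.reverse]) (st S b [l.enc])
      (4 * l.enc.length + 1) :=
    (mv_st S b 1 0 _ (by simp) (by simp) (by simp)).cast rfl (by simp [e1]) (by simp)
  exact (r1.seq (r2.seq r3)).cast rfl rfl (by omega)

/-- Keep the right child. -/
def rightP (b : ℕ) : Prog ℕ := .seq (split b) (clr (b + 1))

theorem rightP_run (S : ℕ → List Bool) (b : ℕ) (l r : T) :
    Run (rightP b) (st S b [(T.node l r).enc]) (st S b [r.enc])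
      (7 * l.enc.length + 4) := by
  have r1 := split_run S b l r
  have e1 : st S b [r.enc, []] = st S b [r.enc] := st_pad S b [_] 1
  have r2 : Run (clr (b + 1)) (st S b [r.enc, l.enc.reverse]) (st S b [r.enc])
      (2 * l.enc.length + 1) := (clr_st S b 1 _ (by simp)).cast rfl (by simp [e1]) (by simp)
  exact (r1.seq r2).cast rfl rfl (by omega)

/-- Functions which are the left child. -/
theorem polyTime_left {f : α → β} (hf : ∀ a, ∃ r, Enc.toT a = T.node (Enc.toT (f a)) r) :
    PolyTime f := by
  refine ⟨leftP, 3, fun n => 9 * n + 5, ?_, ?_, ?_⟩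
  · exact ((PB.const 9).mul PB.id).add (PB.const 5)
  · intro b
    have m0 : b + 0 ∈ {k | k < b + 3} := by simp only [Set.mem_ofPred_eq]; omega
    have m1 : b + 1 ∈ {k | k < b + 3} := by simp only [Set.mem_ofPred_eq]; omega
    have m2 : b + 2 ∈ {k | k < b + 3} := by simp only [Set.mem_ofPred_eq]; omega
    exact ⟨split_uses _ _ m0 m1 m2, clr_uses _ _ m0, mv_uses _ _ _ m1 m0⟩
  · intro b S a
    obtain ⟨r, hr⟩ := hf a
    have := leftP_run S b (Enc.toT (f a)) r
    rw [← hr] at this
    refine ⟨_, ?_, this⟩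
    have e : (enc a).length = (Enc.toT (f a)).enc.length + r.enc.length + 1 := by
      unfold enc; rw [hr]; simp [T.enc]
    rw [e]
    beta_reduce
    omega

/-- Functions which are the right child. -/
theorem polyTime_right {f : α → β} (hf : ∀ a, ∃ l, Enc.toT a = T.node l (Enc.toT (f a))) :
    PolyTime f := by
  refine ⟨rightP, 3, fun n => 7 * n + 4, ?_, ?_, ?_⟩
  · exact ((PB.const 7).mul PB.id).add (PB.const 4)
  · intro b
    have m0 : b + 0 ∈ {k | k < b + 3} := by simp only [Set.mem_ofPred_eq]; omega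
    have m1 : b + 1 ∈ {k | k < b + 3} := by simp only [Set.mem_ofPred_eq]; omega
    have m2 : b + 2 ∈ {k | k < b + 3} := by simp only [Set.mem_ofPred_eq]; omega
    exact ⟨split_uses _ _ m0 m1 m2, clr_uses _ _ m1⟩
  · intro b S a
    obtain ⟨l, hl⟩ := hf a
    have := rightP_run S b l (Enc.toT (f a))
    rw [← hl] at this
    refine ⟨_, ?_, this⟩
    have e : (enc a).length = l.enc.length + (Enc.toT (f a)).enc.length + 1 := by
      unfold enc; rw [hl]; simp [T.enc]
    rw [e]
    beta_reduce
    omega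

theorem PolyTime.fst : PolyTime (fun p : α × β => p.1) := polyTime_left fun _ => ⟨_, rfl⟩
theorem PolyTime.snd : PolyTime (fun p : α × β => p.2) := polyTime_right fun _ => ⟨_, rfl⟩

/-- A case distinction on the shape of the tree, run on the argument itself. -/
theorem PolyTime.branch {f g : α → β} {P P' : ℕ → Prog ℕ} {N N' : ℕ} {u u' : ℕ → ℕ}
    (hu : PB u) (hu' : PB u')
    (hU : ∀ b, (P b).Uses {k | k < b + N}) (hU' : ∀ b, (P' b).Uses {k | k < b + N'})
    (h : ∀ b S a, Enc.toT a ≠ T.nil → ∃ t, t ≤ u (enc a).length ∧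
      Run (P b) (st S b [enc a]) (st S b [enc (f a)]) t)
    (h' : ∀ b S a, Enc.toT a = T.nil → ∃ t, t ≤ u' (enc a).length ∧
      Run (P' b) (st S b [enc a]) (st S b [enc (g a)]) t)
    (F : α → β) (hF : ∀ a, Enc.toT a ≠ T.nil → F a = f a) (hF' : ∀ a, Enc.toT a = T.nil → F a = g a) :
    PolyTime F := by
  refine ⟨fun b => .cond (b + 0) (fun o => o == some true) (P b) (P' b), N + N' + 1,
    fun n => u n + u' n + 1, (hu.add hu').add (PB.const 1), ?_, ?_⟩
  · intro b
    refine ⟨by simp only [Set.mem_ofPred_eq]; omega,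
      (hU b).mono fun k hk => by simp only [Set.mem_ofPred_eq] at hk ⊢; omega,
      (hU' b).mono fun k hk => by simp only [Set.mem_ofPred_eq] at hk ⊢; omega⟩
  · intro b S a
    by_cases ha : Enc.toT a = T.nil
    · obtain ⟨t, ht, r⟩ := h' b S a ha
      refine ⟨t + 1, by beta_reduce; omega, ?_⟩
      rw [hF' a ha]
      refine Run.condF ?_ r
      rw [st_get]
      simp [enc, ha, T.enc]
    · obtain ⟨t, ht, r⟩ := h b S a ha
      refine ⟨t + 1, by beta_reduce; omega, ?_⟩
      rw [hF a ha]
      refine Run.condT ?_ r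
      rw [st_get]
      cases hT : Enc.toT a with
      | nil => exact absurd hT ha
      | node l r => simp [enc, hT, T.enc]

/-- The program that replaces the register by a constant. -/
def constP (w : List Bool) (b : ℕ) : Prog ℕ := .seq (clr (b + 0)) (pushAll (b + 0) w)

theorem constP_run (w : List Bool) (b : ℕ) (S : ℕ → List Bool) (x : List Bool) :
    Run (constP w b) (st S b [x]) (st S b [w]) (2 * x.length + 1 + (w.length + 1)) := by
  have h1 : Run (clr (b + 0)) (st S b [x]) (st S b [[]]) (2 * x.length + 1) :=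
    (clr_st S b 0 [x] (by simp)).cast rfl (by simp) (by simp)
  have h2 : Run (pushAll (b + 0) w) (st S b [[]]) (st S b [w]) (w.length + 1) :=
    (pushAll_st S b 0 w [[]] (by simp)).cast rfl (by simp) rfl
  exact h1.seq h2

theorem constP_uses (w : List Bool) (b : ℕ) : (constP w b).Uses {k | k < b + 1} := by
  have hb : b + 0 ∈ {k | k < b + 1} := by simp
  exact ⟨⟨hb, hb⟩, pushAll_uses _ _ hb _⟩

theorem leftP_uses (b : ℕ) : (leftP b).Uses {k | k < b + 3} := by
  have m0 : b + 0 ∈ {k | k < b + 3} := by simp only [Set.mem_ofPred_eq]; omega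
  have m1 : b + 1 ∈ {k | k < b + 3} := by simp only [Set.mem_ofPred_eq]; omega
  have m2 : b + 2 ∈ {k | k < b + 3} := by simp only [Set.mem_ofPred_eq]; omega
  exact ⟨split_uses _ _ m0 m1 m2, clr_uses _ _ m0, mv_uses _ _ _ m1 m0⟩

theorem rightP_uses (b : ℕ) : (rightP b).Uses {k | k < b + 3} := by
  have m0 : b + 0 ∈ {k | k < b + 3} := by simp only [Set.mem_ofPred_eq]; omega
  have m1 : b + 1 ∈ {k | k < b + 3} := by simp only [Set.mem_ofPred_eq]; omega
  have m2 : b + 2 ∈ {k | k < b + 3} := by simp only [Set.mem_ofPred_eq]; omega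
  exact ⟨split_uses _ _ m0 m1 m2, clr_uses _ _ m1⟩

/-- The left child, or a constant for leaves. -/
theorem polyTime_leftD {f : α → β} (d : β)
    (hf : ∀ a, Enc.toT a ≠ T.nil → ∃ r, Enc.toT a = T.node (Enc.toT (f a)) r)
    (hd : ∀ a, Enc.toT a = T.nil → f a = d) : PolyTime f := by
  refine PolyTime.branch (f := f) (g := fun _ => d) (P := leftP) (P' := constP (enc d))
    (u := fun n => 9 * n + 5) (u' := fun n => 2 * n + 1 + ((enc d).length + 1))
    (((PB.const 9).mul PB.id).add (PB.const 5))
    ((((PB.const 2).mul PB.id).add (PB.const 1)).add (PB.const _))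
    leftP_uses (constP_uses _) ?_ ?_ f (fun _ _ => rfl) hd
  · intro b S a ha
    obtain ⟨r, hr⟩ := hf a ha
    have := leftP_run S b (Enc.toT (f a)) r
    rw [← hr] at this
    refine ⟨_, ?_, this⟩
    have e : (enc a).length = (Enc.toT (f a)).enc.length + r.enc.length + 1 := by
      unfold enc; rw [hr]; simp [T.enc]
    rw [e]
    beta_reduce
    omega
  · intro b S a _
    exact ⟨_, le_rfl, constP_run _ _ _ _⟩

/-- The right child, or a constant for leaves. -/
theorem polyTime_rightD {f : α → β} (d : β)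
    (hf : ∀ a, Enc.toT a ≠ T.nil → ∃ l, Enc.toT a = T.node l (Enc.toT (f a)))
    (hd : ∀ a, Enc.toT a = T.nil → f a = d) : PolyTime f := by
  refine PolyTime.branch (f := f) (g := fun _ => d) (P := rightP) (P' := constP (enc d))
    (u := fun n => 7 * n + 4) (u' := fun n => 2 * n + 1 + ((enc d).length + 1))
    (((PB.const 7).mul PB.id).add (PB.const 4))
    ((((PB.const 2).mul PB.id).add (PB.const 1)).add (PB.const _))
    rightP_uses (constP_uses _) ?_ ?_ f (fun _ _ => rfl) hd
  · intro b S a ha
    obtain ⟨l, hl⟩ := hf a ha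
    have := rightP_run S b l (Enc.toT (f a))
    rw [← hl] at this
    refine ⟨_, ?_, this⟩
    have e : (enc a).length = l.enc.length + (Enc.toT (f a)).enc.length + 1 := by
      unfold enc; rw [hl]; simp [T.enc]
    rw [e]
    beta_reduce
    omega
  · intro b S a _
    exact ⟨_, le_rfl, constP_run _ _ _ _⟩

/-- The shape test. -/
theorem polyTime_test {f : α → β} (c d : β) (hc : ∀ a, Enc.toT a ≠ T.nil → f a = c)
    (hd : ∀ a, Enc.toT a = T.nil → f a = d) : PolyTime f := by
  refine PolyTime.branch (f := fun _ => c) (g := fun _ => d) (P := constP (enc c))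
    (P' := constP (enc d))
    (u := fun n => 2 * n + 1 + ((enc c).length + 1))
    (u' := fun n => 2 * n + 1 + ((enc d).length + 1))
    ((((PB.const 2).mul PB.id).add (PB.const 1)).add (PB.const _))
    ((((PB.const 2).mul PB.id).add (PB.const 1)).add (PB.const _))
    (constP_uses _) (constP_uses _) ?_ ?_ f hc hd
  · intro b S a _
    exact ⟨_, le_rfl, constP_run _ _ _ _⟩
  · intro b S a _
    exact ⟨_, le_rfl, constP_run _ _ _ _⟩

theorem PolyTime.headD (d : α) : PolyTime (fun l : List α => l.headD d) := by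
  refine polyTime_leftD d ?_ ?_
  · intro l hl
    cases l with
    | nil => exact absurd rfl hl
    | cons a l => exact ⟨_, rfl⟩
  · intro l hl
    cases l with
    | nil => rfl
    | cons a l => exact absurd hl (by simp [Enc.toT, listToT])

theorem PolyTime.tail : PolyTime (fun l : List α => l.tail) := by
  refine polyTime_rightD [] ?_ ?_
  · intro l hl
    cases l with
    | nil => exact absurd rfl hl
    | cons a l => exact ⟨_, rfl⟩
  · intro l hl
    cases l with
    | nil => rfl
    | cons a l => exact absurd hl (by simp [Enc.toT, listToT])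

theorem PolyTime.isEmpty : PolyTime (fun l : List α => l.isEmpty) := by
  refine polyTime_test false true ?_ ?_
  · intro l hl
    cases l with
    | nil => exact absurd rfl hl
    | cons a l => rfl
  · intro l hl
    cases l with
    | nil => rfl
    | cons a l => exact absurd hl (by simp [Enc.toT, listToT])

theorem PolyTime.pred : PolyTime (fun n : ℕ => n - 1) := by
  refine polyTime_rightD 0 ?_ ?_
  · intro n hn
    cases n with
    | zero => exact absurd rfl hn
    | succ n => exact ⟨_, rfl⟩
  · intro n hn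
    cases n with
    | zero => rfl
    | succ n => exact absurd hn (by simp [Enc.toT, natToT])

theorem PolyTime.isZero : PolyTime (fun n : ℕ => n == 0) := by
  refine polyTime_test false true ?_ ?_
  · intro n hn
    cases n with
    | zero => exact absurd rfl hn
    | succ n => rfl
  · intro n hn
    cases n with
    | zero => rfl
    | succ n => exact absurd hn (by simp [Enc.toT, natToT])

theorem PolyTime.optIsSome : PolyTime (fun o : Option α => o.isSome) := by
  refine polyTime_test true false ?_ ?_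
  · intro o ho
    cases o with
    | none => exact absurd rfl ho
    | some a => rfl
  · intro o ho
    cases o with
    | none => rfl
    | some a => exact absurd ho (by simp [Enc.toT, optToT])

theorem PolyTime.optGetD (d : α) : PolyTime (fun o : Option α => o.getD d) := by
  refine polyTime_leftD d ?_ ?_
  · intro o ho
    cases o with
    | none => exact absurd rfl ho
    | some a => exact ⟨_, rfl⟩
  · intro o ho
    cases o with
    | none => rfl
    | some a => exact absurd ho (by simp [Enc.toT, optToT])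

/-- The cons operation is pairing. -/
theorem PolyTime.cons : PolyTime (fun p : α × List α => p.1 :: p.2) :=
  PolyTime.of_enc_eq fun p => by rw [enc_prod]; rfl

theorem PolyTime.succ : PolyTime (fun n : ℕ => n + 1) := by
  have h : PolyTime (fun n : ℕ => ((), n)) := (PolyTime.const ()).pair PolyTime.id
  have h2 : PolyTime (fun p : Unit × ℕ => p.2 + 1) := PolyTime.of_enc_eq fun p => by
    rw [enc_prod]; rfl
  exact h2.comp h

theorem PolyTime.some : PolyTime (fun a : α => some a) := by
  have h : PolyTime (fun a : α => (a, ())) := PolyTime.id.pair (PolyTime.const ())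
  have h2 : PolyTime (fun p : α × Unit => Option.some p.1) := PolyTime.of_enc_eq fun p => by
    rw [enc_prod]; rfl
  exact h2.comp h

end

end Pool.Agent.H66
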