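import Pool.Agent.Lib.helper66.Prog

/-!
# From while programs to polynomial-time TM2 machines
-/

open Turing StateTransition Function

namespace Pool.Agent.H66

/-- Renaming of registers. -/
def Prog.map {K K' : Type} (g : K → K') : Prog K → Prog K'
  | .skip => .skip
  | .push r a => .push (g r) a
  | .pop r => .pop (g r)
  | .seq p q => .seq (p.map g) (q.map g)
  | .cond r c p q => .cond (g r) c (p.map g) (q.map g)
  | .loop r c p => .loop (g r) c (p.map g)

/-- All registers of the program lie in a set. -/
def Prog.Uses {K : Type} (s : Set K) : Prog K → Prop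
  | .skip => True
  | .push r _ => r ∈ s
  | .pop r => r ∈ s
  | .seq p q => p.Uses s ∧ q.Uses s
  | .cond r _ p q => r ∈ s ∧ p.Uses s ∧ q.Uses s
  | .loop r _ p => r ∈ s ∧ p.Uses s

theorem Prog.Uses.mono {K : Type} {s s' : Set K} (hs : s ⊆ s') :
    ∀ {p : Prog K}, p.Uses s → p.Uses s'
  | .skip, _ => trivial
  | .push _ _, h => hs h
  | .pop _, h => hs h
  | .seq _ _, h => ⟨h.1.mono hs, h.2.mono hs⟩
  | .cond _ _ _ _, h => ⟨hs h.1, h.2.1.mono hs, h.2.2.mono hs⟩
  | .loop _ _ _, h => ⟨hs h.1, h.2.mono hs⟩

theorem Run.map {K K' : Type} [DecidableEq K] [DecidableEq K'] {s : Set K} {g : K → K'}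
    (hg : Set.InjOn g s) {p : Prog K} {S S' : K → List Bool} {t : ℕ} (h : Run p S S' t) :
    p.Uses s → ∀ U : K' → List Bool, (∀ k ∈ s, U (g k) = S k) →
      ∃ U', Run (p.map g) U U' t ∧ (∀ k ∈ s, U' (g k) = S' k) ∧
        ∀ k', k' ∉ g '' s → U' k' = U k' := by
  induction h with
  | skip S =>
    intro _ U hU
    exact ⟨U, Run.skip U, hU, fun _ _ => rfl⟩
  | push r a S =>
    intro hr U hU
    refine ⟨_, Run.push (g r) a U, ?_, ?_⟩
    · intro k hk
      by_cases hkr : k = r
      · subst hkr
        simp [hU k hk]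
      · have : g k ≠ g r := fun e => hkr (hg hk hr e)
        simp [update_of_ne this, update_of_ne hkr, hU k hk]
    · intro k' hk'
      have : k' ≠ g r := fun e => hk' (e ▸ ⟨r, hr, rfl⟩)
      simp [update_of_ne this]
  | pop r S =>
    intro hr U hU
    refine ⟨_, Run.pop (g r) U, ?_, ?_⟩
    · intro k hk
      by_cases hkr : k = r
      · subst hkr
        simp [hU k hk]
      · have : g k ≠ g r := fun e => hkr (hg hk hr e)
        simp [update_of_ne this, update_of_ne hkr, hU k hk]
    · intro k' hk'
      have : k' ≠ g r := fun e => hk' (e ▸ ⟨r, hr, rfl⟩)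
      simp [update_of_ne this]
  | seq h₁ h₂ ih₁ ih₂ =>
    intro hu U hU
    obtain ⟨U', h1, h2, h3⟩ := ih₁ hu.1 U hU
    obtain ⟨U'', h4, h5, h6⟩ := ih₂ hu.2 U' h2
    exact ⟨U'', Run.seq h1 h4, h5, fun k' hk' => (h6 k' hk').trans (h3 k' hk')⟩
  | condT hc h ih =>
    intro hu U hU
    obtain ⟨U', h1, h2, h3⟩ := ih hu.2.1 U hU
    exact ⟨U', Run.condT (by rw [hU _ hu.1]; exact hc) h1, h2, h3⟩
  | condF hc h ih =>
    intro hu U hU
    obtain ⟨U', h1, h2, h3⟩ := ih hu.2.2 U hU
    exact ⟨U', Run.condF (by rw [hU _ hu.1]; exact hc) h1, h2, h3⟩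
  | loopF hc =>
    intro hu U hU
    exact ⟨U, Run.loopF (by rw [hU _ hu.1]; exact hc), hU, fun _ _ => rfl⟩
  | loopT hc h h' ih ih' =>
    intro hu U hU
    obtain ⟨U', h1, h2, h3⟩ := ih hu.2 U hU
    obtain ⟨U'', h4, h5, h6⟩ := ih' hu U' h2
    exact ⟨U'', Run.loopT (by rw [hU _ hu.1]; exact hc) h1 h4, h5,
      fun k' hk' => (h6 k' hk').trans (h3 k' hk')⟩

/-- The machine of a program on finitely many stacks. -/
noncomputable def machine {K : Type} [DecidableEq K] [Fintype K] (k₀ : K) (p : Prog K) :
    FinTM2 where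
  K := K
  k₀ := k₀
  k₁ := k₀
  Γ := fun _ => Bool
  Λ := Option (Lab p)
  main := some (entry p)
  σ := Option Bool
  initialState := none
  Γk₀Fin := inferInstanceAs (Fintype Bool)
  m := fun l => match l with
    | none => .load (fun _ => none) .halt
    | some l => code p some none l

theorem dite_cast_aux {K : Type} [DecidableEq K] (k₀ k : K) (x : List Bool)
    (hh : k = k₀ → List Bool = List Bool) :
    (if h : k = k₀ then (hh h).mpr x else []) = update (fun _ => []) k₀ x k := by
  by_cases h : k = k₀
  · rw [dif_pos h, h, update_self]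
    rfl
  · rw [dif_neg h, update_of_ne h]

theorem initList_machine {K : Type} [DecidableEq K] [Fintype K] (k₀ : K) (p : Prog K)
    (x : List Bool) :
    initList (machine k₀ p) x =
      (⟨some (some (entry p)), none, update (fun _ => []) k₀ x⟩ :
        TM2.Cfg (fun _ : K => Bool) (Option (Lab p)) (Option Bool)) := by
  have h : (initList (machine k₀ p) x).stk = update (fun _ => []) k₀ x := by
    funext k
    exact dite_cast_aux k₀ k x _
  exact congrArg (fun S => (⟨some (some (entry p)), none, S⟩ :
        TM2.Cfg (fun _ : K => Bool) (Option (Lab p)) (Option Bool))) h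

theorem haltList_machine {K : Type} [DecidableEq K] [Fintype K] (k₀ : K) (p : Prog K)
    (x : List Bool) :
    haltList (machine k₀ p) x =
      (⟨none, none, update (fun _ => []) k₀ x⟩ :
        TM2.Cfg (fun _ : K => Bool) (Option (Lab p)) (Option Bool)) := by
  have h : (haltList (machine k₀ p) x).stk = update (fun _ => []) k₀ x := by
    funext k
    exact dite_cast_aux k₀ k x _
  exact congrArg (fun S => (⟨none, none, S⟩ :
        TM2.Cfg (fun _ : K => Bool) (Option (Lab p)) (Option Bool))) h

/-- A program with a polynomial bound on its running time gives a polynomial-time machine. -/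
theorem tm2_of_run_fin {K : Type} [DecidableEq K] [Fintype K] (k₀ : K) (p : Prog K)
    {α β : Type} (ea : α → List Bool) (eb : β → List Bool) (f : α → β) (q : Polynomial ℕ)
    (h : ∀ a, ∃ t, t ≤ q.eval (ea a).length ∧
      Run p (update (fun _ => []) k₀ (ea a)) (update (fun _ => []) k₀ (eb (f a))) t) :
    Nonempty (TM2ComputableInPolyTime ea eb f) := by
  classical
  refine ⟨{ tm := machine k₀ p
            inputAlphabet := Equiv.refl Bool
            outputAlphabet := Equiv.refl Bool
            time := q + 1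
            outputsFun := fun a => ?_ }⟩
  have hb := h a
  choose t ht hrun using hb
  have hex := sim hrun (L := Option (Lab p)) some none (machine k₀ p).m (fun l => rfl) none
  choose v' hv' using hex
  have h1 : StepsTo (TM2.step (machine k₀ p).m) (t + 1)
      (⟨some (some (entry p)), none, update (fun _ => []) k₀ (ea a)⟩ :
        TM2.Cfg (fun _ : K => Bool) (Option (Lab p)) (Option Bool))
      ⟨none, none, update (fun _ => []) k₀ (eb (f a))⟩ := by
    exact StepsTo.trans hv' (StepsTo.one rfl)
  refine ⟨⟨t + 1, ?_⟩, ?_⟩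
  · have h2 := h1.iterate
    have e1 : List.map (Equiv.refl Bool).invFun (ea a) = ea a := List.map_id _
    have e2 : List.map (Equiv.refl Bool).invFun (eb (f a)) = eb (f a) := List.map_id _
    have e3 : initList (machine k₀ p) (List.map (Equiv.refl Bool).invFun (ea a)) =
        (⟨some (some (entry p)), none, update (fun _ => []) k₀ (ea a)⟩ :
          TM2.Cfg (fun _ : K => Bool) (Option (Lab p)) (Option Bool)) :=
      (congrArg (fun z => initList (machine k₀ p) z) e1).trans (initList_machine k₀ p _)
    have e4 : haltList (machine k₀ p) (List.map (Equiv.refl Bool).invFun (eb (f a))) =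
        (⟨none, none, update (fun _ => []) k₀ (eb (f a))⟩ :
          TM2.Cfg (fun _ : K => Bool) (Option (Lab p)) (Option Bool)) :=
      (congrArg (fun z => haltList (machine k₀ p) z) e2).trans (haltList_machine k₀ p _)
    refine Eq.trans (congrArg (fun z => (flip bind (machine k₀ p).step)^[t + 1] (some z)) e3) ?_
    refine Eq.trans h2 ?_
    exact (congrArg some e4).symm
  · simpa using ht

/-- The same for programs whose registers are natural numbers. -/
theorem tm2_of_run (N : ℕ) (p : Prog ℕ) (hp : p.Uses {k | k < N + 1})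
    {α β : Type} (ea : α → List Bool) (eb : β → List Bool) (f : α → β) (q : Polynomial ℕ)
    (h : ∀ a, ∃ t, t ≤ q.eval (ea a).length ∧
      Run p (update (fun _ => []) 0 (ea a)) (update (fun _ => []) 0 (eb (f a))) t) :
    Nonempty (TM2ComputableInPolyTime ea eb f) := by
  let g : ℕ → Fin (N + 1) := fun k => Fin.ofNat (N + 1) k
  have hg : Set.InjOn g {k | k < N + 1} := by
    intro a ha b hb hab
    have := congrArg Fin.val hab
    simp only [g, Fin.val_ofNat] at this
    rwa [Nat.mod_eq_of_lt ha, Nat.mod_eq_of_lt hb] at this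
  have hsurj : ∀ k' : Fin (N + 1), k' ∈ g '' {k | k < N + 1} := by
    intro k'
    refine ⟨k'.val, k'.isLt, ?_⟩
    apply Fin.ext
    simp [g]
  have key : ∀ y : List Bool, ∀ k ∈ {k | k < N + 1},
      (update (fun _ : Fin (N + 1) => ([] : List Bool)) (g 0) y) (g k)
        = (update (fun _ : ℕ => ([] : List Bool)) 0 y) k := by
    intro y k hk
    by_cases hk0 : k = 0
    · subst hk0
      simp
    · have : g k ≠ g 0 := fun e => hk0 (hg hk (Nat.succ_pos N) e)
      simp [update_of_ne this, update_of_ne hk0]
  refine tm2_of_run_fin (g 0) (p.map g) ea eb f q ?_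
  intro a
  obtain ⟨t, ht, hrun⟩ := h a
  obtain ⟨U', h1, h2, h3⟩ := hrun.map hg hp (update (fun _ => []) (g 0) (ea a)) (key _)
  refine ⟨t, ht, ?_⟩
  have : U' = update (fun _ => []) (g 0) (eb (f a)) := by
    funext k'
    obtain ⟨k, hk, rfl⟩ := hsurj k'
    rw [h2 k hk, key _ k hk]
  rw [← this]
  exact h1

end Pool.Agent.H66
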