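import Pool.Agent.Lib.helper66.Closure

/-!
# Bounded iteration, folds, and a library of polynomial-time list functions
-/

open Turing StateTransition Function

namespace Pool.Agent.H66

section
variable {α β γ δ : Type} [Enc α] [Enc β] [Enc γ] [Enc δ]

/-- The loop of the iteration. -/
def iterLoop (P : ℕ → Prog ℕ) (b : ℕ) : Prog ℕ :=
  .loop (b + 0) (fun o => o == some true) (.seq (.pop (b + 0)) (.seq (.pop (b + 0)) (P (b + 1))))

theorem iterLoop_run {P : ℕ → Prog ℕ} {step : β → β} {g : ℕ → ℕ}
    (h : ∀ (b : ℕ) (S : ℕ → List Bool) (a : β), ∃ t, t ≤ g (enc a).length ∧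
      Run (P b) (st S b [enc a]) (st S b [enc (step a)]) t) (b : ℕ) (S : ℕ → List Bool)
    (G : ℕ) : ∀ (m : ℕ) (y : β), (∀ i < m, g (enc (step^[i] y)).length ≤ G) →
    ∃ t, t ≤ m * (G + 3) + 1 ∧
      Run (iterLoop P b) (st S b [enc m, enc y]) (st S b [enc 0, enc (step^[m] y)]) t
  | 0, y, _ => ⟨1, by omega, Run.loopF (by rw [st_get]; rfl)⟩
  | m + 1, y, hy => by
      have r1 : Run (.pop (b + 0)) (st S b [enc (m + 1), enc y])
          (st S b [false :: enc m, enc y]) 1 :=
        (pop_st S b 0 _ (by simp)).cast rfl (by simp) rfl
      have r2 : Run (.pop (b + 0)) (st S b [false :: enc m, enc y])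
          (st S b [enc m, enc y]) 1 :=
        (pop_st S b 0 _ (by simp)).cast rfl (by simp) rfl
      obtain ⟨t, ht, r3⟩ := call1 h b S (enc m) y
      have ht' : t ≤ G := ht.trans (hy 0 (Nat.succ_pos m))
      obtain ⟨t', ht'', r4⟩ := iterLoop_run h b S G m (step y) (fun i hi => by
        rw [← iterate_succ_apply]; exact hy (i + 1) (by omega))
      refine ⟨t' + (1 + (1 + t)) + 1, ?_, ?_⟩
      · have : (m + 1) * (G + 3) = m * (G + 3) + (G + 3) := by ring
        rw [this]
        omega
      · rw [iterate_succ_apply]
        exact Run.loopT (by rw [st_get]; simp) (r1.seq (r2.seq r3)) r4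

/-- Bounded iteration. -/
theorem PolyTime.iterate {n : α → ℕ} {ini : α → β} {step : β → β} (hn : PolyTime n)
    (hi : PolyTime ini) (hs : PolyTime step) (bd : ℕ → ℕ) (hbd : PB bd)
    (hb : ∀ a i, i ≤ n a → (enc (step^[i] (ini a))).length ≤ bd (enc a).length) :
    PolyTime fun a => step^[n a] (ini a) := by
  obtain ⟨sn, hsn, hsn'⟩ := hn.size
  obtain ⟨si, hsi, hsi'⟩ := hi.size
  obtain ⟨P0, N0, u0, hu0, hU0, h0⟩ := hn
  obtain ⟨P1, N1, u1, hu1, hU1, h1⟩ := hi
  obtain ⟨P2, N2, u2, hu2, hU2, h2⟩ := hs
  refine ⟨fun b => .seq (cpy b) (.seq (P0 (b + 1)) (.seq (swp b) (.seq (P1 (b + 1))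
    (.seq (iterLoop P2 b) (.seq (.pop (b + 0)) (.seq (mv (b + 1) (b + 2))
      (mv (b + 2) (b + 0)))))))),
    N0 + N1 + N2 + 4, fun n => (17 * n + 10) + u0 n + 8 * sn n + u1 n +
      (sn n * (u2 (bd n) + 3)) + 8 * bd n, ?_, ?_, ?_⟩
  · have hc : PB fun n => u2 (bd n) := hu2.comp hbd
    repeat first
      | exact PB.const _
      | exact PB.id
      | assumption
      | apply PB.add
      | apply PB.mul
  · intro b
    have m0 : b + 0 ∈ {k | k < b + (N0 + N1 + N2 + 4)} := by
      simp only [Set.mem_ofPred_eq]; omega
    have m1 : b + 1 ∈ {k | k < b + (N0 + N1 + N2 + 4)} := by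
      simp only [Set.mem_ofPred_eq]; omega
    have m2 : b + 2 ∈ {k | k < b + (N0 + N1 + N2 + 4)} := by
      simp only [Set.mem_ofPred_eq]; omega
    have m3 : b + 3 ∈ {k | k < b + (N0 + N1 + N2 + 4)} := by
      simp only [Set.mem_ofPred_eq]; omega
    exact ⟨cpy_uses _ _ m0 m1 m2,
      (hU0 (b + 1)).mono fun k hk => by simp only [Set.mem_ofPred_eq] at hk ⊢; omega,
      swp_uses _ _ m0 m1 m2 m3,
      (hU1 (b + 1)).mono fun k hk => by simp only [Set.mem_ofPred_eq] at hk ⊢; omega,
      ⟨m0, m0, m0,
        (hU2 (b + 1)).mono fun k hk => by simp only [Set.mem_ofPred_eq] at hk ⊢; omega⟩,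
      m0, mv_uses _ _ _ m1 m2, mv_uses _ _ _ m2 m0⟩
  · intro b S a
    have r1 := cpy_run S b (enc a)
    obtain ⟨t0, ht0, r2⟩ := call1 h0 b S (enc a) a
    have r3 := swp_run S b (enc a) (enc (n a))
    obtain ⟨t1, ht1, r4⟩ := call1 h1 b S (enc (n a)) a
    obtain ⟨t2, ht2, r5⟩ := iterLoop_run h2 b S (u2 (bd (enc a).length)) (n a) (ini a)
      (fun i hi => hu2.1 (hb a i hi.le))
    have r6 : Run (.pop (b + 0)) (st S b [enc 0, enc (step^[n a] (ini a))])
        (st S b [[], enc (step^[n a] (ini a)), []]) 1 := by
      have e : st S b [[], enc (step^[n a] (ini a)), []] =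
          st S b [[], enc (step^[n a] (ini a))] := st_pad S b [_, _] 1
      rw [e]
      exact (pop_st S b 0 _ (by simp)).cast rfl (by simp) rfl
    have r7 : Run (mv (b + 1) (b + 2)) (st S b [[], enc (step^[n a] (ini a)), []])
        (st S b [[], [], (enc (step^[n a] (ini a))).reverse])
        (4 * (enc (step^[n a] (ini a))).length + 1) :=
      (mv_st S b 1 2 _ (by simp) (by simp) (by simp)).cast rfl (by simp) (by simp)
    have r8 : Run (mv (b + 2) (b + 0)) (st S b [[], [], (enc (step^[n a] (ini a))).reverse])
        (st S b [enc (step^[n a] (ini a))])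
        (4 * (enc (step^[n a] (ini a))).length + 1) := by
      have e : st S b [enc (step^[n a] (ini a)), [], []] =
          st S b [enc (step^[n a] (ini a))] := st_pad S b [_] 2
      exact (mv_st S b 2 0 _ (by simp) (by simp) (by simp)).cast rfl (by simp [e]) (by simp)
    refine ⟨_, ?_, r1.seq (r2.seq (r3.seq (r4.seq (r5.seq (r6.seq (r7.seq r8))))))⟩
    have e1 := hsn' a
    have e2 := hb a (n a) le_rfl
    have e3 : n a ≤ sn (enc a).length := by
      have := enc_nat_length (n a)
      omega
    have e4 : n a * (u2 (bd (enc a).length) + 3) ≤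
        sn (enc a).length * (u2 (bd (enc a).length) + 3) := Nat.mul_le_mul_right _ e3
    beta_reduce
    omega

/-- The program computing the length of the code. -/
def lenLoop (b : ℕ) : Prog ℕ :=
  .loop (b + 0) Option.isSome (.seq (.pop (b + 0)) (.seq (.push (b + 1) false)
    (.push (b + 1) true)))

theorem lenLoop_run (b : ℕ) (S : ℕ → List Bool) : ∀ (x : List Bool) (m : ℕ),
    Run (lenLoop b) (st S b [x, enc m]) (st S b [[], enc (m + x.length)]) (4 * x.length + 1)
  | [], m => Run.loopF (by rw [st_get]; rfl)
  | a :: x, m => by
      have r1 : Run (.pop (b + 0)) (st S b [a :: x, enc m]) (st S b [x, enc m]) 1 :=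
        (pop_st S b 0 _ (by simp)).cast rfl (by simp) rfl
      have r2 : Run (.push (b + 1) false) (st S b [x, enc m]) (st S b [x, false :: enc m]) 1 :=
        (push_st S b 1 false _ (by simp)).cast rfl (by simp) rfl
      have r3 : Run (.push (b + 1) true) (st S b [x, false :: enc m])
          (st S b [x, enc (m + 1)]) 1 :=
        (push_st S b 1 true _ (by simp)).cast rfl (by simp) rfl
      have r4 := lenLoop_run b S x (m + 1)
      have := Run.loopT (r := b + 0) (c := Option.isSome) (by rw [st_get]; rfl)
        (r1.seq (r2.seq r3)) r4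
      refine this.cast rfl ?_ ?_
      · simp only [List.length_cons]
        rw [show m + 1 + x.length = m + (x.length + 1) by omega]
      · simp only [List.length_cons]; omega

theorem PolyTime.encLen : PolyTime fun a : α => (enc a).length := by
  refine ⟨fun b => .seq (.push (b + 1) false) (.seq (lenLoop b) (.seq (mv (b + 1) (b + 2))
    (mv (b + 2) (b + 0)))), 3, fun n => 20 * n + 12, ?_, ?_, ?_⟩
  · exact ((PB.const 20).mul PB.id).add (PB.const 12)
  · intro b
    have m0 : b + 0 ∈ {k | k < b + 3} := by simp only [Set.mem_ofPred_eq]; omega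
    have m1 : b + 1 ∈ {k | k < b + 3} := by simp only [Set.mem_ofPred_eq]; omega
    have m2 : b + 2 ∈ {k | k < b + 3} := by simp only [Set.mem_ofPred_eq]; omega
    exact ⟨m1, ⟨m0, m0, m1, m1⟩, mv_uses _ _ _ m1 m2, mv_uses _ _ _ m2 m0⟩
  · intro b S a
    have e0 : st S b [enc a, []] = st S b [enc a] := st_pad S b [_] 1
    have r1 : Run (.push (b + 1) false) (st S b [enc a]) (st S b [enc a, enc 0]) 1 := by
      rw [← e0]
      exact (push_st S b 1 false _ (by simp)).cast rfl (by simp) rfl
    have r2 := lenLoop_run b S (enc a) 0
    rw [Nat.zero_add] at r2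
    have e1 : st S b [[], enc (enc a).length, []] = st S b [[], enc (enc a).length] :=
      st_pad S b [_, _] 1
    have r3 : Run (mv (b + 1) (b + 2)) (st S b [[], enc (enc a).length])
        (st S b [[], [], (enc (enc a).length).reverse]) (4 * (enc (enc a).length).length + 1) := by
      rw [← e1]
      exact (mv_st S b 1 2 _ (by simp) (by simp) (by simp)).cast rfl (by simp) (by simp)
    have e2 : st S b [enc (enc a).length, [], []] = st S b [enc (enc a).length] :=
      st_pad S b [_] 2
    have r4 : Run (mv (b + 2) (b + 0)) (st S b [[], [], (enc (enc a).length).reverse])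
        (st S b [enc (enc a).length]) (4 * (enc (enc a).length).length + 1) := by
      rw [← e2]
      exact (mv_st S b 2 0 _ (by simp) (by simp) (by simp)).cast rfl (by simp) (by simp)
    refine ⟨_, ?_, r1.seq (r2.seq (r3.seq r4))⟩
    rw [enc_nat_length]
    beta_reduce
    omega

/-! ### Sizes of codes of lists -/

theorem enc_list_length_sum (l : List α) :
    (enc l).length = 1 + (l.map fun a => 1 + (enc a).length).sum := by
  induction l with
  | nil => simp
  | cons a l ih => simp [ih]; omega

theorem enc_append_length (l l' : List α) :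
    (enc (l ++ l')).length + 1 = (enc l).length + (enc l').length := by
  simp only [enc_list_length_sum, List.map_append, List.sum_append]
  omega

theorem enc_reverse_length (l : List α) : (enc l.reverse).length = (enc l).length := by
  simp only [enc_list_length_sum, List.map_reverse, List.sum_reverse]

theorem length_le_enc (l : List α) : l.length + 1 ≤ (enc l).length := by
  induction l with
  | nil => simp
  | cons a l ih => simp; omega

theorem enc_drop_le (l : List α) (i : ℕ) : (enc (l.drop i)).length ≤ (enc l).length := by
  have := enc_append_length (l.take i) (l.drop i)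
  rw [List.take_append_drop] at this
  have := enc_length_pos (l.take i)
  omega

theorem enc_take_le (l : List α) (i : ℕ) : (enc (l.take i)).length ≤ (enc l).length := by
  have := enc_append_length (l.take i) (l.drop i)
  rw [List.take_append_drop] at this
  have := enc_length_pos (l.drop i)
  omega

theorem enc_mem_le {l : List α} {a : α} (h : a ∈ l) : (enc a).length + 1 ≤ (enc l).length := by
  induction l with
  | nil => simp at h
  | cons c l ih =>
    simp only [List.mem_cons] at h
    rcases h with h | h
    · subst h
      have := enc_length_pos l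
      simp only [enc_cons, List.length_cons, List.length_append]
      omega
    · have := ih h
      simp only [enc_cons, List.length_cons, List.length_append]
      omega

omit [Enc α] in
theorem enc_flatMap_le (l : List α) (f : α → List β) (B : ℕ)
    (hB : ∀ a ∈ l, (enc (f a)).length ≤ B) :
    (enc (l.flatMap f)).length ≤ 1 + l.length * B := by
  induction l with
  | nil => simp
  | cons a l ih =>
    rw [List.flatMap_cons]
    have h1 := enc_append_length (f a) (l.flatMap f)
    have h2 := ih fun a ha => hB a (List.mem_cons_of_mem _ ha)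
    have h3 := hB a List.mem_cons_self
    have : (a :: l).length * B = l.length * B + B := by simp only [List.length_cons]; ring
    omega

/-! ### Left folds -/

/-- The step of a left fold. -/
def foldStep [Inhabited β] (f : α → δ → β → δ) (s : α × (δ × List β)) : α × (δ × List β) :=
  if s.2.2.isEmpty then s else (s.1, (f s.1 s.2.1 (s.2.2.headD default), s.2.2.tail))

omit [Enc α] [Enc β] [Enc δ] in
theorem foldStep_iterate [Inhabited β] (f : α → δ → β → δ) (a : α) (d : δ) (l : List β)
    (i : ℕ) : (foldStep f)^[i] (a, (d, l)) = (a, ((l.take i).foldl (f a) d, l.drop i)) := by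
  induction i generalizing d l with
  | zero => simp
  | succ i ih =>
    rw [iterate_succ_apply]
    cases l with
    | nil =>
      have : foldStep f (a, (d, [])) = (a, (d, [])) := by simp [foldStep]
      rw [this, ih]
      simp
    | cons b l =>
      have : foldStep f (a, (d, b :: l)) = (a, (f a d b, l)) := by simp [foldStep]
      rw [this, ih]
      simp

theorem PolyTime.foldl [Inhabited β] {l : α → List β} {ini : α → δ} {f : α → δ → β → δ}
    (hl : PolyTime l) (hi : PolyTime ini)
    (hf : PolyTime fun p : α × (δ × β) => f p.1 p.2.1 p.2.2) (bd : ℕ → ℕ) (hbd : PB bd)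
    (hb : ∀ a i, (enc (((l a).take i).foldl (f a) (ini a))).length ≤ bd (enc a).length) :
    PolyTime fun a => (l a).foldl (f a) (ini a) := by
  have hstep : PolyTime (foldStep f) := by
    have h1 : PolyTime fun s : α × (δ × List β) => s.2.2.isEmpty :=
      PolyTime.isEmpty.comp (PolyTime.snd.comp PolyTime.snd)
    have h2 : PolyTime fun s : α × (δ × List β) => s.2.2.headD default :=
      (PolyTime.headD default).comp (PolyTime.snd.comp PolyTime.snd)
    have h3 : PolyTime fun s : α × (δ × List β) => s.2.2.tail :=
      PolyTime.tail.comp (PolyTime.snd.comp PolyTime.snd)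
    have h4 : PolyTime fun s : α × (δ × List β) =>
        (s.1, (s.2.1, (s.2.2.headD default : β))) :=
      PolyTime.fst.pair ((PolyTime.fst.comp PolyTime.snd).pair h2)
    have h5 : PolyTime fun s : α × (δ × List β) =>
        f s.1 s.2.1 (s.2.2.headD default : β) := hf.comp h4
    exact h1.ite PolyTime.id (PolyTime.fst.pair (h5.pair h3))
  have hn : PolyTime fun a => (enc (l a)).length := PolyTime.encLen.comp hl
  have hini : PolyTime fun a => (a, (ini a, l a)) := PolyTime.id.pair (hi.pair hl)
  obtain ⟨sl, hsl, hsl'⟩ := hl.size
  have hit := PolyTime.iterate hn hini hstep (fun n => 2 + n + bd n + sl n)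
    ((((PB.const 2).add PB.id).add hbd).add hsl) (fun a i _ => by
      rw [foldStep_iterate, enc_prod, enc_prod]
      have e1 := hb a i
      have e2 := enc_drop_le (l a) i
      have e3 := hsl' a
      simp only [List.length_cons, List.length_append]
      omega)
  refine ((PolyTime.fst.comp PolyTime.snd).comp hit).of_eq fun a => ?_
  rw [foldStep_iterate]
  have : (l a).take (enc (l a)).length = l a :=
    List.take_of_length_le (by have := length_le_enc (l a); omega)
  simp only [this]

theorem PolyTime.reverse [Inhabited α] : PolyTime (fun l : List α => l.reverse) := by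
  have h := PolyTime.foldl (α := List α) (β := α) (δ := List α) (l := fun l => l)
    (ini := fun _ => []) (f := fun _ acc a => a :: acc) PolyTime.id (PolyTime.const [])
    (PolyTime.cons.comp ((PolyTime.snd.comp PolyTime.snd).pair (PolyTime.fst.comp PolyTime.snd)))
    (fun n => n) PB.id (fun l i => by
      have : (List.foldl (fun acc a => a :: acc) [] (l.take i)) = (l.take i).reverse := by
        simp
      rw [this, enc_reverse_length]
      exact enc_take_le l i)
  exact h.of_eq fun l => by simp

omit [Enc α] in
theorem foldl_cons_eq (l acc : List α) : l.foldl (fun acc a => a :: acc) acc = l.reverse ++ acc := by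
  induction l generalizing acc with
  | nil => rfl
  | cons a l ih => simp [ih]

theorem PolyTime.append [Inhabited α] {l l' : γ → List α} (hl : PolyTime l)
    (hl' : PolyTime l') : PolyTime (fun c => l c ++ l' c) := by
  obtain ⟨s1, hs1, hs1'⟩ := hl.size
  obtain ⟨s2, hs2, hs2'⟩ := hl'.size
  have h := PolyTime.foldl (α := γ) (β := α) (δ := List α) (l := fun c => (l c).reverse)
    (ini := l') (f := fun _ acc a => a :: acc) (PolyTime.reverse.comp hl) hl'
    (PolyTime.cons.comp ((PolyTime.snd.comp PolyTime.snd).pair (PolyTime.fst.comp PolyTime.snd)))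
    (fun n => s1 n + s2 n) (hs1.add hs2) (fun c i => by
      rw [foldl_cons_eq]
      have e1 := enc_append_length ((l c).reverse.take i).reverse (l' c)
      have e2 := enc_take_le (l c).reverse i
      rw [enc_reverse_length] at e1 e2
      have e3 := hs1' c
      have e4 := hs2' c
      omega)
  exact h.of_eq fun l => by simp

theorem PolyTime.flatMap [Inhabited α] [Inhabited β] {l : γ → List α} {f : γ → α → List β}
    (hl : PolyTime l) (hf : PolyTime fun p : γ × α => f p.1 p.2) :
    PolyTime fun c => (l c).flatMap (f c) := by
  obtain ⟨s1, hs1, hs1'⟩ := hl.size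
  obtain ⟨s2, hs2, hs2'⟩ := hf.size
  have key : ∀ (f : α → List β) (l : List α) (acc : List β),
      l.foldl (fun acc a => acc ++ f a) acc = acc ++ l.flatMap f := by
    intro f l
    induction l with
    | nil => intro acc; simp
    | cons a l ih => intro acc; simp [ih]
  have h := PolyTime.foldl (α := γ) (β := α) (δ := List β) (l := l)
    (ini := fun _ => []) (f := fun c acc a => acc ++ f c a) hl (PolyTime.const [])
    (PolyTime.append (PolyTime.fst.comp PolyTime.snd)
      (hf.comp (PolyTime.fst.pair (PolyTime.snd.comp PolyTime.snd))))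
    (fun n => 1 + s1 n * s2 (n + s1 n + 1))
    ((PB.const 1).add (hs1.mul (hs2.comp ((PB.id.add hs1).add (PB.const 1)))))
    (fun c i => by
      rw [key, List.nil_append]
      have e3 := hs1' c
      have h1 := enc_flatMap_le ((l c).take i) (f c) (s2 ((enc c).length + s1 (enc c).length + 1))
        (fun a ha => by
          have h2 := hs2' (c, a)
          refine h2.trans (hs2.1 ?_)
          rw [enc_pair]
          have h3 := enc_mem_le (List.mem_of_mem_take ha)
          simp only [List.length_cons, List.length_append]
          omega)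
      refine h1.trans ?_
      have h4 : ((l c).take i).length ≤ s1 (enc c).length := by
        have h5 := length_le_enc (l c)
        have h6 : ((l c).take i).length ≤ (l c).length := by
          rw [List.length_take]; exact min_le_right _ _
        omega
      exact Nat.add_le_add_left (Nat.mul_le_mul_right _ h4) 1)
  exact h.of_eq fun c => by rw [key]; simp

theorem PolyTime.singleton : PolyTime (fun a : α => [a]) := by
  have h : PolyTime fun a : α => (a, ([] : List α)) := PolyTime.id.pair (PolyTime.const [])
  exact PolyTime.cons.comp h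

theorem PolyTime.map [Inhabited α] [Inhabited β] {l : γ → List α} {f : γ → α → β}
    (hl : PolyTime l) (hf : PolyTime fun p : γ × α => f p.1 p.2) :
    PolyTime fun c => (l c).map (f c) := by
  refine (PolyTime.flatMap (f := fun c a => [f c a]) hl (PolyTime.singleton.comp hf)).of_eq
    fun c => ?_
  exact List.map_eq_flatMap.symm

theorem PolyTime.filter [Inhabited α] {l : γ → List α} {f : γ → α → Bool}
    (hl : PolyTime l) (hf : PolyTime fun p : γ × α => f p.1 p.2) :
    PolyTime fun c => (l c).filter (f c) := by
  refine (PolyTime.flatMap (f := fun c a => if f c a then [a] else []) hl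
    (hf.ite (PolyTime.singleton.comp PolyTime.snd) (PolyTime.const []))).of_eq fun c => ?_
  generalize l c = l
  induction l with
  | nil => rfl
  | cons a l ih =>
    rw [List.flatMap_cons, ih, List.filter_cons]
    by_cases h : f c a = true
    · simp [h]
    · simp [h]

/-! ### Arithmetic -/

theorem succ_iterate (m n : ℕ) : (fun k => k + 1)^[m] n = n + m := by
  induction m generalizing n with
  | zero => rfl
  | succ m ih => rw [iterate_succ_apply, ih]; omega

theorem pred_iterate (m n : ℕ) : (fun k => k - 1)^[m] n = n - m := by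
  induction m generalizing n with
  | zero => rfl
  | succ m ih => rw [iterate_succ_apply, ih]; omega

theorem PolyTime.add {m n : γ → ℕ} (hm : PolyTime m) (hn : PolyTime n) :
    PolyTime fun c => m c + n c := by
  obtain ⟨s1, hs1, hs1'⟩ := hm.size
  obtain ⟨s2, hs2, hs2'⟩ := hn.size
  have h := PolyTime.iterate (step := fun k : ℕ => k + 1) hn hm PolyTime.succ
    (fun k => s1 k + s2 k) (hs1.add hs2) (fun c i hi => by
      rw [succ_iterate, enc_nat_length]
      have h1 := hs1' c
      have h2 := hs2' c
      rw [enc_nat_length] at h1 h2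
      omega)
  exact h.of_eq fun c => succ_iterate _ _

theorem PolyTime.sub {m n : γ → ℕ} (hm : PolyTime m) (hn : PolyTime n) :
    PolyTime fun c => m c - n c := by
  obtain ⟨s1, hs1, hs1'⟩ := hm.size
  have h := PolyTime.iterate (step := fun k : ℕ => k - 1) hn hm PolyTime.pred
    (fun k => s1 k) hs1 (fun c i hi => by
      rw [pred_iterate, enc_nat_length]
      have h1 := hs1' c
      rw [enc_nat_length] at h1
      omega)
  exact h.of_eq fun c => pred_iterate _ _

theorem mul_iterate (n : ℕ) (i a : ℕ) :
    (fun p : ℕ × ℕ => (p.1, p.2 + p.1))^[i] (n, a) = (n, a + i * n) := by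
  induction i generalizing a with
  | zero => simp
  | succ i ih => rw [iterate_succ_apply, ih]; simp only [Prod.mk.injEq, true_and]; ring

theorem PolyTime.mul {m n : γ → ℕ} (hm : PolyTime m) (hn : PolyTime n) :
    PolyTime fun c => m c * n c := by
  obtain ⟨s1, hs1, hs1'⟩ := hm.size
  obtain ⟨s2, hs2, hs2'⟩ := hn.size
  have h := PolyTime.iterate (step := fun p : ℕ × ℕ => (p.1, p.2 + p.1))
    (ini := fun c => (n c, 0)) hm
    (hn.pair (PolyTime.const 0)) (PolyTime.fst.pair (PolyTime.add PolyTime.snd PolyTime.fst))
    (fun k => s2 k + 2 * (s1 k * s2 k) + 2)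
    ((hs2.add ((PB.const 2).mul (hs1.mul hs2))).add (PB.const 2)) (fun c i hi => by
      rw [mul_iterate, enc_pair]
      have h1 := hs1' c
      have h2 := hs2' c
      rw [enc_nat_length] at h1 h2
      simp only [List.length_cons, List.length_append, enc_nat_length, Nat.zero_add]
      have h3 : i * n c ≤ s1 (enc c).length * s2 (enc c).length :=
        Nat.mul_le_mul (by omega) (by omega)
      omega)
  refine (PolyTime.snd.comp h).of_eq fun c => ?_
  rw [mul_iterate]
  simp

theorem PolyTime.polyEval (q : Polynomial ℕ) {n : γ → ℕ} (hn : PolyTime n) :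
    PolyTime fun c => q.eval (n c) := by
  induction q using Polynomial.induction_on' with
  | add p q hp hq =>
    refine (PolyTime.add hp hq).of_eq fun c => ?_
    rw [Polynomial.eval_add]
  | monomial k a =>
    simp only [Polynomial.eval_monomial]
    refine PolyTime.mul (PolyTime.const a) ?_
    induction k with
    | zero => simpa using PolyTime.const 1
    | succ k ih => simpa [pow_succ] using ih.mul hn

theorem PolyTime.leb {m n : γ → ℕ} (hm : PolyTime m) (hn : PolyTime n) :
    PolyTime fun c => decide (m c ≤ n c) := by
  refine (PolyTime.isZero.comp (PolyTime.sub hm hn)).of_eq fun c => ?_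
  by_cases h : m c ≤ n c
  · simp [h]
  · have : m c - n c ≠ 0 := by omega
    simp [h, this]

theorem PolyTime.not {p : γ → Bool} (hp : PolyTime p) : PolyTime fun c => !p c :=
  (hp.ite (PolyTime.const false) (PolyTime.const true)).of_eq fun c => by cases p c <;> rfl

theorem PolyTime.and {p q : γ → Bool} (hp : PolyTime p) (hq : PolyTime q) :
    PolyTime fun c => (p c && q c) :=
  (hp.ite hq (PolyTime.const false)).of_eq fun c => by cases p c <;> rfl

theorem PolyTime.or {p q : γ → Bool} (hp : PolyTime p) (hq : PolyTime q) :
    PolyTime fun c => (p c || q c) :=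
  (hp.ite (PolyTime.const true) hq).of_eq fun c => by cases p c <;> rfl

theorem PolyTime.ltb {m n : γ → ℕ} (hm : PolyTime m) (hn : PolyTime n) :
    PolyTime fun c => decide (m c < n c) :=
  (PolyTime.not (PolyTime.leb hn hm)).of_eq fun c => by
    by_cases h : m c < n c
    · simp [h]
    · simp [h, not_lt.mp h]

theorem PolyTime.eqb {m n : γ → ℕ} (hm : PolyTime m) (hn : PolyTime n) :
    PolyTime fun c => decide (m c = n c) :=
  (PolyTime.and (PolyTime.leb hm hn) (PolyTime.leb hn hm)).of_eq fun c => by
    by_cases h : m c = n c
    · simp [h]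
    · have : ¬ (m c ≤ n c ∧ n c ≤ m c) := by omega
      simp only [h, decide_false, Bool.and_eq_false_imp, decide_eq_true_eq, decide_eq_false_iff_not]
      omega

theorem range_iterate (i : ℕ) :
    (fun p : ℕ × List ℕ => (p.1 + 1, p.2 ++ [p.1]))^[i] (0, []) = (i, List.range i) := by
  induction i with
  | zero => rfl
  | succ i ih => rw [iterate_succ_apply', ih, List.range_succ]

theorem enc_range_le (i : ℕ) : (enc (List.range i)).length ≤ 1 + i * (2 * i + 2) := by
  have h := enc_flatMap_le (List.range i) (fun j => [j]) (2 * i + 2) (fun a ha => by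
    simp only [List.mem_range] at ha
    simp only [enc_cons, enc_nil, List.length_cons, List.length_append, enc_nat_length,
      List.length_nil]
    omega)
  simpa [List.flatMap_singleton'] using h

theorem PolyTime.range {n : γ → ℕ} (hn : PolyTime n) : PolyTime fun c => List.range (n c) := by
  obtain ⟨s1, hs1, hs1'⟩ := hn.size
  have h := PolyTime.iterate (step := fun p : ℕ × List ℕ => (p.1 + 1, p.2 ++ [p.1]))
    (ini := fun _ => (0, [])) hn (PolyTime.const _)
    ((PolyTime.succ.comp PolyTime.fst).pair
      (PolyTime.append PolyTime.snd (PolyTime.singleton.comp PolyTime.fst)))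
    (fun k => 3 + 2 * s1 k + s1 k * (2 * s1 k + 2))
    (((PB.const 3).add ((PB.const 2).mul hs1)).add
      (hs1.mul (((PB.const 2).mul hs1).add (PB.const 2)))) (fun c i hi => by
      rw [range_iterate, enc_pair]
      have h1 := hs1' c
      rw [enc_nat_length] at h1
      have h2 := enc_range_le i
      have h3 : i * (2 * i + 2) ≤ s1 (enc c).length * (2 * s1 (enc c).length + 2) :=
        Nat.mul_le_mul (by omega) (by omega)
      simp only [List.length_cons, List.length_append, enc_nat_length]
      omega)
  refine (PolyTime.snd.comp h).of_eq fun c => ?_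
  rw [range_iterate]

theorem PolyTime.length [Inhabited α] {l : γ → List α} (hl : PolyTime l) :
    PolyTime fun c => (l c).length := by
  obtain ⟨s1, hs1, hs1'⟩ := hl.size
  have key : ∀ (l : List α) (n : ℕ), l.foldl (fun n _ => n + 1) n = n + l.length := by
    intro l
    induction l with
    | nil => intro n; simp
    | cons a l ih => intro n; simp [ih]; omega
  have h := PolyTime.foldl (α := γ) (β := α) (δ := ℕ) (l := l)
    (ini := fun _ => 0) (f := fun _ n _ => n + 1) hl (PolyTime.const 0)
    (PolyTime.succ.comp (PolyTime.fst.comp PolyTime.snd))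
    (fun n => 2 * s1 n + 1) (((PB.const 2).mul hs1).add (PB.const 1)) (fun c i => by
      rw [key, enc_nat_length]
      have h1 := hs1' c
      have h2 := length_le_enc (l c)
      have h3 : ((l c).take i).length ≤ (l c).length := by
        rw [List.length_take]; exact min_le_right _ _
      omega)
  exact h.of_eq fun c => by rw [key]; simp

theorem PolyTime.replicate [Inhabited α] {n : γ → ℕ} {a : γ → α} (hn : PolyTime n)
    (ha : PolyTime a) : PolyTime fun c => List.replicate (n c) (a c) := by
  refine (PolyTime.map (f := fun c _ => a c) (PolyTime.range hn)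
    (ha.comp PolyTime.fst)).of_eq fun c => ?_
  rw [List.map_const', List.length_range]

theorem PolyTime.drop {n : γ → ℕ} {l : γ → List α} (hn : PolyTime n) (hl : PolyTime l) :
    PolyTime fun c => (l c).drop (n c) := by
  obtain ⟨s1, hs1, hs1'⟩ := hl.size
  have key : ∀ (i : ℕ) (l : List α), (fun l : List α => l.tail)^[i] l = l.drop i := by
    intro i
    induction i with
    | zero => intro l; rfl
    | succ i ih =>
      intro l
      rw [iterate_succ_apply, ih]
      cases l <;> simp
  have h := PolyTime.iterate (step := fun l : List α => l.tail) hn hl PolyTime.tail s1 hs1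
    (fun c i _ => by
      rw [key]
      exact (enc_drop_le _ _).trans (hs1' c))
  exact h.of_eq fun c => key _ _

theorem PolyTime.getD {n : γ → ℕ} {l : γ → List α} (hn : PolyTime n) (hl : PolyTime l) (d : α) :
    PolyTime fun c => (l c).getD (n c) d := by
  refine ((PolyTime.headD d).comp (PolyTime.drop hn hl)).of_eq fun c => ?_
  simp [List.headD_eq_head?_getD, List.getD_eq_getElem?_getD, List.head?_drop]

end

end Pool.Agent.H66
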