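import Mathlib

/-!
# While programs on stacks of bits, and their compilation to Mathlib's TM2 machines
-/

open Turing StateTransition Function

namespace Pool.Agent.H66

/-- While programs on stacks of bits, the stacks being indexed by `K`. -/
inductive Prog (K : Type) : Type
  | skip : Prog K
  | push (r : K) (a : Bool) : Prog K
  | pop (r : K) : Prog K
  | seq (p q : Prog K) : Prog K
  | cond (r : K) (c : Option Bool → Bool) (p q : Prog K) : Prog K
  | loop (r : K) (c : Option Bool → Bool) (p : Prog K) : Prog K

/-- `Run p S S' t`: the program `p` started on the store `S` halts on `S'` after exactly `t`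
steps. -/
inductive Run {K : Type} [DecidableEq K] :
    Prog K → (K → List Bool) → (K → List Bool) → ℕ → Prop
  | skip (S) : Run .skip S S 1
  | push (r : K) (a : Bool) (S) : Run (.push r a) S (update S r (a :: S r)) 1
  | pop (r : K) (S) : Run (.pop r) S (update S r (S r).tail) 1
  | seq {p q : Prog K} {S S' S'' t t'} (h₁ : Run p S S' t) (h₂ : Run q S' S'' t') :
      Run (.seq p q) S S'' (t + t')
  | condT {r : K} {c : Option Bool → Bool} {p q : Prog K} {S S' t}
      (hc : c (S r).head? = true) (h : Run p S S' t) : Run (.cond r c p q) S S' (t + 1)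
  | condF {r : K} {c : Option Bool → Bool} {p q : Prog K} {S S' t}
      (hc : c (S r).head? = false) (h : Run q S S' t) : Run (.cond r c p q) S S' (t + 1)
  | loopF {r : K} {c : Option Bool → Bool} {p : Prog K} {S}
      (hc : c (S r).head? = false) : Run (.loop r c p) S S 1
  | loopT {r : K} {c : Option Bool → Bool} {p : Prog K} {S S' S'' t t'}
      (hc : c (S r).head? = true) (h : Run p S S' t) (h' : Run (.loop r c p) S' S'' t') :
      Run (.loop r c p) S S'' (t' + t + 1)

/-- Labels of the compiled program. -/
def Lab {K : Type} : Prog K → Type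
  | .skip => Unit
  | .push _ _ => Unit
  | .pop _ => Unit
  | .seq p q => Lab p ⊕ Lab q
  | .cond _ _ p q => Option (Lab p ⊕ Lab q)
  | .loop _ _ p => Option (Lab p)

/-- There are finitely many labels. -/
noncomputable instance labFintype {K : Type} : (p : Prog K) → Fintype (Lab p)
  | .skip => inferInstanceAs (Fintype Unit)
  | .push _ _ => inferInstanceAs (Fintype Unit)
  | .pop _ => inferInstanceAs (Fintype Unit)
  | .seq p q =>
      letI := labFintype p
      letI := labFintype q
      inferInstanceAs (Fintype (Lab p ⊕ Lab q))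
  | .cond _ _ p q =>
      letI := labFintype p
      letI := labFintype q
      inferInstanceAs (Fintype (Option (Lab p ⊕ Lab q)))
  | .loop _ _ p =>
      letI := labFintype p
      inferInstanceAs (Fintype (Option (Lab p)))

/-- The entry label. -/
def entry {K : Type} : (p : Prog K) → Lab p
  | .skip => ()
  | .push _ _ => ()
  | .pop _ => ()
  | .seq p _ => Sum.inl (entry p)
  | .cond _ _ _ _ => (none : Option _)
  | .loop _ _ _ => (none : Option _)

/-- The statement at each label. -/
def code {K L : Type} : (p : Prog K) → (Lab p → L) → L → Lab p →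
    TM2.Stmt (fun _ : K => Bool) L (Option Bool)
  | .skip, _, ex => fun _ => .goto fun _ => ex
  | .push r a, _, ex => fun _ => .push r (fun _ => a) (.goto fun _ => ex)
  | .pop r, _, ex => fun _ => .pop r (fun v _ => v) (.goto fun _ => ex)
  | .seq p q, emb, ex => fun l =>
      match (l : Lab p ⊕ Lab q) with
      | .inl l => code p (fun l => emb (Sum.inl l)) (emb (Sum.inr (entry q))) l
      | .inr l => code q (fun l => emb (Sum.inr l)) ex l
  | .cond r c p q, emb, ex => fun l =>
      match (l : Option (Lab p ⊕ Lab q)) with
      | none => .peek r (fun _ o => o) (.branch c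
          (.goto fun _ => emb (some (Sum.inl (entry p)) : Option (Lab p ⊕ Lab q)))
          (.goto fun _ => emb (some (Sum.inr (entry q)) : Option (Lab p ⊕ Lab q))))
      | some (.inl l) => code p (fun l => emb (some (Sum.inl l) : Option (Lab p ⊕ Lab q))) ex l
      | some (.inr l) => code q (fun l => emb (some (Sum.inr l) : Option (Lab p ⊕ Lab q))) ex l
  | .loop r c p, emb, ex => fun l =>
      match (l : Option (Lab p)) with
      | none => .peek r (fun _ o => o) (.branch c
          (.goto fun _ => emb (some (entry p) : Option (Lab p)))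
          (.goto fun _ => ex))
      | some l => code p (fun l => emb (some l : Option (Lab p)))
          (emb (none : Option (Lab p))) l

/-- Exactly `n` steps of a machine lead from the first configuration to the second. -/
def StepsTo {C : Type} (f : C → Option C) : ℕ → C → C → Prop
  | 0, a, b => a = b
  | n + 1, a, b => ∃ d, f a = some d ∧ StepsTo f n d b

theorem StepsTo.trans {C : Type} {f : C → Option C} :
    ∀ {m n : ℕ} {a b c : C}, StepsTo f m a b → StepsTo f n b c → StepsTo f (m + n) a c
  | 0, n, a, b, c, h₁, h₂ => by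
      have : a = b := h₁
      subst this
      simpa using h₂
  | m + 1, n, a, b, c, h₁, h₂ => by
      obtain ⟨d, hd, h⟩ := h₁
      have : m + 1 + n = (m + n) + 1 := by omega
      rw [this]
      exact ⟨d, hd, StepsTo.trans h h₂⟩

theorem StepsTo.one {C : Type} {f : C → Option C} {a b : C} (h : f a = some b) :
    StepsTo f 1 a b := ⟨b, h, rfl⟩

theorem StepsTo.iterate {C : Type} {f : C → Option C} :
    ∀ {n : ℕ} {a b : C}, StepsTo f n a b → (flip bind f)^[n] (some a) = some b
  | 0, a, b, h => by
      have : a = b := h
      subst this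
      rfl
  | n + 1, a, b, h => by
      obtain ⟨d, hd, h⟩ := h
      rw [iterate_succ_apply]
      have : flip bind f (some a) = some d := by
        simp [flip, hd]
      rw [this]
      exact StepsTo.iterate h

variable {K : Type} [DecidableEq K]

/-- The compiled program simulates the program step by step. -/
theorem sim {p : Prog K} {S S' : K → List Bool} {t : ℕ} (h : Run p S S' t) :
    ∀ {L : Type} (emb : Lab p → L) (ex : L)
      (M : L → TM2.Stmt (fun _ : K => Bool) L (Option Bool)),
      (∀ l, M (emb l) = code p emb ex l) → ∀ v, ∃ v',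
        StepsTo (TM2.step M) t ⟨some (emb (entry p)), v, S⟩ ⟨some ex, v', S'⟩ := by
  induction h with
  | skip S =>
    intro L emb ex M hM v
    refine ⟨v, StepsTo.one ?_⟩
    rw [TM2.step, hM]
    simp [code]
  | push r a S =>
    intro L emb ex M hM v
    refine ⟨v, StepsTo.one ?_⟩
    rw [TM2.step, hM]
    simp [code]
  | pop r S =>
    intro L emb ex M hM v
    refine ⟨v, StepsTo.one ?_⟩
    rw [TM2.step, hM]
    simp [code]
  | @seq p q S S' S'' t t' h₁ h₂ ih₁ ih₂ =>
    intro L emb ex M hM v
    obtain ⟨v', hv'⟩ := ih₁ (fun l => emb (Sum.inl l)) (emb (Sum.inr (entry q))) M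
      (fun l => hM (Sum.inl l : Lab p ⊕ Lab q)) v
    obtain ⟨v'', hv''⟩ := ih₂ (fun l => emb (Sum.inr l)) ex M
      (fun l => hM (Sum.inr l : Lab p ⊕ Lab q)) v'
    exact ⟨v'', hv'.trans hv''⟩
  | @condT r c p q S S' t hc h ih =>
    intro L emb ex M hM v
    obtain ⟨v', hv'⟩ := ih (fun l => emb (some (Sum.inl l) : Option (Lab p ⊕ Lab q))) ex M
      (fun l => hM (some (Sum.inl l) : Option (Lab p ⊕ Lab q))) (S r).head?
    refine ⟨v', ?_⟩
    rw [add_comm]
    refine StepsTo.trans (StepsTo.one ?_) hv'
    rw [TM2.step, hM]
    simp [code, entry, hc]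
  | @condF r c p q S S' t hc h ih =>
    intro L emb ex M hM v
    obtain ⟨v', hv'⟩ := ih (fun l => emb (some (Sum.inr l) : Option (Lab p ⊕ Lab q))) ex M
      (fun l => hM (some (Sum.inr l) : Option (Lab p ⊕ Lab q))) (S r).head?
    refine ⟨v', ?_⟩
    rw [add_comm]
    refine StepsTo.trans (StepsTo.one ?_) hv'
    rw [TM2.step, hM]
    simp [code, entry, hc]
  | @loopF r c p S hc =>
    intro L emb ex M hM v
    refine ⟨(S r).head?, StepsTo.one ?_⟩
    rw [TM2.step, hM]
    simp [code, entry, hc]
  | @loopT r c p S S' S'' t t' hc h h' ih ih' =>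
    intro L emb ex M hM v
    obtain ⟨v', hv'⟩ := ih (fun l => emb (some l : Option (Lab p)))
      (emb (none : Option (Lab p))) M (fun l => hM (some l : Option (Lab p))) (S r).head?
    obtain ⟨v'', hv''⟩ := ih' emb ex M hM v'
    refine ⟨v'', ?_⟩
    have : t' + t + 1 = 1 + (t + t') := by omega
    rw [this]
    refine StepsTo.trans (StepsTo.one ?_) (hv'.trans hv'')
    rw [TM2.step, hM]
    simp [code, entry, hc]

end Pool.Agent.H66
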