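import Pool.Agent.Lib.helper66.Iterate

/-!
# Raw bit strings as inputs
-/

open Turing StateTransition Function

namespace Pool.Agent.H66

/-- The loop converting a raw string into the code of a list of bits. -/
def rawLoop (b : ℕ) : Prog ℕ :=
  .loop (b + 1) Option.isSome (.cond (b + 1) (fun o => o == some true)
    (.seq (.pop (b + 1)) (pushAll (b + 0) [true, true, false, false]))
    (.seq (.pop (b + 1)) (pushAll (b + 0) [true, false])))

theorem rawLoop_run (S : ℕ → List Bool) (b : ℕ) : ∀ (x l : List Bool),
    ∃ t, t ≤ 8 * x.length + 1 ∧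
    Run (rawLoop b) (st S b [enc l, x]) (st S b [enc (x.reverse ++ l), []]) t
  | [], l => ⟨1, by simp, Run.loopF (by rw [st_get]; rfl)⟩
  | a :: x, l => by
      obtain ⟨t, ht, r⟩ := rawLoop_run S b x (a :: l)
      have r1 : Run (.pop (b + 1)) (st S b [enc l, a :: x]) (st S b [enc l, x]) 1 :=
        (pop_st S b 1 _ (by simp)).cast rfl (by simp) rfl
      cases a with
      | true =>
        have r2 : Run (pushAll (b + 0) [true, true, false, false]) (st S b [enc l, x])
            (st S b [enc (true :: l), x]) 5 :=
          (pushAll_st S b 0 _ _ (by simp)).cast rfl (by simp) rfl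
        have r3 := Run.condT (r := b + 1) (c := fun o => o == some true)
          (q := .seq (.pop (b + 1)) (pushAll (b + 0) [true, false]))
          (by rw [st_get]; rfl) (r1.seq r2)
        refine ⟨_, ?_, (Run.loopT (by rw [st_get]; rfl) r3 r).cast rfl (by simp) rfl⟩
        simp only [List.length_cons]
        omega
      | false =>
        have r2 : Run (pushAll (b + 0) [true, false]) (st S b [enc l, x])
            (st S b [enc (false :: l), x]) 3 :=
          (pushAll_st S b 0 _ _ (by simp)).cast rfl (by simp) rfl
        have r3 := Run.condF (r := b + 1) (c := fun o => o == some true)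
          (p := .seq (.pop (b + 1)) (pushAll (b + 0) [true, true, false, false]))
          (by rw [st_get]; rfl) (r1.seq r2)
        refine ⟨_, ?_, (Run.loopT (by rw [st_get]; rfl) r3 r).cast rfl (by simp) rfl⟩
        simp only [List.length_cons]
        omega

/-- Conversion of a raw string into the code of a list of bits. -/
def rawP (b : ℕ) : Prog ℕ :=
  .seq (mv (b + 0) (b + 1)) (.seq (.push (b + 0) false) (rawLoop b))

theorem rawP_run (S : ℕ → List Bool) (b : ℕ) (x : List Bool) :
    ∃ t, t ≤ 12 * x.length + 3 ∧ Run (rawP b) (st S b [x]) (st S b [enc x]) t := by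
  have e0 : st S b [x, []] = st S b [x] := st_pad S b [x] 1
  have r1 : Run (mv (b + 0) (b + 1)) (st S b [x]) (st S b [[], x.reverse])
      (4 * x.length + 1) := by
    rw [← e0]
    exact (mv_st S b 0 1 _ (by simp) (by simp) (by simp)).cast rfl (by simp) (by simp)
  have r2 : Run (.push (b + 0) false) (st S b [[], x.reverse])
      (st S b [enc ([] : List Bool), x.reverse]) 1 :=
    (push_st S b 0 false _ (by simp)).cast rfl (by simp) rfl
  obtain ⟨t, ht, r3⟩ := rawLoop_run S b x.reverse []
  have e1 : st S b [enc (x.reverse.reverse ++ []), []] = st S b [enc x] := by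
    rw [List.reverse_reverse, List.append_nil]
    exact st_pad S b [_] 1
  rw [e1] at r3
  refine ⟨_, ?_, r1.seq (r2.seq r3)⟩
  rw [List.length_reverse] at ht
  omega

theorem rawP_uses (b : ℕ) : (rawP b).Uses {k | k < b + 2} := by
  have m0 : b + 0 ∈ {k | k < b + 2} := by simp only [Set.mem_ofPred_eq]; omega
  have m1 : b + 1 ∈ {k | k < b + 2} := by simp only [Set.mem_ofPred_eq]; omega
  exact ⟨mv_uses _ _ _ m0 m1, m0, m1, m1, ⟨m1, pushAll_uses _ _ m0 _⟩, m1, pushAll_uses _ _ m0 _⟩

theorem enc_bits_length (x : List Bool) : (enc x).length ≤ 4 * x.length + 1 := by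
  induction x with
  | nil => simp
  | cons a x ih =>
    cases a <;> simp only [enc_cons, enc_true, enc_false, List.length_cons, List.length_append,
      List.length_nil] <;> omega

/-- A polynomial-time function on lists of bits is computed by a TM2 machine which receives the
raw string of bits as its input. -/
theorem PolyTime.tm2_raw {β : Type} [Enc β] {f : List Bool → β} (hf : PolyTime f) :
    Nonempty (TM2ComputableInPolyTime (fun x : List Bool => x) (enc : β → List Bool) f) := by
  obtain ⟨P, N, g, hg, hU, h⟩ := hf
  obtain ⟨hmono, q, hq⟩ : PB fun n => (12 * n + 3) + g (4 * n + 1) :=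
    ((((PB.const 12).mul PB.id).add (PB.const 3)).add
      (hg.comp (((PB.const 4).mul PB.id).add (PB.const 1))))
  refine tm2_of_run (N + 2) (.seq (rawP 0) (P 0)) ⟨(rawP_uses 0).mono fun k hk => ?_,
    (hU 0).mono fun k hk => ?_⟩ (fun x => x) enc f q fun x => ?_
  · simp only [Set.mem_ofPred_eq, zero_add] at hk ⊢
    omega
  · simp only [Set.mem_ofPred_eq, zero_add] at hk ⊢
    omega
  · obtain ⟨t0, ht0, hrun0⟩ := rawP_run (fun _ => []) 0 x
    obtain ⟨t, ht, hrun⟩ := h 0 (fun _ => []) x
    refine ⟨t0 + t, le_trans ?_ (hq _), ?_⟩
    · have := hg.1 (enc_bits_length x)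
      beta_reduce
      omega
    have key : ∀ x : List Bool, st (fun _ => []) 0 [x] = update (fun _ => []) 0 x := by
      intro x
      funext k
      rcases Nat.eq_zero_or_pos k with hk | hk
      · subst hk
        simp [st]
      · rw [update_of_ne (by omega)]
        simp only [st, Nat.not_lt_zero, if_false]
        rw [List.getD_eq_default]
        simp only [List.length_singleton]
        omega
    rw [key] at hrun0 hrun
    rw [key] at hrun0 hrun
    exact hrun0.seq hrun

end Pool.Agent.H66
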