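import Pool.Agent.Lib.helper66.Tableau

/-!
# Correctness of the tableau
-/

open Function

namespace Pool.Agent.H66

variable {C K A : Type} [Fintype C] [Fintype K] [DecidableEq K] [Fintype A]

/-- The initial configuration with input `x` and certificate `y`. -/
def ini (c₀ : C) (k₀ : K) (e : Option Bool → A) (x y : List Bool) : C × (K → List A) :=
  (c₀, fun k => if k = k₀ then x.map (fun b => e (some b)) ++ e none :: y.map (fun b => e (some b))
    else [])

theorem vnum_inj {b W t t' j j' e e' : ℕ} (hj : j ≤ W) (hj' : j' ≤ W) (he : e < b) (he' : e' < b)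
    (h : vnum b W t j e = vnum b W t' j' e') : t = t' ∧ j = j' ∧ e = e' := by
  unfold vnum at h
  have hb : 0 < b := by omega
  have h1 : e = e' := by
    have := congrArg (· % b) h
    simp only [Nat.mul_comm _ b, Nat.mul_add_mod, Nat.mod_eq_of_lt he, Nat.mod_eq_of_lt he'] at this
    exact this
  subst h1
  have h2 : t * (W + 1) + j = t' * (W + 1) + j' := by
    have h3 : (t * (W + 1) + j) * b = (t' * (W + 1) + j') * b := by omega
    exact Nat.eq_of_mul_eq_mul_right hb h3
  have h3 : j = j' := by
    have := congrArg (· % (W + 1)) h2
    simp only [Nat.mul_comm _ (W + 1), Nat.mul_add_mod,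
      Nat.mod_eq_of_lt (Nat.lt_succ_of_le hj), Nat.mod_eq_of_lt (Nat.lt_succ_of_le hj')] at this
    exact this
  subst h3
  refine ⟨?_, rfl, rfl⟩
  have h4 : t * (W + 1) = t' * (W + 1) := by omega
  exact Nat.eq_of_mul_eq_mul_right (Nat.succ_pos W) h4

omit [DecidableEq K] in
/-- Realising a table of truth values by an assignment. -/
theorem exists_assignment (W : ℕ) (V : ℕ → ℕ → Kind C K A → Bool) :
    ∃ τ : ℕ → Bool, ∀ t j β, j ≤ W → tv τ (nk C K A) W t j (ek β) = V t j β := by
  classical
  refine ⟨fun n => decide (∃ t j β, j ≤ W ∧ vnum (nk C K A) W t j (ek β) = n ∧ V t j β = true),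
    fun t j β hj => ?_⟩
  unfold tv
  cases hV : V t j β with
  | true => exact decide_eq_true ⟨t, j, β, hj, rfl, hV⟩
  | false =>
    refine decide_eq_false ?_
    rintro ⟨t', j', β', hj', he, hV'⟩
    obtain ⟨h1, h2, h3⟩ := vnum_inj hj' hj (ek_lt β') (ek_lt β) he
    subst h1; subst h2
    rw [ek_inj h3] at hV'
    rw [hV] at hV'
    exact Bool.false_ne_true hV'

omit [Fintype C] [Fintype K] [Fintype A] in
theorem ini_getElem_lt {c₀ : C} {k₀ : K} {e : Option Bool → A} {x y : List Bool} {j : ℕ}
    (hj : j < x.length) : ((ini c₀ k₀ e x y).2 k₀)[j]? = some (e (some (x.getD j false))) := by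
  simp only [ini, if_true]
  rw [List.getElem?_append_left (by simpa using hj), List.getElem?_map]
  rw [List.getD_eq_getElem?_getD, List.getElem?_eq_getElem hj]
  rfl

omit [Fintype C] [Fintype K] [Fintype A] in
theorem ini_getElem_eq {c₀ : C} {k₀ : K} {e : Option Bool → A} {x y : List Bool} :
    ((ini c₀ k₀ e x y).2 k₀)[x.length]? = some (e none) := by
  simp only [ini, if_true]
  rw [List.getElem?_append_right (by simp)]
  simp

omit [Fintype C] [Fintype K] [Fintype A] in
theorem ini_getElem_gt {c₀ : C} {k₀ : K} {e : Option Bool → A} {x y : List Bool} {i : ℕ} :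
    ((ini c₀ k₀ e x y).2 k₀)[x.length + 1 + i]? = y[i]?.map fun b => e (some b) := by
  simp only [ini, if_true]
  rw [List.getElem?_append_right (by simp; omega)]
  have : x.length + 1 + i - (List.map (fun b => e (some b)) x).length = i + 1 := by
    simp only [List.length_map]; omega
  rw [this, List.getElem?_cons_succ, List.getElem?_map]

theorem tab_correct (M : SM C K A) (c₀ : C) (k₀ k₁ : K) (e : Option Bool → A)
    (acc : C → Option A → Bool) (T Q W : ℕ) (x : List Bool) (hW : x.length + 1 + Q ≤ W)
    (hTW : T ≤ W) :
    Sat3 (tab M c₀ k₀ k₁ e acc T Q W x) ↔ ∃ y : List Bool, y.length ≤ Q ∧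
      acc ((M.step)^[T] (ini c₀ k₀ e x y)).1 (((M.step)^[T] (ini c₀ k₀ e x y)).2 k₁).head? = true := by
  classical
  constructor
  · rintro ⟨τ, hτ⟩
    rw [tab_sat] at hτ
    obtain ⟨hI0, hI1, hI2, hI3, hI4, hI6, hT, hF⟩ := hτ
    obtain ⟨m, hmQ, hm1, hm2⟩ : ∃ m ≤ Q,
        (∀ i < m, tv τ (nk C K A) W 0 (x.length + 1 + i)
          (ek (Sum.inr (k₀, none) : Kind C K A)) = false) ∧
        (∀ i, m ≤ i → x.length + 1 + i ≤ W → tv τ (nk C K A) W 0 (x.length + 1 + i)
          (ek (Sum.inr (k₀, none) : Kind C K A)) = true) := by
      have hQ' : ∀ i, Q ≤ i → x.length + 1 + i ≤ W → tv τ (nk C K A) W 0 (x.length + 1 + i)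
          (ek (Sum.inr (k₀, none) : Kind C K A)) = true := by
        intro i hi hiW
        have := hI6 (i - Q) (by omega)
        rwa [show x.length + 1 + Q + (i - Q) = x.length + 1 + i by omega] at this
      by_cases hex : ∃ i, i < Q ∧ tv τ (nk C K A) W 0 (x.length + 1 + i)
          (ek (Sum.inr (k₀, none) : Kind C K A)) = true
      · refine ⟨Nat.find hex, (Nat.find_spec hex).1.le, ?_, ?_⟩
        · intro i hi
          have h1 := Nat.find_min hex hi
          have h2 : i < Q := hi.trans (Nat.find_spec hex).1
          cases h3 : tv τ (nk C K A) W 0 (x.length + 1 + i)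
            (ek (Sum.inr (k₀, none) : Kind C K A)) with
          | true => exact absurd ⟨h2, h3⟩ h1
          | false => rfl
        · intro i hi
          induction i with
          | zero =>
            intro _
            have h0 : Nat.find hex = 0 := by omega
            have := (Nat.find_spec hex).2
            rwa [h0] at this
          | succ i ih =>
            intro hiW
            rcases Nat.lt_or_ge i (Nat.find hex) with h1 | h1
            · have h2 : Nat.find hex = i + 1 := by omega
              have := (Nat.find_spec hex).2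
              rwa [h2] at this
            · rcases Nat.lt_or_ge i Q with h2 | h2
              · exact (hI4 i h2).2 (ih h1 (by omega))
              · exact hQ' (i + 1) (by omega) hiW
      · refine ⟨Q, le_rfl, ?_, hQ'⟩
        intro i hi
        cases h3 : tv τ (nk C K A) W 0 (x.length + 1 + i)
            (ek (Sum.inr (k₀, none) : Kind C K A)) with
        | true => exact absurd ⟨i, hi, h3⟩ hex
        | false => rfl
    let y : List Bool := (List.range m).map fun i => tv τ (nk C K A) W 0 (x.length + 1 + i)
      (ek (Sum.inr (k₀, some (e (some true))) : Kind C K A))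
    have hylen : y.length = m := by simp [y]
    have hyi : ∀ i < m, y[i]? = some (tv τ (nk C K A) W 0 (x.length + 1 + i)
      (ek (Sum.inr (k₀, some (e (some true))) : Kind C K A))) := by
      intro i hi
      simp [y, hi]
    have hrow : ∀ k j, j ≤ W → tv τ (nk C K A) W 0 j
        (ek (Sum.inr (k, ((ini c₀ k₀ e x y).2 k)[j]?) : Kind C K A)) = true := by
      intro k j hj
      by_cases hk : k = k₀
      · subst hk
        rcases lt_trichotomy j x.length with h1 | h1 | h1
        · rw [ini_getElem_lt h1]
          exact hI2 j h1
        · subst h1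
          rw [ini_getElem_eq]
          exact hI3
        · obtain ⟨i, rfl⟩ : ∃ i, j = x.length + 1 + i := ⟨j - (x.length + 1), by omega⟩
          rw [ini_getElem_gt]
          rcases Nat.lt_or_ge i m with h2 | h2
          · rw [hyi i h2]
            have h3 := (hI4 i (by omega)).1
            rw [hm1 i h2] at h3
            simp only [Bool.false_eq_true, false_or] at h3
            rcases h3 with h3 | h3
            · rw [h3]
              exact h3
            · cases h4 : tv τ (nk C K A) W 0 (x.length + 1 + i)
                (ek (Sum.inr (k, some (e (some true))) : Kind C K A)) with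
              | true => exact h4
              | false => exact h3
          · have : y[i]? = none := by
              rw [List.getElem?_eq_none_iff, hylen]; exact h2
            rw [this]
            exact hm2 i h2 hj
      · have : ((ini c₀ k₀ e x y).2 k)[j]? = none := by
          simp [ini, hk]
        rw [this]
        exact hI1 j (by omega) k hk
    have hinv : ∀ t ≤ T, tv τ (nk C K A) W t 0
        (ek (Sum.inl ((M.step)^[t] (ini c₀ k₀ e x y)).1 : Kind C K A)) = true ∧
        ∀ k j, j + t ≤ W → tv τ (nk C K A) W t j
          (ek (Sum.inr (k, (((M.step)^[t] (ini c₀ k₀ e x y)).2 k)[j]?) : Kind C K A)) = true := by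
      intro t
      induction t with
      | zero =>
        intro _
        refine ⟨hI0, fun k j hj => hrow k j (by omega)⟩
      | succ t ih =>
        intro ht
        obtain ⟨ih1, ih2⟩ := ih (by omega)
        rw [iterate_succ_apply']
        generalize hs : (M.step)^[t] (ini c₀ k₀ e x y) = s at ih1 ih2
        refine ⟨?_, ?_⟩
        · have h1 := (hT t (by omega) 0 (by omega)).1 s.1 ((s.2 (M.rd s.1)).head?) ih1
          apply h1
          rw [List.head?_eq_getElem?]
          exact ih2 (M.rd s.1) 0 (by omega)
        · intro k j hj
          show tv τ (nk C K A) W (t + 1) j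
            (ek (Sum.inr (k, ((M.ac s.1 k).app (s.2 k))[j]?) : Kind C K A)) = true
          cases hac : M.ac s.1 k with
          | keep =>
            have h1 := (hT t (by omega) j (by omega)).2 s.1 k ih1 ((s.2 k)[j]?)
            rw [hac] at h1
            exact h1 (ih2 k j (by omega))
          | pop =>
            have h1 := (hT t (by omega) j (by omega)).2 s.1 k ih1 ((s.2 k)[j + 1]?)
            rw [hac] at h1
            have h2 := h1 (ih2 k (j + 1) (by omega))
            simp only [Act.app, List.getElem?_tail]
            exact h2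
          | push a₀ =>
            cases j with
            | zero =>
              have h1 := (hT t (by omega) 0 (by omega)).2 s.1 k ih1 none
              rw [hac] at h1
              exact h1.2
            | succ j =>
              have h1 := (hT t (by omega) j (by omega)).2 s.1 k ih1 ((s.2 k)[j]?)
              rw [hac] at h1
              exact h1.1 (ih2 k j (by omega))
    refine ⟨y, by rw [hylen]; exact hmQ, ?_⟩
    obtain ⟨h1, h2⟩ := hinv T le_rfl
    by_contra hacc
    rw [Bool.not_eq_true] at hacc
    have h3 := hF _ _ hacc h1
    rw [List.head?_eq_getElem?] at h3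
    have h4 := h2 k₁ 0 (by omega)
    rw [h3] at h4
    exact Bool.false_ne_true h4
  · rintro ⟨y, hy, hacc⟩
    let s : ℕ → C × (K → List A) := fun t => (M.step)^[t] (ini c₀ k₀ e x y)
    have hs : ∀ t, s (t + 1) = M.step (s t) := fun t => iterate_succ_apply' _ _ _
    let V : ℕ → ℕ → Kind C K A → Bool := fun t j β => match β with
      | .inl c => decide (c = (s t).1)
      | .inr (k, a) => decide (a = ((s t).2 k)[j]?)
    obtain ⟨τ, hτ⟩ := exists_assignment W V
    have hV1 : ∀ t c, tv τ (nk C K A) W t 0 (ek (Sum.inl c : Kind C K A)) = true ↔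
        c = (s t).1 := by
      intro t c
      rw [hτ t 0 _ (Nat.zero_le _)]
      simp [V]
    have hV2 : ∀ t j k a, j ≤ W → (tv τ (nk C K A) W t j (ek (Sum.inr (k, a) : Kind C K A)) = true ↔
        a = ((s t).2 k)[j]?) := by
      intro t j k a hj
      rw [hτ t j _ hj]
      simp [V]
    have hs0 : s 0 = ini c₀ k₀ e x y := rfl
    refine ⟨τ, tab_sat.2 ⟨?_, ?_, ?_, ?_, ?_, ?_, ?_, ?_⟩⟩
    · rw [hV1, hs0]; rfl
    · intro j hj k hk
      rw [hV2 _ _ _ _ (by omega), hs0]
      simp [ini, hk]
    · intro j hj
      rw [hV2 _ _ _ _ (by omega), hs0, ini_getElem_lt hj]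
    · rw [hV2 _ _ _ _ (by omega), hs0, ini_getElem_eq]
    · intro i hi
      rw [hV2 _ _ _ _ (by omega), hV2 _ _ _ _ (by omega), hV2 _ _ _ _ (by omega),
        hV2 _ _ _ _ (by omega), hs0, ini_getElem_gt]
      rw [show x.length + 1 + i + 1 = x.length + 1 + (i + 1) by omega, ini_getElem_gt]
      rcases Nat.lt_or_ge i y.length with h1 | h1
      · rw [List.getElem?_eq_getElem h1]
        refine ⟨?_, ?_⟩
        · right
          cases y[i]
          · right; rfl
          · left; rfl
        · intro h; simp at h
      · have h2 : y[i]? = none := by rw [List.getElem?_eq_none_iff]; exact h1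
        have h3 : y[i + 1]? = none := by rw [List.getElem?_eq_none_iff]; omega
        rw [h2, h3]
        exact ⟨Or.inl rfl, fun _ => rfl⟩
    · intro i hi
      rw [hV2 _ _ _ _ (by omega), hs0]
      rw [show x.length + 1 + Q + i = x.length + 1 + (Q + i) by omega, ini_getElem_gt]
      have h3 : y[Q + i]? = none := by rw [List.getElem?_eq_none_iff]; omega
      rw [h3]
      rfl
    · intro t ht j hj
      refine ⟨?_, ?_⟩
      · intro c a hc ha
        rw [hV1] at hc ⊢
        rw [hV2 _ _ _ _ (by omega)] at ha
        rw [hs t]
        subst hc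
        rw [ha, ← List.head?_eq_getElem?]
        rfl
      · intro c k hc a
        rw [hV1] at hc
        subst hc
        have hst : (s (t + 1)).2 k = (M.ac (s t).1 k).app ((s t).2 k) := by rw [hs t]; rfl
        cases hac : M.ac (s t).1 k with
        | keep =>
          intro h
          rw [hV2 _ _ _ _ (by omega)] at h ⊢
          rw [hst, hac]
          exact h
        | pop =>
          intro h
          rw [hV2 _ _ _ _ (by omega)] at h ⊢
          rw [hst, hac, h]
          simp only [Act.app, List.getElem?_tail]
        | push a₀ =>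
          refine ⟨?_, ?_⟩
          · intro h
            rw [hV2 _ _ _ _ (by omega)] at h ⊢
            rw [hst, hac, h]
            simp [Act.app]
          · rw [hV2 _ _ _ _ (by omega), hst, hac]
            simp [Act.app]
    · intro c a hca hc
      rw [hV1] at hc
      subst hc
      rw [← Bool.not_eq_true]
      intro h
      rw [hV2 _ _ _ _ (by omega), ← List.head?_eq_getElem?] at h
      rw [h] at hca
      rw [show acc (s T).1 ((s T).2 k₁).head? = true from hacc] at hca
      exact Bool.false_ne_true hca.symm

end Pool.Agent.H66
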